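import Pool.Agent.X159.MB.L2
import Pool.Agent.H452R4.LI.SCH
import Pool.Agent.H452R4.LI.GAU
import Pool.Agent.H452R4.LI.MV

/-!
Large values at well spaced points: all `T`, sets of integers.
-/

set_option autoImplicit false

namespace Pool.Agent.X159.MB

open Finset

/-- Q1 -/
def WellSpaced : Prop :=
  ∀ ε : ℝ, 0 < ε → ∃ C : ℝ, 0 < C ∧
    ∀ (N : ℕ) (T V : ℝ) (a : ℕ → ℂ) (S : Finset ℝ),
      1 ≤ N → 1 ≤ T → 0 < V →
      (∀ n, ‖a n‖ ≤ 1) →
      (N : ℝ) * T ^ ε ≤ V ^ 2 →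
      (∀ t ∈ S, 0 ≤ t ∧ t ≤ T ∧
        V ≤ ‖∑ n ∈ Finset.Icc 1 N, a n * (n : ℂ) ^ (-((t : ℂ) * Complex.I))‖) →
      (∀ t ∈ S, ∀ u ∈ S, t ≠ u → 1 ≤ |t - u|) →
      (S.card : ℝ) ≤ C * (N : ℝ) ^ 2 / V ^ 2 * T ^ ε

/-- The bilinear estimate for the sets `S` of integers in `[1, N]` and the sets `W` of at most `N`
integers in `[0, N^A]`. -/
def BilinearAllRanges : Prop :=
  ∀ A : ℕ, 1 ≤ A → ∀ ε : ℝ, 0 < ε → ∃ C : ℝ, ∀ N : ℕ, 1 ≤ N → ∀ S ⊆ Icc 1 N,
    ∀ W : Finset ℕ, W.card ≤ N → (∀ t ∈ W, t ≤ N ^ A) →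
      ‖∑ n ∈ S, ∑ t ∈ W, phn n t‖ ≤ C * (N : ℝ) ^ (1 + ε) * Real.sqrt W.card

/-- the same for the mean value over `n` -/
def MeanValueAllRanges : Prop :=
  ∀ A : ℕ, 1 ≤ A → ∀ ε : ℝ, 0 < ε → ∃ C : ℝ, ∀ N : ℕ, 1 ≤ N →
    ∀ W : Finset ℕ, W.card ≤ N → (∀ t ∈ W, t ≤ N ^ A) →
      ∑ n ∈ Icc 1 N, ‖∑ t ∈ W, phn n t‖ ≤ C * (N : ℝ) ^ (1 + ε) * Real.sqrt W.card

theorem bilinearAll_iff : BilinearAllRanges ↔ MeanValueAllRanges := by
  constructor
  · intro h A hA ε hε
    obtain ⟨C, hC⟩ := h A hA ε hε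
    refine ⟨4 * C, fun N hN W hW hT => ?_⟩
    have := sum_norm_le (Icc 1 N) (fun n => ∑ t ∈ W, phn n t)
      (C * (N : ℝ) ^ (1 + ε) * Real.sqrt W.card) fun S hS => hC N hN S hS W hW hT
    linarith
  · intro h A hA ε hε
    obtain ⟨C, hC⟩ := h A hA ε hε
    refine ⟨C, fun N hN S hS W hW hT => ?_⟩
    calc ‖∑ n ∈ S, ∑ t ∈ W, phn n t‖ ≤ ∑ n ∈ S, ‖∑ t ∈ W, phn n t‖ := norm_sum_le _ _
      _ ≤ ∑ n ∈ Icc 1 N, ‖∑ t ∈ W, phn n t‖ :=
        sum_le_sum_of_subset_of_nonneg hS fun _ _ _ => norm_nonneg _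
      _ ≤ _ := hC N hN W hW hT

/-- A sum bounded from the numbers of its large terms. -/
theorem sum_le_of_levels {ι : Type*} [DecidableEq ι] (f : ι → ℝ) (V₀ K : ℝ) (hV₀ : 0 < V₀)
    (hK : 0 ≤ K) (W : Finset ι)
    (h : ∀ U ⊆ W, ∀ V, V₀ ≤ V → (∀ t ∈ U, V ≤ f t) → (U.card : ℝ) * V ^ 2 ≤ K ^ 2) :
    ∑ t ∈ W, f t ≤ W.card * V₀ + 2 * K * Real.sqrt W.card := by
  induction W using Finset.strongInduction with
  | H W ih =>
    rcases W.eq_empty_or_nonempty with rfl | hne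
    · simp
    · obtain ⟨t₀, ht₀, hmin⟩ := exists_min_image W f hne
      have h1 := ih (W.erase t₀) (erase_ssubset ht₀) fun U hU V hV hUV =>
        h U (hU.trans (erase_subset _ _)) V hV hUV
      have hc1 : 1 ≤ W.card := card_pos.2 hne
      have hc : (((W.erase t₀).card : ℕ) : ℝ) = (W.card : ℝ) - 1 := by
        rw [card_erase_of_mem ht₀, Nat.cast_sub hc1, Nat.cast_one]
      rw [hc] at h1
      set n : ℝ := (W.card : ℝ) with hn
      have hn1 : 1 ≤ n := by
        rw [hn]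
        exact_mod_cast hc1
      have hsn : 0 < Real.sqrt n := Real.sqrt_pos.2 (by linarith)
      have hf : f t₀ ≤ V₀ + K / Real.sqrt n := by
        rcases le_or_gt (f t₀) V₀ with h2 | h2
        · have : 0 ≤ K / Real.sqrt n := by positivity
          linarith
        · have h3 := h W (Subset.refl _) (f t₀) h2.le hmin
          have h4 : f t₀ * Real.sqrt n ≤ K := by
            apply le_of_sq_le_sq _ hK
            rw [mul_pow, Real.sq_sqrt (by linarith)]
            linarith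
          have h5 : f t₀ ≤ K / Real.sqrt n := by
            rw [le_div_iff₀ hsn]
            exact h4
          linarith
      have h6 : 2 * K * Real.sqrt (n - 1) + K / Real.sqrt n ≤ 2 * K * Real.sqrt n := by
        have h7 : Real.sqrt (n - 1) * Real.sqrt n ≤ n - 1 / 2 := by
          rw [← Real.sqrt_mul (by linarith)]
          apply Real.sqrt_le_iff.2
          constructor
          · linarith
          · nlinarith
        have h8 : Real.sqrt n * Real.sqrt n = n := Real.mul_self_sqrt (by linarith)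
        have h9 : (2 * K * Real.sqrt (n - 1) + K / Real.sqrt n) * Real.sqrt n ≤
            (2 * K * Real.sqrt n) * Real.sqrt n := by
          have e1 : (2 * K * Real.sqrt (n - 1) + K / Real.sqrt n) * Real.sqrt n =
              2 * K * (Real.sqrt (n - 1) * Real.sqrt n) + K := by
            field_simp
          have e2 : (2 * K * Real.sqrt n) * Real.sqrt n = 2 * K * n := by
            rw [mul_assoc, h8]
          rw [e1, e2]
          nlinarith
        exact le_of_mul_le_mul_right h9 hsn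
      rw [← add_sum_erase W f ht₀]
      linarith

theorem cpow_eq (n : ℕ) (hn : 1 ≤ n) (t : ℝ) :
    (n : ℂ) ^ (-((t : ℂ) * Complex.I)) = (starRingEnd ℂ) (phr n t) := by
  have hn0 : (n : ℂ) ≠ 0 := by exact_mod_cast (by omega : n ≠ 0)
  unfold phr
  rw [Complex.cpow_def_of_ne_zero hn0, ← Complex.exp_conj]
  congr 1
  rw [map_mul, map_mul, Complex.conj_I, Complex.conj_ofReal, Complex.conj_ofReal,
    ← Complex.natCast_log]
  ring

theorem norm_D (N : ℕ) (a : ℕ → ℂ) (t : ℝ) :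
    ‖∑ n ∈ Icc 1 N, a n * (n : ℂ) ^ (-((t : ℂ) * Complex.I))‖ =
      ‖∑ n ∈ Icc 1 N, (starRingEnd ℂ) (a n) * phr n t‖ := by
  rw [← Complex.norm_conj (∑ n ∈ Icc 1 N, (starRingEnd ℂ) (a n) * phr n t), map_sum]
  congr 1
  apply sum_congr rfl
  intro n hn
  rw [mem_Icc] at hn
  rw [map_mul, Complex.conj_conj, cpow_eq n hn.1]

theorem wellSpaced_imp : WellSpaced → BilinearAllRanges := by
  intro h A hA ε hε
  have hA0 : (0 : ℝ) < A := by exact_mod_cast hA
  obtain ⟨C, hC0, hC⟩ := h (2 * ε / A) (by positivity)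
  refine ⟨1 + 2 * Real.sqrt C, ?_⟩
  intro N hN S hS W hW hT
  have hN1 : (1 : ℝ) ≤ N := by exact_mod_cast hN
  have hN0 : (0 : ℝ) < N := by linarith
  set b : ℕ → ℂ := fun n => if n ∈ S then 1 else 0 with hb
  have hbc : ∀ n, (starRingEnd ℂ) (b n) = b n := by
    intro n
    simp only [hb]
    split_ifs <;> simp
  have hDS : ∀ t : ℕ, ∑ n ∈ Icc 1 N, (starRingEnd ℂ) (b n) * phr n (t : ℝ) =
      ∑ n ∈ S, phn n t := by
    intro t
    simp only [hbc]
    simp only [hb, ite_mul, one_mul, zero_mul, phr_natCast]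
    rw [sum_ite_mem, inter_eq_right.2 hS]
  set P : ℝ := (N : ℝ) ^ ε with hP
  have hP0 : 0 < P := by positivity
  have hTη : ((N : ℝ) ^ A) ^ (2 * ε / A) = P ^ 2 := by
    rw [hP, ← Real.rpow_natCast (N : ℝ) A, ← Real.rpow_mul hN0.le, ← Real.rpow_natCast _ 2,
      ← Real.rpow_mul hN0.le]
    congr 1
    push_cast
    field_simp
  have hT1 : (1 : ℝ) ≤ (N : ℝ) ^ A := one_le_pow₀ hN1
  have hinj : Function.Injective (fun t : ℕ => (t : ℝ)) := Nat.cast_injective
  have hlev := sum_le_of_levels (fun t => ‖∑ n ∈ S, phn n t‖) (Real.sqrt N * P)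
    (Real.sqrt C * N * P) (by positivity) (by positivity) W (by
      intro U hU V hV hUV
      have hV0 : 0 < V := lt_of_lt_of_le (by positivity) hV
      have h1 := hC N ((N : ℝ) ^ A) V b (U.map ⟨fun t : ℕ => (t : ℝ), hinj⟩) hN hT1 hV0
        (fun n => by
          simp only [hb]
          split_ifs <;> simp) (by
        rw [hTη]
        have h2 : (Real.sqrt N * P) ^ 2 ≤ V ^ 2 := pow_le_pow_left₀ (by positivity) hV 2
        rw [mul_pow, Real.sq_sqrt hN0.le] at h2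
        exact h2) (by
        intro t ht
        rw [mem_map] at ht
        obtain ⟨m, hm, rfl⟩ := ht
        simp only [Function.Embedding.coeFn_mk]
        refine ⟨Nat.cast_nonneg m, ?_, ?_⟩
        · exact_mod_cast hT m (hU hm)
        · rw [norm_D, hDS]
          exact hUV m hm) (by
        intro t ht u hu htu
        rw [mem_map] at ht hu
        obtain ⟨m, hm, rfl⟩ := ht
        obtain ⟨l, hl, rfl⟩ := hu
        simp only [Function.Embedding.coeFn_mk] at htu ⊢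
        have hml : (m : ℤ) - l ≠ 0 := by
          intro h0
          apply htu
          have : (m : ℤ) = l := by omega
          have : m = l := by exact_mod_cast this
          rw [this]
        have := Int.one_le_abs hml
        exact_mod_cast this)
      rw [card_map, hTη] at h1
      have hV2 : 0 < V ^ 2 := by positivity
      calc (U.card : ℝ) * V ^ 2 ≤ (C * (N : ℝ) ^ 2 / V ^ 2 * P ^ 2) * V ^ 2 :=
            mul_le_mul_of_nonneg_right h1 hV2.le
        _ = (Real.sqrt C * N * P) ^ 2 := by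
            rw [mul_pow, mul_pow, Real.sq_sqrt hC0.le]
            field_simp)
  have hpow : (N : ℝ) ^ (1 + ε) = N * P := by
    rw [Real.rpow_add hN0, Real.rpow_one]
  have hR0 : (0 : ℝ) ≤ W.card := Nat.cast_nonneg _
  have hRN : (W.card : ℝ) ≤ N := by exact_mod_cast hW
  have h3 : (W.card : ℝ) * (Real.sqrt N * P) ≤ N * P * Real.sqrt W.card := by
    have h4 : (W.card : ℝ) = Real.sqrt W.card * Real.sqrt W.card := (Real.mul_self_sqrt hR0).symm
    have h5 : Real.sqrt W.card ≤ Real.sqrt N := Real.sqrt_le_sqrt hRN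
    have h6 : Real.sqrt N * Real.sqrt N = N := Real.mul_self_sqrt hN0.le
    have hs0 : 0 ≤ Real.sqrt (W.card : ℝ) := Real.sqrt_nonneg _
    calc (W.card : ℝ) * (Real.sqrt N * P) =
          Real.sqrt W.card * (Real.sqrt W.card * Real.sqrt N) * P := by
          nth_rewrite 1 [h4]
          ring
      _ ≤ Real.sqrt W.card * (Real.sqrt N * Real.sqrt N) * P :=
          mul_le_mul_of_nonneg_right (mul_le_mul_of_nonneg_left
            (mul_le_mul_of_nonneg_right h5 (Real.sqrt_nonneg _)) hs0) hP0.le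
      _ = _ := by
          rw [h6]
          ring
  calc ‖∑ n ∈ S, ∑ t ∈ W, phn n t‖ = ‖∑ t ∈ W, ∑ n ∈ S, phn n t‖ := by rw [sum_comm]
    _ ≤ ∑ t ∈ W, ‖∑ n ∈ S, phn n t‖ := norm_sum_le _ _
    _ ≤ _ := hlev
    _ ≤ (1 + 2 * Real.sqrt C) * (N : ℝ) ^ (1 + ε) * Real.sqrt W.card := by
        rw [hpow]
        linarith

/-- the `ℓ¹` bound for sets of integers of any size -/
theorem l1_integersX (C : ℝ) (hC : 0 ≤ C) (N X : ℕ) (hN : 1 ≤ N) (ε : ℝ)
    (h : ∀ S ⊆ Icc 1 N, ∀ W : Finset ℕ, W.card ≤ N → (∀ t ∈ W, t ≤ X) →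
      ‖∑ n ∈ S, ∑ t ∈ W, phn n t‖ ≤ C * (N : ℝ) ^ (1 + ε) * Real.sqrt W.card)
    (b : ℕ → ℂ) (hb : ∀ n, ‖b n‖ ≤ 1) (W : Finset ℕ) (hW : ∀ t ∈ W, t ≤ X) :
    ∑ t ∈ W, ‖∑ n ∈ Icc 1 N, b n * phn n t‖ ≤
      32 * C * (N : ℝ) ^ ε * (N * Real.sqrt W.card + W.card * Real.sqrt N) := by
  have hN1 : (1 : ℝ) ≤ N := by exact_mod_cast hN
  have hN0 : (0 : ℝ) < N := by linarith
  have hsmall : ∀ V ⊆ W, V.card ≤ N → ∑ t ∈ V, ‖∑ n ∈ Icc 1 N, b n * phn n t‖ ≤
      16 * (C * (N : ℝ) ^ (1 + ε) * Real.sqrt V.card) := by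
    intro V hV hVN
    apply sum_norm_poly_le (Icc 1 N) V phn _ _ b hb
    intro S hS U hU
    have hUc : U.card ≤ V.card := card_le_card hU
    refine (h S hS U (hUc.trans hVN) fun t ht => hW t (hV (hU ht))).trans ?_
    have : Real.sqrt U.card ≤ Real.sqrt V.card := Real.sqrt_le_sqrt (by exact_mod_cast hUc)
    gcongr
  have hpow : (N : ℝ) ^ (1 + ε) = N * (N : ℝ) ^ ε := by
    rw [Real.rpow_add hN0, Real.rpow_one]
  have hNe : 0 ≤ (N : ℝ) ^ ε := by positivity
  have hR0 : (0 : ℝ) ≤ W.card := Nat.cast_nonneg _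
  rcases Nat.lt_or_ge N W.card with hc | hc
  · have h1 := sum_le_pieces N hN (fun t => ‖∑ n ∈ Icc 1 N, b n * phn n t‖)
      (16 * (C * (N : ℝ) ^ (1 + ε) * Real.sqrt N)) W (fun V hV hVc => by
        refine (hsmall V hV hVc).trans ?_
        have : Real.sqrt V.card ≤ Real.sqrt N := Real.sqrt_le_sqrt (by exact_mod_cast hVc)
        gcongr) (by positivity)
    refine h1.trans ?_
    have hc' : (N : ℝ) ≤ W.card := by exact_mod_cast hc.le
    have h2 : (W.card : ℝ) / N + 1 ≤ 2 * (W.card / N) := by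
      have : 1 ≤ (W.card : ℝ) / N := by rwa [one_le_div hN0]
      linarith
    calc 16 * (C * (N : ℝ) ^ (1 + ε) * Real.sqrt N) * ((W.card : ℝ) / N + 1) ≤
          16 * (C * (N : ℝ) ^ (1 + ε) * Real.sqrt N) * (2 * (W.card / N)) :=
          mul_le_mul_of_nonneg_left h2 (by positivity)
      _ = 32 * C * (N : ℝ) ^ ε * (W.card * Real.sqrt N) := by
          rw [hpow]
          field_simp
          ring
      _ ≤ _ := by
          apply mul_le_mul_of_nonneg_left _ (by positivity)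
          have : 0 ≤ N * Real.sqrt W.card := by positivity
          linarith
  · refine (hsmall W (Subset.refl _) hc).trans ?_
    rw [hpow]
    have h3 : 0 ≤ 16 * C * (N : ℝ) ^ ε * (N * Real.sqrt W.card) := by positivity
    have h4 : 0 ≤ 32 * C * (N : ℝ) ^ ε * (W.card * Real.sqrt N) := by positivity
    nlinarith

theorem l2_of_bilinear (A : ℕ) (h : ∀ ε : ℝ, 0 < ε → ∃ C : ℝ, ∀ N : ℕ, 1 ≤ N → ∀ S ⊆ Icc 1 N,
    ∀ W : Finset ℕ, W.card ≤ N → (∀ t ∈ W, t ≤ N ^ A) →
      ‖∑ n ∈ S, ∑ t ∈ W, phn n t‖ ≤ C * (N : ℝ) ^ (1 + ε) * Real.sqrt W.card)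
    (ε : ℝ) (hε : 0 < ε) : ∃ C : ℝ, 0 < C ∧
    ∀ N : ℕ, 1 ≤ N → ∀ T : ℝ, T ≤ (N : ℝ) ^ A →
      ∀ a : ℕ → ℂ, (∀ n, ‖a n‖ ≤ 1) →
        ∀ S : Finset ℝ, (∀ t ∈ S, 0 ≤ t ∧ t ≤ T) →
          (∀ t ∈ S, ∀ u ∈ S, t ≠ u → 1 ≤ |t - u|) →
            ∑ t ∈ S, ‖∑ n ∈ Icc 1 N, a n * phr n t‖ ^ 2
              ≤ C * (N : ℝ) ^ ε * ((N : ℝ) + (S.card : ℝ)) * (N : ℝ) := by
  set δ : ℝ := ε / 8 with hδ
  have hδ0 : 0 < δ := by positivity
  obtain ⟨C₀, hC₀⟩ := h δ hδ0
  set C : ℝ := max C₀ 1 with hC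
  have hC1 : 1 ≤ C := le_max_right _ _
  set J : ℕ := ⌈1 / (2 * δ)⌉₊ with hJ
  set K : ℝ := 32 * C * (2 + 1 / δ) with hK
  have hK1 : 1 ≤ K := by
    have : 0 < 1 / δ := by positivity
    rw [hK]
    nlinarith
  refine ⟨4 * K ^ 2 * (1 + J), by positivity, ?_⟩
  intro N hN T hT a ha S hS hsep
  have hN1 : (1 : ℝ) ≤ N := by exact_mod_cast hN
  have hN0 : (0 : ℝ) < N := by linarith
  set D : ℝ → ℂ := fun t => ∑ n ∈ Icc 1 N, a n * phr n t with hD
  set M : ℝ := K * (N : ℝ) ^ (2 * δ) with hM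
  have hNd : (1 : ℝ) ≤ (N : ℝ) ^ (2 * δ) := Real.one_le_rpow hN1 (by positivity)
  have hM1 : 1 ≤ M := by
    rw [hM]
    nlinarith
  -- the `ℓ¹` bound
  have hl1 : ∀ V ⊆ S, ∑ t ∈ V, ‖D t‖ ≤ M * (N * Real.sqrt V.card + V.card * Real.sqrt N) := by
    intro V hV
    have hinj : Set.InjOn (fun t : ℝ => ⌊t⌋₊) (V : Set ℝ) := by
      intro t ht u hu htu
      by_contra hne
      have h1 := hsep t (hV ht) u (hV hu) hne
      have h2 := Nat.floor_le (hS t (hV ht)).1
      have h3 := Nat.lt_floor_add_one t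
      have h4 := Nat.floor_le (hS u (hV hu)).1
      have h5 := Nat.lt_floor_add_one u
      simp only at htu
      rw [htu] at h2 h3
      have h6 : |t - u| < 1 := by
        rw [abs_lt]
        constructor <;> linarith
      linarith
    set W : Finset ℕ := V.image (fun t : ℝ => ⌊t⌋₊) with hW
    have hWc : W.card = V.card := card_image_of_injOn hinj
    set x : ℕ → ℝ := fun m => if h : ∃ t ∈ V, ⌊t⌋₊ = m then h.choose - m else 0 with hx
    have hxt : ∀ t ∈ V, (⌊t⌋₊ : ℝ) + x ⌊t⌋₊ = t := by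
      intro t ht
      have hex : ∃ u ∈ V, ⌊u⌋₊ = ⌊t⌋₊ := ⟨t, ht, rfl⟩
      have h1 : hex.choose = t := hinj hex.choose_spec.1 ht hex.choose_spec.2
      simp only [hx]
      rw [dif_pos hex, h1]
      ring
    have hWN : ∀ m ∈ W, m ≤ N ^ A := by
      intro m hm
      rw [hW, mem_image] at hm
      obtain ⟨t, ht, rfl⟩ := hm
      have h1 : t ≤ ((N ^ A : ℕ) : ℝ) := by
        push_cast
        exact (hS t (hV ht)).2.trans hT
      exact Nat.floor_le_of_le h1
    have h1 := l1_real N hN (32 * C * (N : ℝ) ^ δ * (N * Real.sqrt W.card + W.card * Real.sqrt N))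
      W (fun b hb => l1_integersX C (by linarith) N (N ^ A) hN δ (fun S' hS' W' hW' hT' => by
        refine (hC₀ N hN S' hS' W' hW' hT').trans ?_
        have : C₀ ≤ C := le_max_left _ _
        gcongr) b hb W hWN) x (fun m hm => by
          rw [hW, mem_image] at hm
          obtain ⟨t, ht, rfl⟩ := hm
          have h2 := hxt t ht
          have h3 := Nat.floor_le (hS t (hV ht)).1
          have h4 := Nat.lt_floor_add_one t
          constructor <;> linarith) a ha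
    have h2 : ∑ m ∈ W, ‖∑ n ∈ Icc 1 N, a n * phr n (m + x m)‖ = ∑ t ∈ V, ‖D t‖ := by
      rw [hW, sum_image hinj]
      apply sum_congr rfl
      intro t ht
      rw [hxt t ht]
    rw [h2, hWc] at h1
    refine h1.trans ?_
    have h3 : 2 + Real.log N ≤ (2 + 1 / δ) * (N : ℝ) ^ δ := by
      have h4 : Real.log N ≤ (N : ℝ) ^ δ / δ := Real.log_le_rpow_div hN0.le hδ0
      have h5 : (1 : ℝ) ≤ (N : ℝ) ^ δ := Real.one_le_rpow hN1 hδ0.le
      have h6 : (N : ℝ) ^ δ / δ = 1 / δ * (N : ℝ) ^ δ := by ring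
      rw [h6] at h4
      nlinarith
    have h7 : (N : ℝ) ^ (2 * δ) = (N : ℝ) ^ δ * (N : ℝ) ^ δ := by
      rw [← Real.rpow_add hN0]
      congr 1
      ring
    have h8 : 0 ≤ N * Real.sqrt V.card + V.card * Real.sqrt N := by positivity
    calc (2 + Real.log N) * (32 * C * (N : ℝ) ^ δ * (N * Real.sqrt V.card + V.card * Real.sqrt N))
        ≤ ((2 + 1 / δ) * (N : ℝ) ^ δ) *
          (32 * C * (N : ℝ) ^ δ * (N * Real.sqrt V.card + V.card * Real.sqrt N)) :=
          mul_le_mul_of_nonneg_right h3 (by positivity)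
      _ = _ := by
          rw [hM, hK, h7]
          ring
  -- the level sets
  set v : ℕ → ℝ := fun j => 2 * M * Real.sqrt N * (N : ℝ) ^ ((j : ℝ) * δ) with hv
  have hv0 : ∀ j, 0 < v j := fun j => by
    have : 0 < Real.sqrt (N : ℝ) := Real.sqrt_pos.2 hN0
    simp only [hv]
    positivity
  have hvge : ∀ j, 2 * M * Real.sqrt N ≤ v j := fun j => by
    have h1 : (1 : ℝ) ≤ (N : ℝ) ^ ((j : ℝ) * δ) := Real.one_le_rpow hN1 (by positivity)
    have h2 : 0 ≤ 2 * M * Real.sqrt N := by positivity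
    simp only [hv]
    nlinarith
  have hlevelset : ∀ j, ((S.filter (fun t => v j < ‖D t‖)).card : ℝ) * v j ^ 2 ≤
      4 * M ^ 2 * N ^ 2 := by
    intro j
    set V := S.filter (fun t => v j < ‖D t‖) with hV
    have h1 := hl1 V (filter_subset _ _)
    have h2 : (V.card : ℝ) * v j ≤ ∑ t ∈ V, ‖D t‖ := by
      rw [← nsmul_eq_mul]
      exact card_nsmul_le_sum _ _ _ fun t ht => by
        rw [hV, mem_filter] at ht
        exact ht.2.le
    have hR0 : (0 : ℝ) ≤ V.card := Nat.cast_nonneg _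
    set s : ℝ := Real.sqrt V.card with hs
    have hs0 : 0 ≤ s := Real.sqrt_nonneg _
    have hss : (V.card : ℝ) = s * s := (Real.mul_self_sqrt hR0).symm
    have h3 : s * s * v j ≤ M * (N * s) + s * s * (M * Real.sqrt N) := by
      rw [hss] at h2 h1
      have := h2.trans h1
      linarith
    have h4 : s * s * (M * Real.sqrt N) ≤ s * s * (v j / 2) := by
      apply mul_le_mul_of_nonneg_left _ (mul_nonneg hs0 hs0)
      have := hvge j
      linarith
    have h5 : s * (s * v j) ≤ s * (2 * M * N) := by nlinarith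
    have h6 : s * v j ≤ 2 * M * N := by
      rcases eq_or_lt_of_le hs0 with h0 | h0
      · rw [← h0, zero_mul]
        positivity
      · exact le_of_mul_le_mul_left h5 h0
    rw [hss]
    calc s * s * v j ^ 2 = (s * v j) ^ 2 := by ring
      _ ≤ (2 * M * N) ^ 2 := pow_le_pow_left₀ (mul_nonneg hs0 (hv0 j).le) h6 2
      _ = _ := by ring
  have hDle : ∀ t, ‖D t‖ ≤ v J := by
    intro t
    have h1 : ‖D t‖ ≤ N := by
      calc ‖D t‖ ≤ ∑ n ∈ Icc 1 N, ‖a n * phr n t‖ := norm_sum_le _ _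
        _ ≤ ∑ n ∈ Icc 1 N, (1 : ℝ) := sum_le_sum fun n _ => by
            rw [norm_mul, norm_phr, mul_one]
            exact ha n
        _ = N := by simp
    have h2 : Real.sqrt N * Real.sqrt N ≤ Real.sqrt N * (N : ℝ) ^ ((J : ℝ) * δ) := by
      apply mul_le_mul_of_nonneg_left _ (Real.sqrt_nonneg _)
      rw [Real.sqrt_eq_rpow]
      apply Real.rpow_le_rpow_of_exponent_le hN1
      have h3 : 1 / (2 * δ) ≤ (J : ℝ) := Nat.le_ceil _
      have h4 : 1 / (2 * δ) * δ ≤ (J : ℝ) * δ := mul_le_mul_of_nonneg_right h3 hδ0.le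
      have h5 : 1 / (2 * δ) * δ = 1 / 2 := by field_simp
      linarith
    rw [Real.mul_self_sqrt hN0.le] at h2
    simp only [hv]
    have h6 : 0 ≤ Real.sqrt N * (N : ℝ) ^ ((J : ℝ) * δ) := by positivity
    nlinarith
  have hlevel : ∀ t, ‖D t‖ ^ 2 ≤ v 0 ^ 2 +
      ∑ j ∈ range J, (if v j < ‖D t‖ then v (j + 1) ^ 2 else 0) := by
    intro t
    have h1 := level_le (‖D t‖ ^ 2) (fun j => v j ^ 2) (fun j => by positivity) J
      (pow_le_pow_left₀ (norm_nonneg _) (hDle t) 2)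
    refine h1.trans (add_le_add le_rfl (sum_le_sum fun j _ => ?_))
    by_cases h2 : v j < ‖D t‖
    · rw [if_pos h2]
      split_ifs
      · exact le_refl _
      · positivity
    · rw [if_neg h2, if_neg]
      rw [not_lt]
      exact pow_le_pow_left₀ (norm_nonneg _) (not_lt.1 h2) 2
  have hR0 : (0 : ℝ) ≤ S.card := Nat.cast_nonneg _
  have hv0sq : v 0 ^ 2 = 4 * M ^ 2 * N := by
    simp only [hv]
    rw [Nat.cast_zero, zero_mul, Real.rpow_zero, mul_one, mul_pow, Real.sq_sqrt hN0.le]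
    ring
  have hvs : ∀ j, v (j + 1) ^ 2 = (N : ℝ) ^ (2 * δ) * v j ^ 2 := by
    intro j
    have h1 : v (j + 1) = (N : ℝ) ^ δ * v j := by
      simp only [hv]
      have : ((j + 1 : ℕ) : ℝ) * δ = δ + (j : ℝ) * δ := by push_cast; ring
      rw [this, Real.rpow_add hN0]
      ring
    rw [h1, mul_pow, ← Real.rpow_natCast, ← Real.rpow_mul hN0.le]
    congr 2
    push_cast
    ring
  have hMM : M ^ 2 * (N : ℝ) ^ (2 * δ) ≤ K ^ 2 * (N : ℝ) ^ ε := by
    rw [hM, mul_pow, ← Real.rpow_natCast ((N : ℝ) ^ (2 * δ)) 2, ← Real.rpow_mul hN0.le, mul_assoc,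
      ← Real.rpow_add hN0]
    apply mul_le_mul_of_nonneg_left _ (by positivity)
    apply Real.rpow_le_rpow_of_exponent_le hN1
    push_cast
    rw [hδ]
    linarith
  calc ∑ t ∈ S, ‖D t‖ ^ 2 ≤ ∑ t ∈ S, (v 0 ^ 2 +
      ∑ j ∈ range J, (if v j < ‖D t‖ then v (j + 1) ^ 2 else 0)) :=
        sum_le_sum fun t _ => hlevel t
    _ = (S.card : ℝ) * v 0 ^ 2 + ∑ j ∈ range J,
        ((S.filter (fun t => v j < ‖D t‖)).card : ℝ) * v (j + 1) ^ 2 := by
      rw [sum_add_distrib, sum_const, nsmul_eq_mul, sum_comm]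
      congr 1
      apply sum_congr rfl
      intro j _
      rw [← sum_filter, sum_const, nsmul_eq_mul]
    _ ≤ (S.card : ℝ) * (4 * M ^ 2 * N) + ∑ j ∈ range J,
        (N : ℝ) ^ (2 * δ) * (4 * M ^ 2 * N ^ 2) := by
      rw [hv0sq]
      apply add_le_add le_rfl
      apply sum_le_sum
      intro j _
      rw [hvs]
      calc ((S.filter (fun t => v j < ‖D t‖)).card : ℝ) * ((N : ℝ) ^ (2 * δ) * v j ^ 2) =
            (N : ℝ) ^ (2 * δ) * (((S.filter (fun t => v j < ‖D t‖)).card : ℝ) * v j ^ 2) := by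
            ring
        _ ≤ _ := mul_le_mul_of_nonneg_left (hlevelset j) (by positivity)
    _ ≤ (S.card : ℝ) * (4 * (M ^ 2 * (N : ℝ) ^ (2 * δ)) * N) +
        J * (4 * (M ^ 2 * (N : ℝ) ^ (2 * δ)) * N ^ 2) := by
      rw [sum_const, card_range, nsmul_eq_mul]
      apply add_le_add
      · apply mul_le_mul_of_nonneg_left _ hR0
        apply mul_le_mul_of_nonneg_right _ hN0.le
        nlinarith [sq_nonneg M]
      · apply le_of_eq
        ring
    _ ≤ (S.card : ℝ) * (4 * (K ^ 2 * (N : ℝ) ^ ε) * N) +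
        J * (4 * (K ^ 2 * (N : ℝ) ^ ε) * N ^ 2) := by gcongr
    _ ≤ _ := by
      have e1 : 0 ≤ K ^ 2 * (N : ℝ) ^ ε := by positivity
      have e2 : (0 : ℝ) ≤ J := Nat.cast_nonneg _
      have e3 : 0 ≤ K ^ 2 * (N : ℝ) ^ ε * (N * N) := by positivity
      have e4 : 0 ≤ K ^ 2 * (N : ℝ) ^ ε * (J * S.card * N) := by positivity
      nlinarith


/-! ### The range `T ≤ N` -/

open Pool.Agent.H452R4.LI in
theorem dens_one (S : Finset ℝ) (hsep : ∀ t ∈ S, ∀ u ∈ S, t ≠ u → 1 ≤ |t - u|) : dens S 1 := by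
  intro x
  have : (S.filter (fun a => x ≤ a ∧ a < x + 1)).card ≤ 1 := by
    rw [card_le_one]
    intro a ha b hb
    rw [mem_filter] at ha hb
    by_contra hab
    have h1 := hsep a ha.1 b hb.1 hab
    have h2 : |a - b| < 1 := by
      rw [abs_lt]
      constructor <;> linarith [ha.2.1, ha.2.2, hb.2.1, hb.2.2]
    linarith
  exact_mod_cast this

open Pool.Agent.H452R4.LI in
theorem EE_eq (S : Finset ℝ) (n : ℕ) (hn : 1 ≤ n) :
    EE S n = ‖∑ t ∈ S, (n : ℂ) ^ (-((t : ℂ) * Complex.I))‖ := by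
  unfold EE
  congr 1
  apply sum_congr rfl
  intro t _
  rw [cpow_eq n hn, phr, ← Complex.exp_conj]
  congr 1
  rw [map_mul, map_mul, Complex.conj_I, Complex.conj_ofReal, Complex.conj_ofReal]
  push_cast
  ring

open Pool.Agent.H452R4.LI in
/-- the mean value over `n ≤ N` for well spaced points in `[0, N]` -/
theorem mean_small : ∃ C : ℝ, 1 ≤ C ∧ ∀ N : ℕ, 1 ≤ N → ∀ S : Finset ℝ,
    (∀ t ∈ S, 0 ≤ t ∧ t ≤ N) → (∀ t ∈ S, ∀ u ∈ S, t ≠ u → 1 ≤ |t - u|) →
      ∑ n ∈ Icc 1 N, EE S n ≤ C * N * Real.sqrt S.card := by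
  obtain ⟨C₀, hC₀, hMV⟩ := mv sch gau
  set C : ℝ := max C₀ 1 with hC
  have hC1 : 1 ≤ C := le_max_right _ _
  refine ⟨5 * Real.sqrt (2 * C), ?_, ?_⟩
  · have : 1 ≤ Real.sqrt (2 * C) := by
      rw [Real.one_le_sqrt]
      linarith
    linarith
  intro N hN S hS hsep
  have hN1 : (1 : ℝ) ≤ N := by exact_mod_cast hN
  set B : ℝ := Real.sqrt (2 * C * N * S.card) with hB
  have hB0 : 0 ≤ B := Real.sqrt_nonneg _
  -- the number of points
  have hcard : (S.card : ℝ) ≤ 2 * N := by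
    have hinj : Set.InjOn (fun t : ℝ => ⌊t⌋₊) (S : Set ℝ) := by
      intro t ht u hu htu
      by_contra hne
      have h1 := hsep t ht u hu hne
      have h2 := Nat.floor_le (hS t ht).1
      have h3 := Nat.lt_floor_add_one t
      have h4 := Nat.floor_le (hS u hu).1
      have h5 := Nat.lt_floor_add_one u
      simp only at htu
      rw [htu] at h2 h3
      have h6 : |t - u| < 1 := by
        rw [abs_lt]
        constructor <;> linarith
      linarith
    have h1 : S.card ≤ N + 1 := by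
      rw [← card_image_of_injOn hinj]
      calc (S.image fun t : ℝ => ⌊t⌋₊).card ≤ (range (N + 1)).card := by
            apply card_le_card
            intro m hm
            rw [mem_image] at hm
            obtain ⟨t, ht, rfl⟩ := hm
            rw [mem_range]
            have := Nat.floor_le_of_le (hS t ht).2
            omega
        _ = N + 1 := card_range _
    have h2 : (S.card : ℝ) ≤ N + 1 := by exact_mod_cast h1
    linarith
  have hblock : ∀ D : ℕ, 1 ≤ D → D ≤ N →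
      ∑ n ∈ Ioc D (2 * D), EE S n ≤ B * Real.sqrt D := by
    intro D hD hDN
    have hDR : (D : ℝ) ≤ N := by exact_mod_cast hDN
    have h1 := hMV S N 1 D hN1 hD (fun a ha => by
      rw [abs_of_nonneg (hS a ha).1]
      exact (hS a ha).2) (dens_one S hsep)
    have h2 : (∑ n ∈ Ioc D (2 * D), EE S n) ^ 2 ≤ (B * Real.sqrt D) ^ 2 := by
      calc (∑ n ∈ Ioc D (2 * D), EE S n) ^ 2 ≤
            ((Ioc D (2 * D)).card : ℝ) * ∑ n ∈ Ioc D (2 * D), EE S n ^ 2 :=
            sq_sum_le_card_mul_sum_sq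
        _ ≤ (D : ℝ) * (C * (N + N) * S.card) := by
            rw [Nat.card_Ioc]
            have e1 : 2 * D - D = D := by omega
            rw [e1]
            apply mul_le_mul_of_nonneg_left _ (Nat.cast_nonneg _)
            refine h1.trans ?_
            rw [mul_one]
            have : C₀ ≤ C := le_max_left _ _
            gcongr
        _ = _ := by
            rw [mul_pow, hB, Real.sq_sqrt (by positivity), Real.sq_sqrt (Nat.cast_nonneg _)]
            ring
    exact le_of_sq_le_sq h2 (by positivity)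
  have hmain : ∀ M : ℕ, 1 ≤ M → M ≤ N → ∑ n ∈ Icc 1 M, EE S n ≤ 5 * B * Real.sqrt M := by
    intro M
    induction M using Nat.strong_induction_on with
    | _ M ih =>
      intro hM hMN
      rcases Nat.lt_or_ge M 2 with h2 | h2
      · have hM1 : M = 1 := by omega
        subst hM1
        rw [Icc_self, sum_singleton, EE_eq S 1 le_rfl]
        simp only [Nat.cast_one, Complex.one_cpow, sum_const, nsmul_eq_mul, mul_one,
          Real.sqrt_one, Complex.norm_natCast]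
        have h3 : (S.card : ℝ) ≤ B := by
          rw [hB]
          apply Real.le_sqrt_of_sq_le
          have h4 : (0 : ℝ) ≤ S.card := Nat.cast_nonneg _
          have h5 : (2 : ℝ) * N ≤ 2 * C * N := by nlinarith
          nlinarith
        linarith
      · set D : ℕ := (M + 1) / 2 with hD
        have hD1 : 1 ≤ D := by omega
        have hDM : D < M := by omega
        have h2D : M ≤ 2 * D := by omega
        have h3D : 3 * D ≤ 2 * M := by omega
        have h3 := ih D hDM hD1 (by omega)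
        have h4 := hblock D hD1 (by omega)
        have h5 : ∑ n ∈ Icc 1 M, EE S n ≤ ∑ n ∈ Icc 1 D, EE S n + ∑ n ∈ Ioc D (2 * D), EE S n := by
          rw [← sum_union]
          · apply sum_le_sum_of_subset_of_nonneg
            · intro n hn
              rw [mem_Icc] at hn
              rw [mem_union, mem_Icc, mem_Ioc]
              omega
            · intro n _ _
              exact norm_nonneg _
          · rw [disjoint_left]
            intro n hn hn'
            rw [mem_Icc] at hn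
            rw [mem_Ioc] at hn'
            omega
        have h6 : Real.sqrt D ≤ 5 / 6 * Real.sqrt M := by
          rw [show (5 / 6 : ℝ) * Real.sqrt M = Real.sqrt ((5 / 6) ^ 2 * M) by
            rw [Real.sqrt_mul (by positivity), Real.sqrt_sq (by norm_num)]]
          apply Real.sqrt_le_sqrt
          have : (3 : ℝ) * D ≤ 2 * M := by exact_mod_cast h3D
          have hM0 : (0 : ℝ) ≤ M := Nat.cast_nonneg _
          linarith
        have hsM : 0 ≤ Real.sqrt (M : ℝ) := Real.sqrt_nonneg _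
        have hsD : 0 ≤ Real.sqrt (D : ℝ) := Real.sqrt_nonneg _
        have h7 : B * Real.sqrt D ≤ B * (5 / 6 * Real.sqrt M) := mul_le_mul_of_nonneg_left h6 hB0
        calc _ ≤ 5 * B * Real.sqrt D + B * Real.sqrt D := by linarith
          _ = 6 * (B * Real.sqrt D) := by ring
          _ ≤ 6 * (B * (5 / 6 * Real.sqrt M)) := by linarith
          _ = _ := by ring
  refine (hmain N hN le_rfl).trans (le_of_eq ?_)
  have e1 : B = Real.sqrt (2 * C) * Real.sqrt N * Real.sqrt S.card := by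
    rw [hB, Real.sqrt_mul (by positivity), Real.sqrt_mul (by positivity)]
  have e2 : Real.sqrt (N : ℝ) * Real.sqrt N = N := Real.mul_self_sqrt (by linarith)
  rw [e1]
  calc 5 * (Real.sqrt (2 * C) * Real.sqrt N * Real.sqrt S.card) * Real.sqrt N =
        5 * Real.sqrt (2 * C) * (Real.sqrt N * Real.sqrt N) * Real.sqrt S.card := by ring
    _ = _ := by rw [e2]

theorem l1_small : ∃ C : ℝ, 1 ≤ C ∧ ∀ N : ℕ, 1 ≤ N → ∀ a : ℕ → ℂ, (∀ n, ‖a n‖ ≤ 1) →
    ∀ S : Finset ℝ, (∀ t ∈ S, 0 ≤ t ∧ t ≤ N) → (∀ t ∈ S, ∀ u ∈ S, t ≠ u → 1 ≤ |t - u|) →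
      ∑ t ∈ S, ‖∑ n ∈ Icc 1 N, a n * (n : ℂ) ^ (-((t : ℂ) * Complex.I))‖ ≤
        C * N * Real.sqrt S.card := by
  obtain ⟨C, hC1, hC⟩ := mean_small
  refine ⟨16 * C, by linarith, ?_⟩
  intro N hN a ha S hS hsep
  have h := sum_norm_poly_le (Icc 1 N) S (fun n t => (n : ℂ) ^ (-((t : ℂ) * Complex.I)))
    (C * N * Real.sqrt S.card) (by
      intro A hA V hV
      have h1 := hC N hN V (fun t ht => hS t (hV ht)) fun t ht u hu => hsep t (hV ht) u (hV hu)
      calc ‖∑ n ∈ A, ∑ t ∈ V, (n : ℂ) ^ (-((t : ℂ) * Complex.I))‖ ≤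
            ∑ n ∈ A, ‖∑ t ∈ V, (n : ℂ) ^ (-((t : ℂ) * Complex.I))‖ := norm_sum_le _ _
        _ ≤ ∑ n ∈ Icc 1 N, ‖∑ t ∈ V, (n : ℂ) ^ (-((t : ℂ) * Complex.I))‖ :=
            sum_le_sum_of_subset_of_nonneg hA fun _ _ _ => norm_nonneg _
        _ = ∑ n ∈ Icc 1 N, Pool.Agent.H452R4.LI.EE V n := by
            apply sum_congr rfl
            intro n hn
            rw [mem_Icc] at hn
            rw [EE_eq V n hn.1]
        _ ≤ C * N * Real.sqrt V.card := h1
        _ ≤ _ := by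
            have h2 : Real.sqrt V.card ≤ Real.sqrt S.card :=
              Real.sqrt_le_sqrt (by exact_mod_cast card_le_card hV)
            gcongr) a ha
  linarith

theorem card_le_length (T : ℝ) (hT : 1 ≤ T) (S : Finset ℝ) (hS : ∀ t ∈ S, 0 ≤ t ∧ t ≤ T)
    (hsep : ∀ t ∈ S, ∀ u ∈ S, t ≠ u → 1 ≤ |t - u|) : (S.card : ℝ) ≤ 2 * T := by
  have hinj : Set.InjOn (fun t : ℝ => ⌊t⌋₊) (S : Set ℝ) := by
    intro t ht u hu htu
    by_contra hne
    have h1 := hsep t ht u hu hne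
    have h2 := Nat.floor_le (hS t ht).1
    have h3 := Nat.lt_floor_add_one t
    have h4 := Nat.floor_le (hS u hu).1
    have h5 := Nat.lt_floor_add_one u
    simp only at htu
    rw [htu] at h2 h3
    have h6 : |t - u| < 1 := by
      rw [abs_lt]
      constructor <;> linarith
    linarith
  have h1 : S.card ≤ ⌊T⌋₊ + 1 := by
    rw [← card_image_of_injOn hinj]
    calc (S.image fun t : ℝ => ⌊t⌋₊).card ≤ (range (⌊T⌋₊ + 1)).card := by
          apply card_le_card
          intro m hm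
          rw [mem_image] at hm
          obtain ⟨t, ht, rfl⟩ := hm
          rw [mem_range]
          have := Nat.floor_le_floor (hS t ht).2
          omega
      _ = ⌊T⌋₊ + 1 := card_range _
  have h2 : (S.card : ℝ) ≤ ⌊T⌋₊ + 1 := by exact_mod_cast h1
  have h3 := Nat.floor_le (by linarith : (0 : ℝ) ≤ T)
  linarith

theorem bilinearAll_imp : BilinearAllRanges → WellSpaced := by
  intro h ε hε
  set A : ℕ := ⌈1 / ε⌉₊ + 1 with hA
  have hAe : 1 / ε ≤ (A : ℝ) := by
    have := Nat.le_ceil (1 / ε)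
    rw [hA]
    push_cast
    linarith
  obtain ⟨C₁, hC₁, h1⟩ := l2_of_bilinear A (h A (by omega)) (ε / 2) (by positivity)
  obtain ⟨C₂, hC₂, h2⟩ := l1_small
  set E : ℝ := ((2 * C₁) ^ (2 / ε)) ^ (1 / ε) with hE
  have hE0 : 0 ≤ E := by positivity
  refine ⟨C₂ ^ 2 + 2 * C₁ + 2 * E, by positivity, ?_⟩
  intro N T V a S hN hT hV ha hVT hS hsep
  have hN1 : (1 : ℝ) ≤ N := by exact_mod_cast hN
  have hN0 : (0 : ℝ) < N := by linarith
  have hT0 : (0 : ℝ) < T := by linarith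
  have hTe : 1 ≤ T ^ ε := Real.one_le_rpow hT hε.le
  have hV2 : 0 < V ^ 2 := by positivity
  set Q : ℝ := (N : ℝ) ^ 2 / V ^ 2 with hQ
  have hQ0 : 0 ≤ Q := by positivity
  have hform : (C₂ ^ 2 + 2 * C₁ + 2 * E) * (N : ℝ) ^ 2 / V ^ 2 * T ^ ε =
      (C₂ ^ 2 + 2 * C₁ + 2 * E) * (Q * T ^ ε) := by
    rw [hQ]
    ring
  rw [hform]
  rcases S.eq_empty_or_nonempty with rfl | ⟨t₀, ht₀⟩
  · rw [card_empty, Nat.cast_zero]
    positivity
  have hVN : V ≤ N := by
    refine (hS t₀ ht₀).2.2.trans ?_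
    rw [norm_D]
    calc ‖∑ n ∈ Icc 1 N, (starRingEnd ℂ) (a n) * phr n t₀‖ ≤
          ∑ n ∈ Icc 1 N, ‖(starRingEnd ℂ) (a n) * phr n t₀‖ := norm_sum_le _ _
      _ ≤ ∑ n ∈ Icc 1 N, (1 : ℝ) := sum_le_sum fun n _ => by
          rw [norm_mul, norm_phr, mul_one, Complex.norm_conj]
          exact ha n
      _ = N := by simp
  have hQ1 : 1 ≤ Q := by
    rw [hQ, one_le_div hV2]
    exact pow_le_pow_left₀ hV.le hVN 2
  have hQT1 : 1 ≤ Q * T ^ ε := by nlinarith
  have hTN : T ^ ε ≤ N := by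
    have h3 : V ^ 2 ≤ (N : ℝ) ^ 2 := pow_le_pow_left₀ hV.le hVN 2
    have h4 : (N : ℝ) * T ^ ε ≤ N * N := by
      rw [← pow_two]
      linarith
    exact le_of_mul_le_mul_left h4 hN0
  have hR0 : (0 : ℝ) ≤ S.card := Nat.cast_nonneg _
  have hSum : (S.card : ℝ) * V ≤
      ∑ t ∈ S, ‖∑ n ∈ Icc 1 N, a n * (n : ℂ) ^ (-((t : ℂ) * Complex.I))‖ := by
    rw [← nsmul_eq_mul]
    exact card_nsmul_le_sum _ _ _ fun t ht => (hS t ht).2.2
  rcases le_or_gt T N with hTle | hTgt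
  · have h3 := h2 N hN a ha S (fun t ht => ⟨(hS t ht).1, (hS t ht).2.1.trans hTle⟩) hsep
    have h4 := hSum.trans h3
    set s : ℝ := Real.sqrt S.card with hs
    have hss : (S.card : ℝ) = s * s := (Real.mul_self_sqrt hR0).symm
    have hs0 : 0 ≤ s := Real.sqrt_nonneg _
    have h5 : s * V ≤ C₂ * N := by
      rcases eq_or_lt_of_le hs0 with h0 | h0
      · rw [← h0, zero_mul]
        positivity
      · apply le_of_mul_le_mul_left _ h0
        calc s * (s * V) = (S.card : ℝ) * V := by rw [hss]; ring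
          _ ≤ _ := h4
          _ = s * (C₂ * N) := by ring
    have h6 : (S.card : ℝ) ≤ C₂ ^ 2 * Q := by
      rw [hQ, ← mul_div_assoc, le_div_iff₀ hV2, hss]
      calc s * s * V ^ 2 = (s * V) ^ 2 := by ring
        _ ≤ (C₂ * N) ^ 2 := pow_le_pow_left₀ (mul_nonneg hs0 hV.le) h5 2
        _ = _ := by ring
    calc (S.card : ℝ) ≤ C₂ ^ 2 * Q := h6
      _ ≤ C₂ ^ 2 * (Q * T ^ ε) := by
          apply mul_le_mul_of_nonneg_left _ (by positivity)
          nlinarith
      _ ≤ _ := by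
          have : 0 ≤ (2 * C₁ + 2 * E) * (Q * T ^ ε) := by positivity
          linarith
  · -- `T > N`
    have hTN' : T ≤ (N : ℝ) ^ (1 / ε) := by
      calc T = (T ^ ε) ^ (1 / ε) := by
            rw [← Real.rpow_mul hT0.le, mul_one_div_cancel hε.ne', Real.rpow_one]
        _ ≤ _ := Real.rpow_le_rpow (by positivity) hTN (by positivity)
    have hTA : T ≤ (N : ℝ) ^ A := by
      refine hTN'.trans ?_
      rw [← Real.rpow_natCast]
      exact Real.rpow_le_rpow_of_exponent_le hN1 hAe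
    by_cases hbig : 2 * C₁ ≤ (N : ℝ) ^ (ε / 2)
    · have h3 := h1 N hN T hTA (fun n => (starRingEnd ℂ) (a n)) (fun n => by
        rw [Complex.norm_conj]
        exact ha n) S (fun t ht => ⟨(hS t ht).1, (hS t ht).2.1⟩) hsep
      have h4 : (S.card : ℝ) * V ^ 2 ≤
          ∑ t ∈ S, ‖∑ n ∈ Icc 1 N, (starRingEnd ℂ) (a n) * phr n t‖ ^ 2 := by
        rw [← nsmul_eq_mul]
        exact card_nsmul_le_sum _ _ _ fun t ht => by
          have := (hS t ht).2.2
          rw [norm_D] at this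
          exact pow_le_pow_left₀ hV.le this 2
      have h5 : C₁ * (N : ℝ) ^ (ε / 2) * N ≤ V ^ 2 / 2 := by
        have e1 : (N : ℝ) ^ (ε / 2) * (N : ℝ) ^ (ε / 2) = (N : ℝ) ^ ε := by
          rw [← Real.rpow_add hN0]
          congr 1
          ring
        have e2 : (N : ℝ) ^ ε ≤ T ^ ε := Real.rpow_le_rpow hN0.le hTgt.le hε.le
        have e3 : 0 < (N : ℝ) ^ (ε / 2) := by positivity
        calc C₁ * (N : ℝ) ^ (ε / 2) * N = (2 * C₁) * (N : ℝ) ^ (ε / 2) * N / 2 := by ring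
          _ ≤ (N : ℝ) ^ (ε / 2) * (N : ℝ) ^ (ε / 2) * N / 2 := by gcongr
          _ = (N : ℝ) * (N : ℝ) ^ ε / 2 := by
              rw [e1]
              ring
          _ ≤ (N : ℝ) * T ^ ε / 2 := by gcongr
          _ ≤ V ^ 2 / 2 := by linarith
      have h6 : (S.card : ℝ) * V ^ 2 ≤ 2 * C₁ * (N : ℝ) ^ (ε / 2) * N ^ 2 := by
        have e4 : C₁ * (N : ℝ) ^ (ε / 2) * ((N : ℝ) + S.card) * N =
            C₁ * (N : ℝ) ^ (ε / 2) * N ^ 2 + (C₁ * (N : ℝ) ^ (ε / 2) * N) * S.card := by ring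
        have e5 : (C₁ * (N : ℝ) ^ (ε / 2) * N) * S.card ≤ V ^ 2 / 2 * S.card :=
          mul_le_mul_of_nonneg_right h5 hR0
        have e6 := h4.trans h3
        rw [e4] at e6
        linarith
      have h7 : (N : ℝ) ^ (ε / 2) ≤ T ^ ε :=
        (Real.rpow_le_rpow_of_exponent_le hN1 (by linarith)).trans
          (Real.rpow_le_rpow hN0.le hTgt.le hε.le)
      have h8 : (S.card : ℝ) ≤ 2 * C₁ * (Q * T ^ ε) := by
        have e7 : 2 * C₁ * (Q * T ^ ε) = (2 * C₁ * T ^ ε * N ^ 2) / V ^ 2 := by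
          rw [hQ]
          ring
        rw [e7, le_div_iff₀ hV2]
        refine h6.trans ?_
        gcongr
      have : 0 ≤ (C₂ ^ 2 + 2 * E) * (Q * T ^ ε) := by positivity
      linarith
    · have h3 := card_le_length T hT S (fun t ht => ⟨(hS t ht).1, (hS t ht).2.1⟩) hsep
      have h4 : (N : ℝ) ≤ (2 * C₁) ^ (2 / ε) := by
        calc (N : ℝ) = ((N : ℝ) ^ (ε / 2)) ^ (2 / ε) := by
              rw [← Real.rpow_mul hN0.le]
              have : ε / 2 * (2 / ε) = 1 := by field_simp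
              rw [this, Real.rpow_one]
          _ ≤ _ := Real.rpow_le_rpow (by positivity) (not_le.1 hbig).le (by positivity)
      have h5 : T ≤ E := hTN'.trans (Real.rpow_le_rpow hN0.le h4 (by positivity))
      have h6 : (S.card : ℝ) ≤ 2 * E * (Q * T ^ ε) := by
        calc (S.card : ℝ) ≤ 2 * E := by linarith
          _ = 2 * E * 1 := by ring
          _ ≤ _ := mul_le_mul_of_nonneg_left hQT1 (by positivity)
      have : 0 ≤ (C₂ ^ 2 + 2 * C₁) * (Q * T ^ ε) := by positivity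
      linarith

theorem ws_main : (WellSpaced ↔ BilinearAllRanges) ∧ (WellSpaced ↔ MeanValueAllRanges) :=
  ⟨⟨wellSpaced_imp, bilinearAll_imp⟩, ⟨fun h => bilinearAll_iff.1 (wellSpaced_imp h),
    fun h => bilinearAll_imp (bilinearAll_iff.2 h)⟩⟩

end Pool.Agent.X159.MB
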