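import Mathlib

/-!
Sums of absolute values bounded by the sums over subsets; bilinear sums over sets.
-/

set_option autoImplicit false

namespace Pool.Agent.X159.MB

open Finset

/-- The sum of the absolute values is at most four times the largest sum over a subset. -/
theorem sum_norm_le {ι : Type*} [DecidableEq ι] (I : Finset ι) (z : ι → ℂ) (M : ℝ)
    (h : ∀ J ⊆ I, ‖∑ i ∈ J, z i‖ ≤ M) : ∑ i ∈ I, ‖z i‖ ≤ 4 * M := by
  have key : ∀ (x : ι → ℝ), (∀ J ⊆ I, |∑ i ∈ J, x i| ≤ M) → ∑ i ∈ I, |x i| ≤ 2 * M := by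
    intro x hx
    have h1 := hx (I.filter (fun i => 0 ≤ x i)) (filter_subset _ _)
    have h2 := hx (I.filter (fun i => ¬ 0 ≤ x i)) (filter_subset _ _)
    rw [← sum_filter_add_sum_filter_not I (fun i => 0 ≤ x i)]
    have e1 : ∑ i ∈ I.filter (fun i => 0 ≤ x i), |x i| =
        ∑ i ∈ I.filter (fun i => 0 ≤ x i), x i :=
      sum_congr rfl fun i hi => abs_of_nonneg (mem_filter.1 hi).2
    have e2 : ∑ i ∈ I.filter (fun i => ¬ 0 ≤ x i), |x i| =
        - ∑ i ∈ I.filter (fun i => ¬ 0 ≤ x i), x i := by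
      rw [← sum_neg_distrib]
      exact sum_congr rfl fun i hi => abs_of_neg (not_le.1 (mem_filter.1 hi).2)
    rw [e1, e2]
    have h3 := (abs_le.1 h1).2
    have h4 := (abs_le.1 h2).1
    linarith
  have hre := key (fun i => (z i).re) fun J hJ => by
    rw [← Complex.re_sum]
    exact (Complex.abs_re_le_norm _).trans (h J hJ)
  have him := key (fun i => (z i).im) fun J hJ => by
    rw [← Complex.im_sum]
    exact (Complex.abs_im_le_norm _).trans (h J hJ)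
  calc ∑ i ∈ I, ‖z i‖ ≤ ∑ i ∈ I, (|(z i).re| + |(z i).im|) :=
        sum_le_sum fun i _ => Complex.norm_le_abs_re_add_abs_im _
    _ = ∑ i ∈ I, |(z i).re| + ∑ i ∈ I, |(z i).im| := sum_add_distrib
    _ ≤ 4 * M := by linarith

/-- If all the bilinear sums over subsets are at most `M`, the mean values of all the polynomials
with coefficients bounded by `1` are at most `16 M`. -/
theorem sum_norm_poly_le {ι κ : Type*} [DecidableEq ι] [DecidableEq κ] (I : Finset ι)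
    (W : Finset κ) (e : ι → κ → ℂ) (M : ℝ)
    (h : ∀ A ⊆ I, ∀ V ⊆ W, ‖∑ i ∈ A, ∑ t ∈ V, e i t‖ ≤ M)
    (b : ι → ℂ) (hb : ∀ i, ‖b i‖ ≤ 1) :
    ∑ t ∈ W, ‖∑ i ∈ I, b i * e i t‖ ≤ 16 * M := by
  have h1 : ∀ V ⊆ W, ‖∑ t ∈ V, ∑ i ∈ I, b i * e i t‖ ≤ 4 * M := by
    intro V hV
    rw [sum_comm]
    calc ‖∑ i ∈ I, ∑ t ∈ V, b i * e i t‖ ≤ ∑ i ∈ I, ‖∑ t ∈ V, b i * e i t‖ := norm_sum_le _ _
      _ ≤ ∑ i ∈ I, ‖∑ t ∈ V, e i t‖ := by
        refine sum_le_sum fun i _ => ?_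
        rw [← mul_sum, norm_mul]
        calc ‖b i‖ * ‖∑ t ∈ V, e i t‖ ≤ 1 * ‖∑ t ∈ V, e i t‖ :=
              mul_le_mul_of_nonneg_right (hb i) (norm_nonneg _)
          _ = _ := one_mul _
      _ ≤ 4 * M := sum_norm_le I _ M fun A hA => h A hA V hV
  have h2 := sum_norm_le W (fun t => ∑ i ∈ I, b i * e i t) (4 * M) h1
  linarith

end Pool.Agent.X159.MB
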