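import Pool.Agent.X159.MB.LQ

/-!
Montgomery's conjecture in the second moment form: real well spaced points, integers, sets.
-/

set_option autoImplicit false

namespace Pool.Agent.X159.MB

open Finset

/-- `n^{it}` for real `t` -/
noncomputable def phr (n : ℕ) (t : ℝ) : ℂ :=
  Complex.exp (Complex.I * (t : ℂ) * (Real.log (n : ℝ) : ℂ))

theorem norm_phr (n : ℕ) (t : ℝ) : ‖phr n t‖ = 1 := by
  unfold phr
  have : Complex.I * (t : ℂ) * (Real.log (n : ℝ) : ℂ) =
      ((t * Real.log (n : ℝ) : ℝ) : ℂ) * Complex.I := by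
    push_cast
    ring
  rw [this]
  exact Complex.norm_exp_ofReal_mul_I _

theorem phr_natCast (n t : ℕ) : phr n (t : ℝ) = phn n t := by
  unfold phr phn
  push_cast
  rfl

theorem phr_add (n : ℕ) (s t : ℝ) : phr n (s + t) = phr n s * phr n t := by
  unfold phr
  rw [← Complex.exp_add]
  congr 1
  push_cast
  ring

/-- Q1 -/
def MontgomeryL2 : Prop :=
  ∀ ε : ℝ, 0 < ε → ∃ C : ℝ, 0 < C ∧
    ∀ N : ℕ, 1 ≤ N → ∀ T : ℝ, T ≤ (N : ℝ) ^ 2 →
      ∀ a : ℕ → ℂ, (∀ n, ‖a n‖ ≤ 1) →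
        ∀ S : Finset ℝ, (∀ t ∈ S, 0 ≤ t ∧ t ≤ T) →
          (∀ t ∈ S, ∀ u ∈ S, t ≠ u → 1 ≤ |t - u|) →
            ∑ t ∈ S, ‖∑ n ∈ Icc 1 N, a n * phr n t‖ ^ 2
              ≤ C * (N : ℝ) ^ ε * ((N : ℝ) + (S.card : ℝ)) * (N : ℝ)

/-- The bilinear estimate for a set `S` of integers in `[1, N]` and a set `W` of at most `N`
integers in `[0, N²]`. -/
def BilinearIntegers : Prop :=
  ∀ ε : ℝ, 0 < ε → ∃ C : ℝ, ∀ N : ℕ, 1 ≤ N → ∀ S ⊆ Icc 1 N,
    ∀ W : Finset ℕ, W.card ≤ N → (∀ t ∈ W, t ≤ N ^ 2) →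
      ‖∑ n ∈ S, ∑ t ∈ W, phn n t‖ ≤ C * (N : ℝ) ^ (1 + ε) * Real.sqrt W.card

/-- the same for the mean value over `n` -/
def MeanValueIntegers : Prop :=
  ∀ ε : ℝ, 0 < ε → ∃ C : ℝ, ∀ N : ℕ, 1 ≤ N →
    ∀ W : Finset ℕ, W.card ≤ N → (∀ t ∈ W, t ≤ N ^ 2) →
      ∑ n ∈ Icc 1 N, ‖∑ t ∈ W, phn n t‖ ≤ C * (N : ℝ) ^ (1 + ε) * Real.sqrt W.card

theorem bilinearInt_iff : BilinearIntegers ↔ MeanValueIntegers := by
  constructor
  · intro h ε hε
    obtain ⟨C, hC⟩ := h ε hε
    refine ⟨4 * C, fun N hN W hW hT => ?_⟩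
    have := sum_norm_le (Icc 1 N) (fun n => ∑ t ∈ W, phn n t)
      (C * (N : ℝ) ^ (1 + ε) * Real.sqrt W.card) fun S hS => hC N hN S hS W hW hT
    linarith
  · intro h ε hε
    obtain ⟨C, hC⟩ := h ε hε
    refine ⟨C, fun N hN S hS W hW hT => ?_⟩
    calc ‖∑ n ∈ S, ∑ t ∈ W, phn n t‖ ≤ ∑ n ∈ S, ‖∑ t ∈ W, phn n t‖ := norm_sum_le _ _
      _ ≤ ∑ n ∈ Icc 1 N, ‖∑ t ∈ W, phn n t‖ :=
        sum_le_sum_of_subset_of_nonneg hS fun _ _ _ => norm_nonneg _
      _ ≤ _ := hC N hN W hW hT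

theorem l2_imp : MontgomeryL2 → BilinearIntegers := by
  intro h ε hε
  obtain ⟨C, hC0, hC⟩ := h (2 * ε) (by positivity)
  refine ⟨Real.sqrt (2 * C), ?_⟩
  intro N hN S hS W hW hT
  have hN1 : (1 : ℝ) ≤ N := by exact_mod_cast hN
  have hN0 : (0 : ℝ) < N := by linarith
  set b : ℕ → ℂ := fun n => if n ∈ S then 1 else 0 with hb
  have hDS : ∀ t : ℕ, ∑ n ∈ Icc 1 N, b n * phr n (t : ℝ) = ∑ n ∈ S, phn n t := by
    intro t
    simp only [hb, ite_mul, one_mul, zero_mul, phr_natCast]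
    rw [sum_ite_mem, inter_eq_right.2 hS]
  have hinj : Function.Injective (fun t : ℕ => (t : ℝ)) := Nat.cast_injective
  have h1 := hC N hN ((N : ℝ) ^ 2) le_rfl b (fun n => by
    simp only [hb]
    split_ifs <;> simp) (W.map ⟨fun t : ℕ => (t : ℝ), hinj⟩) (by
      intro t ht
      rw [mem_map] at ht
      obtain ⟨m, hm, rfl⟩ := ht
      have h0 := hT m hm
      simp only [Function.Embedding.coeFn_mk]
      refine ⟨Nat.cast_nonneg m, ?_⟩
      exact_mod_cast h0) (by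
      intro t ht u hu htu
      rw [mem_map] at ht hu
      obtain ⟨m, hm, rfl⟩ := ht
      obtain ⟨l, hl, rfl⟩ := hu
      simp only [Function.Embedding.coeFn_mk] at htu ⊢
      have hml : (m : ℤ) - l ≠ 0 := by
        intro h0
        apply htu
        have : (m : ℤ) = l := by omega
        have : m = l := by exact_mod_cast this
        rw [this]
      have := Int.one_le_abs hml
      exact_mod_cast this)
  rw [sum_map, card_map] at h1
  simp only [Function.Embedding.coeFn_mk, hDS] at h1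
  have hR0 : (0 : ℝ) ≤ W.card := Nat.cast_nonneg _
  have hRN : (W.card : ℝ) ≤ N := by exact_mod_cast hW
  have h2 : ∑ t ∈ W, ‖∑ n ∈ S, phn n t‖ ≤ Real.sqrt W.card *
      Real.sqrt (∑ t ∈ W, ‖∑ n ∈ S, phn n t‖ ^ 2) := by
    have := Real.sum_mul_le_sqrt_mul_sqrt W (fun _ => (1 : ℝ)) (fun t => ‖∑ n ∈ S, phn n t‖)
    simpa using this
  have h3 : Real.sqrt (∑ t ∈ W, ‖∑ n ∈ S, phn n t‖ ^ 2) ≤
      Real.sqrt (2 * C) * (N : ℝ) ^ (1 + ε) := by
    have h4 : ∑ t ∈ W, ‖∑ n ∈ S, phn n t‖ ^ 2 ≤ (2 * C) * ((N : ℝ) ^ (1 + ε)) ^ 2 := by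
      have e1 : ((N : ℝ) ^ (1 + ε)) ^ 2 = (N : ℝ) ^ (2 * ε) * (N * N) := by
        rw [← Real.rpow_natCast, ← Real.rpow_mul hN0.le]
        have : (1 + ε) * ((2 : ℕ) : ℝ) = 2 * ε + (1 + 1) := by push_cast; ring
        rw [this, Real.rpow_add hN0, Real.rpow_add hN0, Real.rpow_one]
      rw [e1]
      refine h1.trans ?_
      have e2 : 0 ≤ C * (N : ℝ) ^ (2 * ε) := by positivity
      nlinarith [mul_nonneg e2 hN0.le, mul_le_mul_of_nonneg_left hRN (mul_nonneg e2 hN0.le)]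
    calc Real.sqrt (∑ t ∈ W, ‖∑ n ∈ S, phn n t‖ ^ 2) ≤
          Real.sqrt ((2 * C) * ((N : ℝ) ^ (1 + ε)) ^ 2) := Real.sqrt_le_sqrt h4
      _ = _ := by
          rw [Real.sqrt_mul (by positivity), Real.sqrt_sq (by positivity)]
  calc ‖∑ n ∈ S, ∑ t ∈ W, phn n t‖ = ‖∑ t ∈ W, ∑ n ∈ S, phn n t‖ := by rw [sum_comm]
    _ ≤ ∑ t ∈ W, ‖∑ n ∈ S, phn n t‖ := norm_sum_le _ _
    _ ≤ Real.sqrt W.card * Real.sqrt (∑ t ∈ W, ‖∑ n ∈ S, phn n t‖ ^ 2) := h2
    _ ≤ Real.sqrt W.card * (Real.sqrt (2 * C) * (N : ℝ) ^ (1 + ε)) :=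
        mul_le_mul_of_nonneg_left h3 (Real.sqrt_nonneg _)
    _ = _ := by ring

/-- subdivision of a set into pieces with at most `N` elements -/
theorem sum_le_pieces {ι : Type*} [DecidableEq ι] (N : ℕ) (hN : 1 ≤ N) (f : ι → ℝ)
    (K : ℝ) (W : Finset ι) (h : ∀ V ⊆ W, V.card ≤ N → ∑ t ∈ V, f t ≤ K) (hK : 0 ≤ K) :
    ∑ t ∈ W, f t ≤ K * ((W.card : ℝ) / N + 1) := by
  have hN0 : (0 : ℝ) < N := by exact_mod_cast hN
  induction W using Finset.strongInduction with
  | H W ih =>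
    rcases Nat.lt_or_ge N W.card with hc | hc
    · obtain ⟨V, hV, hVc⟩ := exists_subset_card_eq hc.le
      have h1 := h V hV hVc.le
      have hss : W \ V ⊂ W := by
        refine ⟨sdiff_subset, fun hsub => ?_⟩
        have hVne : V.Nonempty := by
          rw [← card_pos, hVc]
          omega
        obtain ⟨x, hx⟩ := hVne
        exact (mem_sdiff.1 (hsub (hV hx))).2 hx
      have h2 := ih (W \ V) hss fun U hU hUc => h U (hU.trans sdiff_subset) hUc
      have h3 : ((W \ V).card : ℝ) = W.card - N := by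
        rw [card_sdiff_of_subset hV, hVc, Nat.cast_sub hc.le]
      rw [← sum_sdiff hV]
      rw [h3] at h2
      calc ∑ t ∈ W \ V, f t + ∑ t ∈ V, f t ≤ K * ((W.card - N) / N + 1) + K := add_le_add h2 h1
        _ = K * ((W.card : ℝ) / N + 1) := by
            field_simp
            ring
    · have h1 := h W (Subset.refl _) hc
      have h2 : 0 ≤ (W.card : ℝ) / N := by positivity
      nlinarith

/-- the `ℓ¹` bound for sets of integers of any size -/
theorem l1_integers (C : ℝ) (hC : 0 ≤ C) (N : ℕ) (hN : 1 ≤ N) (ε : ℝ)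
    (h : ∀ S ⊆ Icc 1 N, ∀ W : Finset ℕ, W.card ≤ N → (∀ t ∈ W, t ≤ N ^ 2) →
      ‖∑ n ∈ S, ∑ t ∈ W, phn n t‖ ≤ C * (N : ℝ) ^ (1 + ε) * Real.sqrt W.card)
    (b : ℕ → ℂ) (hb : ∀ n, ‖b n‖ ≤ 1) (W : Finset ℕ) (hW : ∀ t ∈ W, t ≤ N ^ 2) :
    ∑ t ∈ W, ‖∑ n ∈ Icc 1 N, b n * phn n t‖ ≤
      32 * C * (N : ℝ) ^ ε * (N * Real.sqrt W.card + W.card * Real.sqrt N) := by
  have hN1 : (1 : ℝ) ≤ N := by exact_mod_cast hN
  have hN0 : (0 : ℝ) < N := by linarith
  have hsmall : ∀ V ⊆ W, V.card ≤ N → ∑ t ∈ V, ‖∑ n ∈ Icc 1 N, b n * phn n t‖ ≤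
      16 * (C * (N : ℝ) ^ (1 + ε) * Real.sqrt V.card) := by
    intro V hV hVN
    apply sum_norm_poly_le (Icc 1 N) V phn _ _ b hb
    intro S hS U hU
    have hUc : U.card ≤ V.card := card_le_card hU
    refine (h S hS U (hUc.trans hVN) fun t ht => hW t (hV (hU ht))).trans ?_
    have : Real.sqrt U.card ≤ Real.sqrt V.card := Real.sqrt_le_sqrt (by exact_mod_cast hUc)
    gcongr
  have hpow : (N : ℝ) ^ (1 + ε) = N * (N : ℝ) ^ ε := by
    rw [Real.rpow_add hN0, Real.rpow_one]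
  have hNe : 0 ≤ (N : ℝ) ^ ε := by positivity
  have hR0 : (0 : ℝ) ≤ W.card := Nat.cast_nonneg _
  rcases Nat.lt_or_ge N W.card with hc | hc
  · have h1 := sum_le_pieces N hN (fun t => ‖∑ n ∈ Icc 1 N, b n * phn n t‖)
      (16 * (C * (N : ℝ) ^ (1 + ε) * Real.sqrt N)) W (fun V hV hVc => by
        refine (hsmall V hV hVc).trans ?_
        have : Real.sqrt V.card ≤ Real.sqrt N := Real.sqrt_le_sqrt (by exact_mod_cast hVc)
        gcongr) (by positivity)
    refine h1.trans ?_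
    have hc' : (N : ℝ) ≤ W.card := by exact_mod_cast hc.le
    have h2 : (W.card : ℝ) / N + 1 ≤ 2 * (W.card / N) := by
      have : 1 ≤ (W.card : ℝ) / N := by rwa [one_le_div hN0]
      linarith
    calc 16 * (C * (N : ℝ) ^ (1 + ε) * Real.sqrt N) * ((W.card : ℝ) / N + 1) ≤
          16 * (C * (N : ℝ) ^ (1 + ε) * Real.sqrt N) * (2 * (W.card / N)) :=
          mul_le_mul_of_nonneg_left h2 (by positivity)
      _ = 32 * C * (N : ℝ) ^ ε * (W.card * Real.sqrt N) := by
          rw [hpow]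
          field_simp
          ring
      _ ≤ _ := by
          apply mul_le_mul_of_nonneg_left _ (by positivity)
          have : 0 ≤ N * Real.sqrt W.card := by positivity
          linarith
  · refine (hsmall W (Subset.refl _) hc).trans ?_
    rw [hpow]
    have h3 : 0 ≤ 16 * C * (N : ℝ) ^ ε * (N * Real.sqrt W.card) := by positivity
    have h4 : 0 ≤ 32 * C * (N : ℝ) ^ ε * (W.card * Real.sqrt N) := by positivity
    nlinarith

/-- Sobolev's inequality on the unit interval. -/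
theorem sobolev (F F' : ℝ → ℂ) (hF : ∀ x, HasDerivAt F (F' x) x) (hF' : Continuous F')
    (x : ℝ) (hx0 : 0 ≤ x) (hx1 : x ≤ 1) :
    ‖F x‖ ≤ (∫ θ in (0 : ℝ)..1, ‖F θ‖) + ∫ θ in (0 : ℝ)..1, ‖F' θ‖ := by
  have hFc : Continuous F := continuous_iff_continuousAt.2 fun y => (hF y).continuousAt
  set I : ℝ := ∫ θ in (0 : ℝ)..1, ‖F' θ‖ with hI
  have h1 : ∀ θ ∈ Set.Icc (0 : ℝ) 1, ‖F x‖ ≤ ‖F θ‖ + I := by
    intro θ hθ
    have h2 : ∫ y in θ..x, F' y = F x - F θ :=
      intervalIntegral.integral_eq_sub_of_hasDerivAt (fun y _ => hF y)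
        (hF'.intervalIntegrable _ _)
    have h3 : ‖F x - F θ‖ ≤ I := by
      rw [← h2, hI]
      calc ‖∫ y in θ..x, F' y‖ ≤ |∫ y in θ..x, ‖F' y‖| :=
            intervalIntegral.norm_integral_le_abs_integral_norm
        _ ≤ |∫ y in (0 : ℝ)..1, ‖F' y‖| := by
            apply intervalIntegral.abs_integral_mono_interval
            · intro y hy
              rw [Set.mem_uIoc] at hy ⊢
              rcases hy with hy | hy
              · exact Or.inl ⟨lt_of_le_of_lt hθ.1 hy.1, hy.2.trans hx1⟩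
              · exact Or.inl ⟨lt_of_le_of_lt hx0 hy.1, hy.2.trans hθ.2⟩
            · exact Filter.Eventually.of_forall fun y => norm_nonneg _
            · exact hF'.norm.intervalIntegrable _ _
        _ = _ := abs_of_nonneg (intervalIntegral.integral_nonneg (by norm_num)
            fun y _ => norm_nonneg _)
    calc ‖F x‖ = ‖F θ + (F x - F θ)‖ := by ring_nf
      _ ≤ ‖F θ‖ + ‖F x - F θ‖ := norm_add_le _ _
      _ ≤ _ := by linarith
  have h4 : ∫ _θ in (0 : ℝ)..1, ‖F x‖ ≤ ∫ θ in (0 : ℝ)..1, (‖F θ‖ + I) :=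
    intervalIntegral.integral_mono_on (by norm_num) (continuous_const.intervalIntegrable _ _)
      ((hFc.norm.add continuous_const).intervalIntegrable _ _) h1
  rw [intervalIntegral.integral_add (hFc.norm.intervalIntegrable _ _)
    (continuous_const.intervalIntegrable _ _)] at h4
  simpa using h4

theorem hasDerivAt_phr (n : ℕ) (t : ℝ) :
    HasDerivAt (fun s : ℝ => phr n s) (Complex.I * (Real.log n : ℂ) * phr n t) t := by
  unfold phr
  have h1 : HasDerivAt (fun s : ℝ => Complex.I * (s : ℂ) * (Real.log (n : ℝ) : ℂ))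
      (Complex.I * 1 * (Real.log (n : ℝ) : ℂ)) t :=
    ((Complex.ofRealCLM.hasDerivAt (x := t)).const_mul Complex.I).mul_const _
  have h2 := h1.cexp
  convert h2 using 1
  ring

theorem continuous_phr (n : ℕ) : Continuous fun s : ℝ => phr n s :=
  continuous_iff_continuousAt.2 fun t => (hasDerivAt_phr n t).continuousAt

/-- the `ℓ¹` bound for real well spaced points -/
theorem l1_real (N : ℕ) (hN : 1 ≤ N) (B : ℝ) (W : Finset ℕ)
    (hB : ∀ b : ℕ → ℂ, (∀ n, ‖b n‖ ≤ 1) →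
      ∑ m ∈ W, ‖∑ n ∈ Icc 1 N, b n * phn n m‖ ≤ B)
    (x : ℕ → ℝ) (hx : ∀ m ∈ W, 0 ≤ x m ∧ x m ≤ 1) (b : ℕ → ℂ) (hb : ∀ n, ‖b n‖ ≤ 1) :
    ∑ m ∈ W, ‖∑ n ∈ Icc 1 N, b n * phr n (m + x m)‖ ≤ (2 + Real.log N) * B := by
  have hN1 : (1 : ℝ) ≤ N := by exact_mod_cast hN
  set L : ℝ := 1 + Real.log N with hL
  have hlog : 0 ≤ Real.log N := Real.log_nonneg hN1
  have hL0 : 0 < L := by positivity
  set F : ℕ → ℝ → ℂ := fun m θ => ∑ n ∈ Icc 1 N, b n * phr n (m + θ) with hF
  set F' : ℕ → ℝ → ℂ := fun m θ =>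
    ∑ n ∈ Icc 1 N, b n * (Complex.I * (Real.log n : ℂ) * phr n (m + θ)) with hF'
  have hder : ∀ m θ, HasDerivAt (F m) (F' m θ) θ := by
    intro m θ
    simp only [hF, hF']
    apply HasDerivAt.fun_sum
    intro n _
    apply HasDerivAt.const_mul
    have := (hasDerivAt_phr n (m + θ)).comp_const_add (m : ℝ) θ
    exact this
  have hcF : ∀ m, Continuous (F m) := fun m =>
    continuous_iff_continuousAt.2 fun y => (hder m y).continuousAt
  have hcF' : ∀ m, Continuous (F' m) := by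
    intro m
    simp only [hF']
    refine continuous_finsetSum _ fun n _ => ?_
    refine continuous_const.mul (continuous_const.mul ?_)
    exact (continuous_phr n).comp (continuous_const.add continuous_id)
  have hFB : ∀ θ : ℝ, ∑ m ∈ W, ‖F m θ‖ ≤ B := by
    intro θ
    refine le_trans (le_of_eq ?_) (hB (fun n => b n * phr n θ) fun n => by
      rw [norm_mul, norm_phr, mul_one]
      exact hb n)
    apply sum_congr rfl
    intro m _
    simp only [hF]
    congr 1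
    apply sum_congr rfl
    intro n _
    rw [phr_add, phr_natCast]
    ring
  have hFB' : ∀ θ : ℝ, ∑ m ∈ W, ‖F' m θ‖ ≤ L * B := by
    intro θ
    have h1 := hB (fun n => if n ∈ Icc 1 N then
      b n * phr n θ * (Complex.I * ((Real.log n / L : ℝ) : ℂ)) else 0) (fun n => by
        split_ifs with hn
        · rw [mem_Icc] at hn
          have hn1 : (1 : ℝ) ≤ n := by exact_mod_cast hn.1
          have hnN : (n : ℝ) ≤ N := by exact_mod_cast hn.2
          have h2 : Real.log n ≤ L := by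
            have := Real.log_le_log (by linarith) hnN
            linarith
          have h3 : 0 ≤ Real.log n := Real.log_nonneg hn1
          rw [norm_mul, norm_mul, norm_mul, norm_phr, Complex.norm_I, Complex.norm_real,
            Real.norm_of_nonneg (div_nonneg h3 hL0.le), mul_one, one_mul]
          have h4 : Real.log n / L ≤ 1 := by rwa [div_le_one hL0]
          have h5 : 0 ≤ Real.log n / L := div_nonneg h3 hL0.le
          calc ‖b n‖ * (Real.log n / L) ≤ 1 * 1 :=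
                mul_le_mul (hb n) h4 h5 zero_le_one
            _ = 1 := one_mul 1
        · simp)
    have h2 : ∑ m ∈ W, ‖F' m θ‖ = L * ∑ m ∈ W, ‖∑ n ∈ Icc 1 N, (if n ∈ Icc 1 N then
      b n * phr n θ * (Complex.I * ((Real.log n / L : ℝ) : ℂ)) else 0) * phn n m‖ := by
      rw [mul_sum]
      apply sum_congr rfl
      intro m _
      have hZ : F' m θ = (L : ℂ) * ∑ n ∈ Icc 1 N, (if n ∈ Icc 1 N then
          b n * phr n θ * (Complex.I * ((Real.log n / L : ℝ) : ℂ)) else 0) * phn n m := by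
        rw [mul_sum]
        simp only [hF']
        apply sum_congr rfl
        intro n hn
        rw [if_pos hn, phr_add, phr_natCast]
        have : (L : ℂ) ≠ 0 := by exact_mod_cast hL0.ne'
        push_cast
        field_simp
      rw [hZ, norm_mul, Complex.norm_real, Real.norm_of_nonneg hL0.le]
    rw [h2]
    exact mul_le_mul_of_nonneg_left h1 hL0.le
  calc ∑ m ∈ W, ‖∑ n ∈ Icc 1 N, b n * phr n (m + x m)‖ = ∑ m ∈ W, ‖F m (x m)‖ := rfl
    _ ≤ ∑ m ∈ W, ((∫ θ in (0 : ℝ)..1, ‖F m θ‖) + ∫ θ in (0 : ℝ)..1, ‖F' m θ‖) :=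
        sum_le_sum fun m hm => sobolev (F m) (F' m) (hder m) (hcF' m) (x m) (hx m hm).1 (hx m hm).2
    _ = (∫ θ in (0 : ℝ)..1, ∑ m ∈ W, ‖F m θ‖) + ∫ θ in (0 : ℝ)..1, ∑ m ∈ W, ‖F' m θ‖ := by
        rw [sum_add_distrib, intervalIntegral.integral_finsetSum,
          intervalIntegral.integral_finsetSum]
        · intro m _
          exact (hcF' m).norm.intervalIntegrable _ _
        · intro m _
          exact (hcF m).norm.intervalIntegrable _ _
    _ ≤ (∫ _θ in (0 : ℝ)..1, B) + ∫ _θ in (0 : ℝ)..1, L * B := by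
        apply add_le_add
        · apply intervalIntegral.integral_mono_on (by norm_num)
          · exact (continuous_finsetSum _ fun m _ => (hcF m).norm).intervalIntegrable _ _
          · exact continuous_const.intervalIntegrable _ _
          · exact fun θ _ => hFB θ
        · apply intervalIntegral.integral_mono_on (by norm_num)
          · exact (continuous_finsetSum _ fun m _ => (hcF' m).norm).intervalIntegrable _ _
          · exact continuous_const.intervalIntegrable _ _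
          · exact fun θ _ => hFB' θ
    _ = (2 + Real.log N) * B := by
        simp only [intervalIntegral.integral_const, sub_zero, one_smul, hL]
        ring

theorem bilinearInt_imp : BilinearIntegers → MontgomeryL2 := by
  intro h ε hε
  set δ : ℝ := ε / 8 with hδ
  have hδ0 : 0 < δ := by positivity
  obtain ⟨C₀, hC₀⟩ := h δ hδ0
  set C : ℝ := max C₀ 1 with hC
  have hC1 : 1 ≤ C := le_max_right _ _
  set J : ℕ := ⌈1 / (2 * δ)⌉₊ with hJ
  set K : ℝ := 32 * C * (2 + 1 / δ) with hK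
  have hK1 : 1 ≤ K := by
    have : 0 < 1 / δ := by positivity
    rw [hK]
    nlinarith
  refine ⟨4 * K ^ 2 * (1 + J), by positivity, ?_⟩
  intro N hN T hT a ha S hS hsep
  have hN1 : (1 : ℝ) ≤ N := by exact_mod_cast hN
  have hN0 : (0 : ℝ) < N := by linarith
  set D : ℝ → ℂ := fun t => ∑ n ∈ Icc 1 N, a n * phr n t with hD
  set M : ℝ := K * (N : ℝ) ^ (2 * δ) with hM
  have hNd : (1 : ℝ) ≤ (N : ℝ) ^ (2 * δ) := Real.one_le_rpow hN1 (by positivity)
  have hM1 : 1 ≤ M := by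
    rw [hM]
    nlinarith
  -- the `ℓ¹` bound
  have hl1 : ∀ V ⊆ S, ∑ t ∈ V, ‖D t‖ ≤ M * (N * Real.sqrt V.card + V.card * Real.sqrt N) := by
    intro V hV
    have hinj : Set.InjOn (fun t : ℝ => ⌊t⌋₊) (V : Set ℝ) := by
      intro t ht u hu htu
      by_contra hne
      have h1 := hsep t (hV ht) u (hV hu) hne
      have h2 := Nat.floor_le (hS t (hV ht)).1
      have h3 := Nat.lt_floor_add_one t
      have h4 := Nat.floor_le (hS u (hV hu)).1
      have h5 := Nat.lt_floor_add_one u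
      simp only at htu
      rw [htu] at h2 h3
      have h6 : |t - u| < 1 := by
        rw [abs_lt]
        constructor <;> linarith
      linarith
    set W : Finset ℕ := V.image (fun t : ℝ => ⌊t⌋₊) with hW
    have hWc : W.card = V.card := card_image_of_injOn hinj
    set x : ℕ → ℝ := fun m => if h : ∃ t ∈ V, ⌊t⌋₊ = m then h.choose - m else 0 with hx
    have hxt : ∀ t ∈ V, (⌊t⌋₊ : ℝ) + x ⌊t⌋₊ = t := by
      intro t ht
      have hex : ∃ u ∈ V, ⌊u⌋₊ = ⌊t⌋₊ := ⟨t, ht, rfl⟩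
      have h1 : hex.choose = t := hinj hex.choose_spec.1 ht hex.choose_spec.2
      simp only [hx]
      rw [dif_pos hex, h1]
      ring
    have hWN : ∀ m ∈ W, m ≤ N ^ 2 := by
      intro m hm
      rw [hW, mem_image] at hm
      obtain ⟨t, ht, rfl⟩ := hm
      have h1 : t ≤ ((N ^ 2 : ℕ) : ℝ) := by
        push_cast
        exact (hS t (hV ht)).2.trans hT
      exact Nat.floor_le_of_le h1
    have h1 := l1_real N hN (32 * C * (N : ℝ) ^ δ * (N * Real.sqrt W.card + W.card * Real.sqrt N))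
      W (fun b hb => l1_integers C (by linarith) N hN δ (fun S' hS' W' hW' hT' => by
        refine (hC₀ N hN S' hS' W' hW' hT').trans ?_
        have : C₀ ≤ C := le_max_left _ _
        gcongr) b hb W hWN) x (fun m hm => by
          rw [hW, mem_image] at hm
          obtain ⟨t, ht, rfl⟩ := hm
          have h2 := hxt t ht
          have h3 := Nat.floor_le (hS t (hV ht)).1
          have h4 := Nat.lt_floor_add_one t
          constructor <;> linarith) a ha
    have h2 : ∑ m ∈ W, ‖∑ n ∈ Icc 1 N, a n * phr n (m + x m)‖ = ∑ t ∈ V, ‖D t‖ := by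
      rw [hW, sum_image hinj]
      apply sum_congr rfl
      intro t ht
      rw [hxt t ht]
    rw [h2, hWc] at h1
    refine h1.trans ?_
    have h3 : 2 + Real.log N ≤ (2 + 1 / δ) * (N : ℝ) ^ δ := by
      have h4 : Real.log N ≤ (N : ℝ) ^ δ / δ := Real.log_le_rpow_div hN0.le hδ0
      have h5 : (1 : ℝ) ≤ (N : ℝ) ^ δ := Real.one_le_rpow hN1 hδ0.le
      have h6 : (N : ℝ) ^ δ / δ = 1 / δ * (N : ℝ) ^ δ := by ring
      rw [h6] at h4
      nlinarith
    have h7 : (N : ℝ) ^ (2 * δ) = (N : ℝ) ^ δ * (N : ℝ) ^ δ := by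
      rw [← Real.rpow_add hN0]
      congr 1
      ring
    have h8 : 0 ≤ N * Real.sqrt V.card + V.card * Real.sqrt N := by positivity
    calc (2 + Real.log N) * (32 * C * (N : ℝ) ^ δ * (N * Real.sqrt V.card + V.card * Real.sqrt N))
        ≤ ((2 + 1 / δ) * (N : ℝ) ^ δ) *
          (32 * C * (N : ℝ) ^ δ * (N * Real.sqrt V.card + V.card * Real.sqrt N)) :=
          mul_le_mul_of_nonneg_right h3 (by positivity)
      _ = _ := by
          rw [hM, hK, h7]
          ring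
  -- the level sets
  set v : ℕ → ℝ := fun j => 2 * M * Real.sqrt N * (N : ℝ) ^ ((j : ℝ) * δ) with hv
  have hv0 : ∀ j, 0 < v j := fun j => by
    have : 0 < Real.sqrt (N : ℝ) := Real.sqrt_pos.2 hN0
    simp only [hv]
    positivity
  have hvge : ∀ j, 2 * M * Real.sqrt N ≤ v j := fun j => by
    have h1 : (1 : ℝ) ≤ (N : ℝ) ^ ((j : ℝ) * δ) := Real.one_le_rpow hN1 (by positivity)
    have h2 : 0 ≤ 2 * M * Real.sqrt N := by positivity
    simp only [hv]
    nlinarith
  have hlevelset : ∀ j, ((S.filter (fun t => v j < ‖D t‖)).card : ℝ) * v j ^ 2 ≤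
      4 * M ^ 2 * N ^ 2 := by
    intro j
    set V := S.filter (fun t => v j < ‖D t‖) with hV
    have h1 := hl1 V (filter_subset _ _)
    have h2 : (V.card : ℝ) * v j ≤ ∑ t ∈ V, ‖D t‖ := by
      rw [← nsmul_eq_mul]
      exact card_nsmul_le_sum _ _ _ fun t ht => by
        rw [hV, mem_filter] at ht
        exact ht.2.le
    have hR0 : (0 : ℝ) ≤ V.card := Nat.cast_nonneg _
    set s : ℝ := Real.sqrt V.card with hs
    have hs0 : 0 ≤ s := Real.sqrt_nonneg _
    have hss : (V.card : ℝ) = s * s := (Real.mul_self_sqrt hR0).symm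
    have h3 : s * s * v j ≤ M * (N * s) + s * s * (M * Real.sqrt N) := by
      rw [hss] at h2 h1
      have := h2.trans h1
      linarith
    have h4 : s * s * (M * Real.sqrt N) ≤ s * s * (v j / 2) := by
      apply mul_le_mul_of_nonneg_left _ (mul_nonneg hs0 hs0)
      have := hvge j
      linarith
    have h5 : s * (s * v j) ≤ s * (2 * M * N) := by nlinarith
    have h6 : s * v j ≤ 2 * M * N := by
      rcases eq_or_lt_of_le hs0 with h0 | h0
      · rw [← h0, zero_mul]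
        positivity
      · exact le_of_mul_le_mul_left h5 h0
    rw [hss]
    calc s * s * v j ^ 2 = (s * v j) ^ 2 := by ring
      _ ≤ (2 * M * N) ^ 2 := pow_le_pow_left₀ (mul_nonneg hs0 (hv0 j).le) h6 2
      _ = _ := by ring
  have hDle : ∀ t, ‖D t‖ ≤ v J := by
    intro t
    have h1 : ‖D t‖ ≤ N := by
      calc ‖D t‖ ≤ ∑ n ∈ Icc 1 N, ‖a n * phr n t‖ := norm_sum_le _ _
        _ ≤ ∑ n ∈ Icc 1 N, (1 : ℝ) := sum_le_sum fun n _ => by
            rw [norm_mul, norm_phr, mul_one]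
            exact ha n
        _ = N := by simp
    have h2 : Real.sqrt N * Real.sqrt N ≤ Real.sqrt N * (N : ℝ) ^ ((J : ℝ) * δ) := by
      apply mul_le_mul_of_nonneg_left _ (Real.sqrt_nonneg _)
      rw [Real.sqrt_eq_rpow]
      apply Real.rpow_le_rpow_of_exponent_le hN1
      have h3 : 1 / (2 * δ) ≤ (J : ℝ) := Nat.le_ceil _
      have h4 : 1 / (2 * δ) * δ ≤ (J : ℝ) * δ := mul_le_mul_of_nonneg_right h3 hδ0.le
      have h5 : 1 / (2 * δ) * δ = 1 / 2 := by field_simp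
      linarith
    rw [Real.mul_self_sqrt hN0.le] at h2
    simp only [hv]
    have h6 : 0 ≤ Real.sqrt N * (N : ℝ) ^ ((J : ℝ) * δ) := by positivity
    nlinarith
  have hlevel : ∀ t, ‖D t‖ ^ 2 ≤ v 0 ^ 2 +
      ∑ j ∈ range J, (if v j < ‖D t‖ then v (j + 1) ^ 2 else 0) := by
    intro t
    have h1 := level_le (‖D t‖ ^ 2) (fun j => v j ^ 2) (fun j => by positivity) J
      (pow_le_pow_left₀ (norm_nonneg _) (hDle t) 2)
    refine h1.trans (add_le_add le_rfl (sum_le_sum fun j _ => ?_))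
    by_cases h2 : v j < ‖D t‖
    · rw [if_pos h2]
      split_ifs
      · exact le_refl _
      · positivity
    · rw [if_neg h2, if_neg]
      rw [not_lt]
      exact pow_le_pow_left₀ (norm_nonneg _) (not_lt.1 h2) 2
  have hR0 : (0 : ℝ) ≤ S.card := Nat.cast_nonneg _
  have hv0sq : v 0 ^ 2 = 4 * M ^ 2 * N := by
    simp only [hv]
    rw [Nat.cast_zero, zero_mul, Real.rpow_zero, mul_one, mul_pow, Real.sq_sqrt hN0.le]
    ring
  have hvs : ∀ j, v (j + 1) ^ 2 = (N : ℝ) ^ (2 * δ) * v j ^ 2 := by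
    intro j
    have h1 : v (j + 1) = (N : ℝ) ^ δ * v j := by
      simp only [hv]
      have : ((j + 1 : ℕ) : ℝ) * δ = δ + (j : ℝ) * δ := by push_cast; ring
      rw [this, Real.rpow_add hN0]
      ring
    rw [h1, mul_pow, ← Real.rpow_natCast, ← Real.rpow_mul hN0.le]
    congr 2
    push_cast
    ring
  have hMM : M ^ 2 * (N : ℝ) ^ (2 * δ) ≤ K ^ 2 * (N : ℝ) ^ ε := by
    rw [hM, mul_pow, ← Real.rpow_natCast ((N : ℝ) ^ (2 * δ)) 2, ← Real.rpow_mul hN0.le, mul_assoc,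
      ← Real.rpow_add hN0]
    apply mul_le_mul_of_nonneg_left _ (by positivity)
    apply Real.rpow_le_rpow_of_exponent_le hN1
    push_cast
    rw [hδ]
    linarith
  calc ∑ t ∈ S, ‖D t‖ ^ 2 ≤ ∑ t ∈ S, (v 0 ^ 2 +
      ∑ j ∈ range J, (if v j < ‖D t‖ then v (j + 1) ^ 2 else 0)) :=
        sum_le_sum fun t _ => hlevel t
    _ = (S.card : ℝ) * v 0 ^ 2 + ∑ j ∈ range J,
        ((S.filter (fun t => v j < ‖D t‖)).card : ℝ) * v (j + 1) ^ 2 := by
      rw [sum_add_distrib, sum_const, nsmul_eq_mul, sum_comm]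
      congr 1
      apply sum_congr rfl
      intro j _
      rw [← sum_filter, sum_const, nsmul_eq_mul]
    _ ≤ (S.card : ℝ) * (4 * M ^ 2 * N) + ∑ j ∈ range J,
        (N : ℝ) ^ (2 * δ) * (4 * M ^ 2 * N ^ 2) := by
      rw [hv0sq]
      apply add_le_add le_rfl
      apply sum_le_sum
      intro j _
      rw [hvs]
      calc ((S.filter (fun t => v j < ‖D t‖)).card : ℝ) * ((N : ℝ) ^ (2 * δ) * v j ^ 2) =
            (N : ℝ) ^ (2 * δ) * (((S.filter (fun t => v j < ‖D t‖)).card : ℝ) * v j ^ 2) := by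
            ring
        _ ≤ _ := mul_le_mul_of_nonneg_left (hlevelset j) (by positivity)
    _ ≤ (S.card : ℝ) * (4 * (M ^ 2 * (N : ℝ) ^ (2 * δ)) * N) +
        J * (4 * (M ^ 2 * (N : ℝ) ^ (2 * δ)) * N ^ 2) := by
      rw [sum_const, card_range, nsmul_eq_mul]
      apply add_le_add
      · apply mul_le_mul_of_nonneg_left _ hR0
        apply mul_le_mul_of_nonneg_right _ hN0.le
        nlinarith [sq_nonneg M]
      · apply le_of_eq
        ring
    _ ≤ (S.card : ℝ) * (4 * (K ^ 2 * (N : ℝ) ^ ε) * N) +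
        J * (4 * (K ^ 2 * (N : ℝ) ^ ε) * N ^ 2) := by gcongr
    _ ≤ _ := by
      have e1 : 0 ≤ K ^ 2 * (N : ℝ) ^ ε := by positivity
      have e2 : (0 : ℝ) ≤ J := Nat.cast_nonneg _
      have e3 : 0 ≤ K ^ 2 * (N : ℝ) ^ ε * (N * N) := by positivity
      have e4 : 0 ≤ K ^ 2 * (N : ℝ) ^ ε * (J * S.card * N) := by positivity
      nlinarith

theorem l2_main : (MontgomeryL2 ↔ BilinearIntegers) ∧ (MontgomeryL2 ↔ MeanValueIntegers) :=
  ⟨⟨l2_imp, bilinearInt_imp⟩, ⟨fun h => bilinearInt_iff.1 (l2_imp h),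
    fun h => bilinearInt_imp (bilinearInt_iff.2 h)⟩⟩

end Pool.Agent.X159.MB
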