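import Pool.Agent.X159.MB.LV

/-!
Montgomery's `ℓ^q` conjecture in the range `T ≤ N²` and bilinear sums over sets.
-/

set_option autoImplicit false

namespace Pool.Agent.X159.MB

open Finset

/-- `n^{it}` -/
noncomputable def phn (n t : ℕ) : ℂ :=
  Complex.exp (Complex.I * (t : ℂ) * ((Real.log (n : ℝ) : ℝ) : ℂ))

theorem norm_phn (n t : ℕ) : ‖phn n t‖ = 1 := by
  unfold phn
  have : Complex.I * (t : ℂ) * ((Real.log (n : ℝ) : ℝ) : ℂ) =
      (((t : ℝ) * Real.log (n : ℝ) : ℝ) : ℂ) * Complex.I := by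
    push_cast
    ring
  rw [this]
  exact Complex.norm_exp_ofReal_mul_I _

/-- The bound of Q1 for the exponent `q`, for `T ≤ N^A` and the coefficients with the
property `P`. -/
def MomentBound (P : (ℕ → ℂ) → Prop) (q A : ℝ) : Prop :=
  ∀ ε : ℝ, 0 < ε → ∃ K : ℝ, ∀ N T : ℕ, 1 ≤ N → N ≤ T → (T : ℝ) ≤ (N : ℝ) ^ A →
    ∀ b : ℕ → ℂ, P b →
      ∑ t ∈ Icc 1 T, ‖∑ n ∈ Icc N (2 * N), b n * phn n t‖ ^ q ≤
        K * (N : ℝ) ^ ε * ((N : ℝ) ^ q + (N : ℝ) ^ (q / 2) * (T : ℝ))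

/-- Q1 -/
def MontgomeryLq : Prop :=
  ∀ q : ℝ, 2 ≤ q → ∀ A : ℝ, 1 ≤ A → MomentBound (fun b => ∀ n, ‖b n‖ ≤ 1) q A

/-- Q1 for `2 ≤ q ≤ 4`, `T ≤ N²` and the coefficients `0` and `1` -/
def ForSetsSquareRange : Prop :=
  ∀ q : ℝ, 2 ≤ q → q ≤ 4 → MomentBound (fun b => ∀ n, b n = 0 ∨ b n = 1) q 2

/-- The bilinear estimate for the sets `S` of integers in `[N, 2N]` and the sets `W` of integers in
`[1, N^a]`, `1 ≤ a ≤ 2`. -/
def BilinearSquareRange : Prop :=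
  ∀ ε : ℝ, 0 < ε → ∃ C : ℝ, ∀ N : ℕ, 1 ≤ N → ∀ a : ℝ, 1 ≤ a → a ≤ 2 →
    ∀ S ⊆ Icc N (2 * N), ∀ W : Finset ℕ, (∀ t ∈ W, 1 ≤ t ∧ (t : ℝ) ≤ (N : ℝ) ^ a) →
      ‖∑ n ∈ S, ∑ t ∈ W, phn n t‖ ≤
        C * (N : ℝ) ^ (1 + ε) * (W.card : ℝ) ^ (1 - 1 / (2 * a))

/-- the same for the `ℓ¹` mean -/
def MeanValueSquareRange : Prop :=
  ∀ ε : ℝ, 0 < ε → ∃ C : ℝ, ∀ N : ℕ, 1 ≤ N → ∀ a : ℝ, 1 ≤ a → a ≤ 2 →
    ∀ W : Finset ℕ, (∀ t ∈ W, 1 ≤ t ∧ (t : ℝ) ≤ (N : ℝ) ^ a) →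
      ∑ n ∈ Icc N (2 * N), ‖∑ t ∈ W, phn n t‖ ≤
        C * (N : ℝ) ^ (1 + ε) * (W.card : ℝ) ^ (1 - 1 / (2 * a))

theorem bilinearSq_iff : BilinearSquareRange ↔ MeanValueSquareRange := by
  constructor
  · intro h ε hε
    obtain ⟨C, hC⟩ := h ε hε
    refine ⟨4 * C, fun N hN a ha1 ha2 W hT => ?_⟩
    have := sum_norm_le (Icc N (2 * N)) (fun n => ∑ t ∈ W, phn n t)
      (C * (N : ℝ) ^ (1 + ε) * (W.card : ℝ) ^ (1 - 1 / (2 * a)))
      fun S hS => hC N hN a ha1 ha2 S hS W hT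
    linarith
  · intro h ε hε
    obtain ⟨C, hC⟩ := h ε hε
    refine ⟨C, fun N hN a ha1 ha2 S hS W hT => ?_⟩
    calc ‖∑ n ∈ S, ∑ t ∈ W, phn n t‖ ≤ ∑ n ∈ S, ‖∑ t ∈ W, phn n t‖ := norm_sum_le _ _
      _ ≤ ∑ n ∈ Icc N (2 * N), ‖∑ t ∈ W, phn n t‖ :=
        sum_le_sum_of_subset_of_nonneg hS fun _ _ _ => norm_nonneg _
      _ ≤ _ := hC N hN a ha1 ha2 W hT

/-- Hölder in the form used here -/
theorem holder {ι : Type*} (W : Finset ι) (f : ι → ℝ) (hf : ∀ i ∈ W, 0 ≤ f i) {q : ℝ}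
    (hq : 1 ≤ q) : ∑ i ∈ W, f i ≤ (W.card : ℝ) ^ (1 - 1 / q) * (∑ i ∈ W, f i ^ q) ^ (1 / q) := by
  have hq0 : 0 < q := by linarith
  have h1 := Real.rpow_sum_le_const_mul_sum_rpow_of_nonneg (s := W) (f := f) hq hf
  have h0 : 0 ≤ ∑ i ∈ W, f i := sum_nonneg hf
  have h2 : 0 ≤ ∑ i ∈ W, f i ^ q := sum_nonneg fun i hi => Real.rpow_nonneg (hf i hi) _
  have hc : (0 : ℝ) ≤ W.card := Nat.cast_nonneg _
  calc ∑ i ∈ W, f i = ((∑ i ∈ W, f i) ^ q) ^ (1 / q) := by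
        rw [← Real.rpow_mul h0, mul_one_div_cancel hq0.ne', Real.rpow_one]
    _ ≤ ((W.card : ℝ) ^ (q - 1) * ∑ i ∈ W, f i ^ q) ^ (1 / q) :=
        Real.rpow_le_rpow (Real.rpow_nonneg h0 _) h1 (by positivity)
    _ = _ := by
        rw [Real.mul_rpow (Real.rpow_nonneg hc _) h2, ← Real.rpow_mul hc]
        congr 2
        field_simp

theorem restricted_imp : ForSetsSquareRange → BilinearSquareRange := by
  intro h ε hε
  -- the net of exponents
  set I : ℕ := ⌈2 / ε⌉₊ with hI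
  set qs : ℕ → ℝ := fun i => min 4 (2 + i * ε) with hqs
  have hq2 : ∀ i, 2 ≤ qs i := fun i => le_min (by norm_num) (by
    have : 0 ≤ (i : ℝ) * ε := by positivity
    linarith)
  have hq4 : ∀ i, qs i ≤ 4 := fun i => min_le_left _ _
  choose K hK using fun i => h (qs i) (hq2 i) (hq4 i) (ε / 2) (by positivity)
  refine ⟨∑ i ∈ range (I + 1), max 1 (2 * |K i|), ?_⟩
  intro N hN a ha1 ha2 S hS W hW
  have hN1 : (1 : ℝ) ≤ N := by exact_mod_cast hN
  have hN0 : (0 : ℝ) < N := by linarith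
  -- choice of the exponent
  obtain ⟨i, hiI, hi1, hi2⟩ : ∃ i ∈ range (I + 1), 2 * a ≤ qs i ∧ qs i ≤ 2 * a + ε := by
    refine ⟨⌈(2 * a - 2) / ε⌉₊, ?_, ?_, ?_⟩
    · rw [mem_range, Nat.lt_succ_iff, hI]
      apply Nat.ceil_mono
      gcongr
      linarith
    · apply le_min (by linarith)
      have h1 : (2 * a - 2) / ε ≤ (⌈(2 * a - 2) / ε⌉₊ : ℝ) := Nat.le_ceil _
      rw [div_le_iff₀ hε] at h1
      linarith
    · refine (min_le_right _ _).trans ?_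
      have h1 : (⌈(2 * a - 2) / ε⌉₊ : ℝ) < (2 * a - 2) / ε + 1 :=
        Nat.ceil_lt_add_one (div_nonneg (by linarith) hε.le)
      have h2 : (⌈(2 * a - 2) / ε⌉₊ : ℝ) * ε ≤ ((2 * a - 2) / ε + 1) * ε :=
        mul_le_mul_of_nonneg_right h1.le hε.le
      have h3 : ((2 * a - 2) / ε + 1) * ε = 2 * a - 2 + ε := by field_simp
      linarith
  set q := qs i with hq
  have hq2' : 2 ≤ q := hq2 i
  have hq4' : q ≤ 4 := hq4 i
  have hq0 : 0 < q := by linarith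
  rcases W.eq_empty_or_nonempty with rfl | hWne
  · simp only [sum_empty, sum_const_zero, norm_zero]
    have : 0 ≤ ∑ i ∈ range (I + 1), max 1 (2 * |K i|) :=
      sum_nonneg fun _ _ => le_trans zero_le_one (le_max_left _ _)
    positivity
  have hR1 : (1 : ℝ) ≤ W.card := by exact_mod_cast hWne.card_pos
  have hR0 : (0 : ℝ) < W.card := by linarith
  set T : ℕ := ⌊(N : ℝ) ^ a⌋₊ with hT
  have hNa : (N : ℝ) ≤ (N : ℝ) ^ a := by
    calc (N : ℝ) = (N : ℝ) ^ (1 : ℝ) := (Real.rpow_one _).symm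
      _ ≤ _ := Real.rpow_le_rpow_of_exponent_le hN1 ha1
  have hNT : N ≤ T := Nat.le_floor hNa
  have hTa : (T : ℝ) ≤ (N : ℝ) ^ a := Nat.floor_le (by positivity)
  have hT2 : (T : ℝ) ≤ (N : ℝ) ^ (2 : ℝ) :=
    hTa.trans (Real.rpow_le_rpow_of_exponent_le hN1 ha2)
  have hWT : W ⊆ Icc 1 T := by
    intro t ht
    rw [mem_Icc]
    exact ⟨(hW t ht).1, Nat.le_floor (hW t ht).2⟩
  have hRT : (W.card : ℝ) ≤ T := by
    have := card_le_card hWT
    rw [Nat.card_Icc, Nat.add_sub_cancel] at this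
    exact_mod_cast this
  set b : ℕ → ℂ := fun n => if n ∈ S then 1 else 0 with hb
  have hbP : ∀ n, b n = 0 ∨ b n = 1 := fun n => by
    simp only [hb]
    by_cases hn : n ∈ S
    · right; simp [hn]
    · left; simp [hn]
  have hDS : ∀ t, ∑ n ∈ Icc N (2 * N), b n * phn n t = ∑ n ∈ S, phn n t := by
    intro t
    simp only [hb, ite_mul, one_mul, zero_mul]
    rw [sum_ite_mem, inter_eq_right.2 hS]
  have hmom := hK i N T hN hNT hT2 b hbP
  simp only [hDS] at hmom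
  set κ : ℝ := max 1 (2 * |K i|) with hκ
  have hκ1 : 1 ≤ κ := le_max_left _ _
  have hmom2 : ∑ t ∈ W, ‖∑ n ∈ S, phn n t‖ ^ q ≤ κ * (N : ℝ) ^ (ε / 2) * (N : ℝ) ^ q := by
    calc ∑ t ∈ W, ‖∑ n ∈ S, phn n t‖ ^ q ≤ ∑ t ∈ Icc 1 T, ‖∑ n ∈ S, phn n t‖ ^ q :=
          sum_le_sum_of_subset_of_nonneg hWT fun _ _ _ => by positivity
      _ ≤ K i * (N : ℝ) ^ (ε / 2) * ((N : ℝ) ^ q + (N : ℝ) ^ (q / 2) * (T : ℝ)) := hmom
      _ ≤ |K i| * (N : ℝ) ^ (ε / 2) * ((N : ℝ) ^ q + (N : ℝ) ^ (q / 2) * (N : ℝ) ^ (q / 2)) := by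
        have h1 : (T : ℝ) ≤ (N : ℝ) ^ (q / 2) :=
          hTa.trans (Real.rpow_le_rpow_of_exponent_le hN1 (by linarith))
        have h2 : K i ≤ |K i| := le_abs_self _
        gcongr
      _ = (2 * |K i|) * (N : ℝ) ^ (ε / 2) * (N : ℝ) ^ q := by
        rw [← Real.rpow_add hN0]
        have : q / 2 + q / 2 = q := by ring
        rw [this]
        ring
      _ ≤ _ := by
        have : 2 * |K i| ≤ κ := le_max_right _ _
        gcongr
  have hq1 : 1 ≤ q := by linarith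
  have hholder := holder W (fun t => ‖∑ n ∈ S, phn n t‖) (fun _ _ => norm_nonneg _) hq1
  have h3 : (∑ t ∈ W, ‖∑ n ∈ S, phn n t‖ ^ q) ^ (1 / q) ≤ κ * (N : ℝ) ^ (ε / 2) * N := by
    calc (∑ t ∈ W, ‖∑ n ∈ S, phn n t‖ ^ q) ^ (1 / q) ≤
          (κ * (N : ℝ) ^ (ε / 2) * (N : ℝ) ^ q) ^ (1 / q) :=
          Real.rpow_le_rpow (sum_nonneg fun _ _ => by positivity) hmom2 (by positivity)
      _ = (κ * (N : ℝ) ^ (ε / 2)) ^ (1 / q) * N := by
        rw [Real.mul_rpow (by positivity) (by positivity), ← Real.rpow_mul hN0.le,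
          mul_one_div_cancel hq0.ne', Real.rpow_one]
      _ ≤ (κ * (N : ℝ) ^ (ε / 2)) ^ (1 : ℝ) * N := by
        apply mul_le_mul_of_nonneg_right _ hN0.le
        apply Real.rpow_le_rpow_of_exponent_le
        · have : (1 : ℝ) ≤ (N : ℝ) ^ (ε / 2) := Real.one_le_rpow hN1 (by positivity)
          nlinarith
        · rw [div_le_one hq0]
          linarith
      _ = _ := by rw [Real.rpow_one]
  have h4 : (W.card : ℝ) ^ (1 - 1 / q) ≤
      (W.card : ℝ) ^ (1 - 1 / (2 * a)) * (N : ℝ) ^ (ε / 2) := by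
    have h5 : (W.card : ℝ) ^ (1 - 1 / q) =
        (W.card : ℝ) ^ (1 - 1 / (2 * a)) * (W.card : ℝ) ^ (1 / (2 * a) - 1 / q) := by
      rw [← Real.rpow_add hR0]
      congr 1
      ring
    rw [h5]
    apply mul_le_mul_of_nonneg_left _ (by positivity)
    have h6 : 0 ≤ 1 / (2 * a) - 1 / q := by
      rw [sub_nonneg]
      exact one_div_le_one_div_of_le (by linarith) hi1
    have h7 : 1 / (2 * a) - 1 / q ≤ ε / 4 := by
      have ha0 : 0 < a := by linarith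
      rw [div_sub_div _ _ (by positivity) hq0.ne', div_le_div_iff₀ (by positivity) (by norm_num)]
      nlinarith [mul_nonneg (by linarith : (0:ℝ) ≤ a - 1) (by linarith : (0:ℝ) ≤ q - 2)]
    calc (W.card : ℝ) ^ (1 / (2 * a) - 1 / q) ≤ ((N : ℝ) ^ (2 : ℝ)) ^ (1 / (2 * a) - 1 / q) :=
          Real.rpow_le_rpow hR0.le (hRT.trans hT2) h6
      _ = (N : ℝ) ^ (2 * (1 / (2 * a) - 1 / q)) := by rw [← Real.rpow_mul hN0.le]
      _ ≤ (N : ℝ) ^ (ε / 2) := Real.rpow_le_rpow_of_exponent_le hN1 (by linarith)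
  calc ‖∑ n ∈ S, ∑ t ∈ W, phn n t‖ = ‖∑ t ∈ W, ∑ n ∈ S, phn n t‖ := by rw [sum_comm]
    _ ≤ ∑ t ∈ W, ‖∑ n ∈ S, phn n t‖ := norm_sum_le _ _
    _ ≤ (W.card : ℝ) ^ (1 - 1 / q) * (∑ t ∈ W, ‖∑ n ∈ S, phn n t‖ ^ q) ^ (1 / q) := hholder
    _ ≤ ((W.card : ℝ) ^ (1 - 1 / (2 * a)) * (N : ℝ) ^ (ε / 2)) * (κ * (N : ℝ) ^ (ε / 2) * N) := by
      gcongr
    _ = κ * (N * ((N : ℝ) ^ (ε / 2) * (N : ℝ) ^ (ε / 2))) * (W.card : ℝ) ^ (1 - 1 / (2 * a)) := by
      ring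
    _ = κ * (N : ℝ) ^ (1 + ε) * (W.card : ℝ) ^ (1 - 1 / (2 * a)) := by
      have e1 : (N : ℝ) * ((N : ℝ) ^ (ε / 2) * (N : ℝ) ^ (ε / 2)) = (N : ℝ) ^ (1 + ε) := by
        rw [← Real.rpow_add hN0, add_halves, Real.rpow_add hN0, Real.rpow_one]
      rw [e1]
    _ ≤ _ := by
      have h8 : κ ≤ ∑ i ∈ range (I + 1), max 1 (2 * |K i|) :=
        single_le_sum (f := fun i => max 1 (2 * |K i|))
          (fun _ _ => le_trans zero_le_one (le_max_left _ _)) hiI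
      gcongr

theorem exists_exponent (N T : ℕ) (hN : 1 ≤ N) (hNT : N ≤ T)
    (hT : (T : ℝ) ≤ (N : ℝ) ^ (2 : ℝ)) : ∃ a : ℝ, 1 ≤ a ∧ a ≤ 2 ∧ (T : ℝ) = (N : ℝ) ^ a := by
  have hN1 : (1 : ℝ) ≤ N := by exact_mod_cast hN
  have hNT' : (N : ℝ) ≤ T := by exact_mod_cast hNT
  rcases eq_or_lt_of_le hN1 with h | h
  · refine ⟨1, le_rfl, by norm_num, ?_⟩
    rw [← h] at hT hNT' ⊢
    rw [Real.one_rpow] at hT ⊢
    linarith
  · have hl : 0 < Real.log N := Real.log_pos h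
    have hT0 : (0 : ℝ) < T := by linarith
    refine ⟨Real.log T / Real.log N, ?_, ?_, ?_⟩
    · rw [le_div_iff₀ hl, one_mul]
      exact Real.log_le_log (by linarith) hNT'
    · rw [div_le_iff₀ hl]
      have := Real.log_le_log hT0 hT
      rwa [Real.log_rpow (by linarith)] at this
    · rw [Real.rpow_def_of_pos (by linarith), mul_div_cancel₀ _ hl.ne', Real.exp_log hT0]

theorem bilinearSq_imp : BilinearSquareRange →
    ∀ q : ℝ, 2 ≤ q → MomentBound (fun b => ∀ n, ‖b n‖ ≤ 1) q 2 := by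
  intro h q hq ε hε
  have hq0 : 0 < q := by linarith
  set δ : ℝ := ε / (2 * q) with hδ
  have hδ0 : 0 < δ := by positivity
  obtain ⟨C₀, hC₀⟩ := h (ε / 8) (by positivity)
  set C : ℝ := max C₀ 1 with hC
  have hC1 : 1 ≤ C := le_max_right _ _
  set J : ℕ := ⌈1 / (2 * δ)⌉₊ with hJ
  set v : ℕ → ℝ := fun j => 1 / 2 + j * δ with hv
  refine ⟨(2 : ℝ) ^ q * (1 + J * (8 * C) ^ (4 : ℝ)), ?_⟩
  intro N T hN hNT hT b hb
  have hN1 : (1 : ℝ) ≤ N := by exact_mod_cast hN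
  have hN0 : (0 : ℝ) < N := by linarith
  have hTpos : (0 : ℝ) < T := by
    have : (N : ℝ) ≤ T := by exact_mod_cast hNT
    linarith
  obtain ⟨a, ha1, ha2, hTa⟩ := exists_exponent N T hN hNT hT
  set D : ℕ → ℂ := fun t => ∑ n ∈ Icc N (2 * N), b n * phn n t with hD
  have hDle : ∀ t, ‖D t‖ ≤ 2 * N := by
    intro t
    calc ‖D t‖ ≤ ∑ n ∈ Icc N (2 * N), ‖b n * phn n t‖ := norm_sum_le _ _
      _ ≤ ∑ n ∈ Icc N (2 * N), (1 : ℝ) := sum_le_sum fun n _ => by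
          rw [norm_mul, norm_phn, mul_one]
          exact hb n
      _ = N + 1 := by
        rw [sum_const, Nat.card_Icc, nsmul_eq_mul, mul_one]
        have : 2 * N + 1 - N = N + 1 := by omega
        rw [this]
        push_cast
        ring
      _ ≤ 2 * N := by linarith
  -- number of the large values
  have hlv : ∀ j, (((Icc 1 T).filter (fun t => 2 * (N : ℝ) ^ v j < ‖D t‖)).card : ℝ) ≤
      (8 * C) ^ (4 : ℝ) * (N : ℝ) ^ (2 * a * (1 + ε / 8 - v j)) := by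
    intro j
    set W := (Icc 1 T).filter (fun t => 2 * (N : ℝ) ^ v j < ‖D t‖) with hW
    have h8C : 1 ≤ 8 * C := by linarith
    rcases W.eq_empty_or_nonempty with h0 | hne
    · rw [h0]
      simp only [card_empty, Nat.cast_zero]
      positivity
    have hR1 : (1 : ℝ) ≤ W.card := by exact_mod_cast hne.card_pos
    have hR0 : (0 : ℝ) < W.card := by linarith
    have ha0 : 0 < a := by linarith
    have hexp : 0 ≤ 1 - 1 / (2 * a) := by
      rw [sub_nonneg, div_le_one (by positivity)]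
      linarith
    have h1 : ∑ t ∈ W, ‖∑ n ∈ Icc N (2 * N), b n * phn n t‖ ≤
        16 * (C * (N : ℝ) ^ (1 + ε / 8) * (W.card : ℝ) ^ (1 - 1 / (2 * a))) := by
      apply sum_norm_poly_le (Icc N (2 * N)) W phn _ _ b hb
      intro S hS U hU
      have hUc : U.card ≤ W.card := card_le_card hU
      calc ‖∑ n ∈ S, ∑ t ∈ U, phn n t‖ ≤
            C₀ * (N : ℝ) ^ (1 + ε / 8) * (U.card : ℝ) ^ (1 - 1 / (2 * a)) :=
            hC₀ N hN a ha1 ha2 S hS U fun t ht => by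
              have h2 := hU ht
              rw [hW, mem_filter, mem_Icc] at h2
              refine ⟨h2.1.1, ?_⟩
              rw [← hTa]
              exact_mod_cast h2.1.2
        _ ≤ C * (N : ℝ) ^ (1 + ε / 8) * (W.card : ℝ) ^ (1 - 1 / (2 * a)) := by
          have h3 : C₀ ≤ C := le_max_left _ _
          have h4 : (U.card : ℝ) ≤ W.card := by exact_mod_cast hUc
          gcongr
    have h2 : (W.card : ℝ) * (2 * (N : ℝ) ^ v j) ≤
        ∑ t ∈ W, ‖∑ n ∈ Icc N (2 * N), b n * phn n t‖ := by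
      rw [← nsmul_eq_mul]
      exact card_nsmul_le_sum _ _ _ fun t ht => by
        rw [hW, mem_filter] at ht
        exact ht.2.le
    have h3 : (W.card : ℝ) ^ (1 / (2 * a)) ≤ 8 * C * (N : ℝ) ^ (1 + ε / 8 - v j) := by
      have h4 : (W.card : ℝ) = (W.card : ℝ) ^ (1 / (2 * a)) * (W.card : ℝ) ^ (1 - 1 / (2 * a)) := by
        rw [← Real.rpow_add hR0, add_sub_cancel, Real.rpow_one]
      have h5 : (N : ℝ) ^ (1 + ε / 8) = (N : ℝ) ^ (1 + ε / 8 - v j) * (N : ℝ) ^ v j := by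
        rw [← Real.rpow_add hN0]
        congr 1
        ring
      have h6 : (W.card : ℝ) ^ (1 / (2 * a)) *
            (2 * (N : ℝ) ^ v j * (W.card : ℝ) ^ (1 - 1 / (2 * a))) ≤
          (8 * C * (N : ℝ) ^ (1 + ε / 8 - v j)) *
            (2 * (N : ℝ) ^ v j * (W.card : ℝ) ^ (1 - 1 / (2 * a))) := by
        calc (W.card : ℝ) ^ (1 / (2 * a)) *
              (2 * (N : ℝ) ^ v j * (W.card : ℝ) ^ (1 - 1 / (2 * a)))
            = ((W.card : ℝ) ^ (1 / (2 * a)) * (W.card : ℝ) ^ (1 - 1 / (2 * a))) *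
              (2 * (N : ℝ) ^ v j) := by ring
          _ = (W.card : ℝ) * (2 * (N : ℝ) ^ v j) := by rw [← h4]
          _ ≤ 16 * (C * (N : ℝ) ^ (1 + ε / 8) * (W.card : ℝ) ^ (1 - 1 / (2 * a))) :=
            h2.trans h1
          _ = _ := by rw [h5]; ring
      exact le_of_mul_le_mul_right h6 (mul_pos (mul_pos two_pos (Real.rpow_pos_of_pos hN0 _))
        (Real.rpow_pos_of_pos hR0 _))
    calc (W.card : ℝ) = ((W.card : ℝ) ^ (1 / (2 * a))) ^ (2 * a) := by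
          rw [← Real.rpow_mul hR0.le, one_div_mul_cancel (by positivity), Real.rpow_one]
      _ ≤ (8 * C * (N : ℝ) ^ (1 + ε / 8 - v j)) ^ (2 * a) :=
        Real.rpow_le_rpow (by positivity) h3 (by positivity)
      _ = (8 * C) ^ (2 * a) * (N : ℝ) ^ (2 * a * (1 + ε / 8 - v j)) := by
        rw [Real.mul_rpow (by positivity) (by positivity), ← Real.rpow_mul hN0.le]
        congr 2
        ring
      _ ≤ _ := by
        apply mul_le_mul_of_nonneg_right _ (by positivity)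
        exact Real.rpow_le_rpow_of_exponent_le h8C (by linarith)
  -- the terms
  set X : ℝ := (N : ℝ) ^ ε * ((N : ℝ) ^ q + (N : ℝ) ^ (q / 2) * (T : ℝ)) with hX
  have hX0 : 0 ≤ X := by positivity
  have hterm : ∀ j ∈ range J,
      (((Icc 1 T).filter (fun t => 2 * (N : ℝ) ^ v j < ‖D t‖)).card : ℝ) *
        (2 * (N : ℝ) ^ v (j + 1)) ^ q ≤ (2 : ℝ) ^ q * (8 * C) ^ (4 : ℝ) * X := by
    intro j hj
    have hj1 : (j : ℝ) * δ ≤ 1 / 2 := by
      have h1 : j + 1 ≤ J := by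
        have := mem_range.1 hj
        omega
      have h2 : (J : ℝ) < 1 / (2 * δ) + 1 := Nat.ceil_lt_add_one (by positivity)
      have h3 : (j : ℝ) + 1 ≤ J := by exact_mod_cast h1
      have h4 : (j : ℝ) ≤ 1 / (2 * δ) := by linarith
      calc (j : ℝ) * δ ≤ 1 / (2 * δ) * δ := mul_le_mul_of_nonneg_right h4 hδ0.le
        _ = 1 / 2 := by field_simp
    have hj0 : 0 ≤ (j : ℝ) * δ := by positivity
    have h1 : (N : ℝ) ^ (2 * a * (1 + ε / 8 - v j)) * (N : ℝ) ^ (q * v (j + 1)) ≤ X := by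
      rw [← Real.rpow_add hN0]
      set u : ℝ := 2 * ((j : ℝ) * δ) with hu
      have hu0 : 0 ≤ u := by positivity
      have hu1 : u ≤ 1 := by linarith
      have hve : 2 * a * (1 + ε / 8 - v j) + q * v (j + 1) ≤
          ε + ((1 - u) * (a + q / 2) + u * q) := by
        have e1 : q * δ = ε / 2 := by
          rw [hδ]
          field_simp
        have e2 : v j = 1 / 2 + u / 2 := by
          simp only [hv, hu]
          ring
        have e3 : v (j + 1) = 1 / 2 + u / 2 + δ := by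
          simp only [hv, hu]
          push_cast
          ring
        rw [e2, e3]
        have e4 : 2 * a * (ε / 8) ≤ ε / 2 := by nlinarith
        nlinarith
      have hmax : (N : ℝ) ^ ((1 - u) * (a + q / 2) + u * q) ≤
          (N : ℝ) ^ q + (N : ℝ) ^ (q / 2) * (T : ℝ) := by
        rcases le_total (a + q / 2) q with hc | hc
        · calc (N : ℝ) ^ ((1 - u) * (a + q / 2) + u * q) ≤ (N : ℝ) ^ q := by
                apply Real.rpow_le_rpow_of_exponent_le hN1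
                nlinarith
            _ ≤ _ := by
              have : 0 ≤ (N : ℝ) ^ (q / 2) * (T : ℝ) := by positivity
              linarith
        · calc (N : ℝ) ^ ((1 - u) * (a + q / 2) + u * q) ≤ (N : ℝ) ^ (a + q / 2) := by
                apply Real.rpow_le_rpow_of_exponent_le hN1
                nlinarith
            _ = (N : ℝ) ^ (q / 2) * (T : ℝ) := by
              rw [Real.rpow_add hN0, ← hTa]
              ring
            _ ≤ _ := by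
              have : 0 ≤ (N : ℝ) ^ q := by positivity
              linarith
      calc (N : ℝ) ^ (2 * a * (1 + ε / 8 - v j) + q * v (j + 1)) ≤
            (N : ℝ) ^ (ε + ((1 - u) * (a + q / 2) + u * q)) :=
            Real.rpow_le_rpow_of_exponent_le hN1 hve
        _ = (N : ℝ) ^ ε * (N : ℝ) ^ ((1 - u) * (a + q / 2) + u * q) := by
          rw [Real.rpow_add hN0]
        _ ≤ X := by
          rw [hX]
          gcongr
    calc (((Icc 1 T).filter (fun t => 2 * (N : ℝ) ^ v j < ‖D t‖)).card : ℝ) *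
          (2 * (N : ℝ) ^ v (j + 1)) ^ q ≤
          ((8 * C) ^ (4 : ℝ) * (N : ℝ) ^ (2 * a * (1 + ε / 8 - v j))) *
            (2 * (N : ℝ) ^ v (j + 1)) ^ q :=
          mul_le_mul_of_nonneg_right (hlv j) (by positivity)
      _ = (2 : ℝ) ^ q * (8 * C) ^ (4 : ℝ) *
            ((N : ℝ) ^ (2 * a * (1 + ε / 8 - v j)) * (N : ℝ) ^ (q * v (j + 1))) := by
          have e1 : (2 * (N : ℝ) ^ v (j + 1)) ^ q = (2 : ℝ) ^ q * (N : ℝ) ^ (q * v (j + 1)) := by
            rw [Real.mul_rpow (by norm_num) (by positivity), ← Real.rpow_mul hN0.le,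
              mul_comm (v (j + 1)) q]
          rw [e1]
          ring
      _ ≤ _ := by gcongr
  have hDq : ∀ t, ‖D t‖ ≤ 2 * (N : ℝ) ^ v J := by
    intro t
    refine (hDle t).trans ?_
    apply mul_le_mul_of_nonneg_left _ (by norm_num)
    have h1 : 1 ≤ v J := by
      simp only [hv]
      have h2 : 1 / (2 * δ) ≤ (J : ℝ) := Nat.le_ceil _
      have h3 : 1 / (2 * δ) * δ ≤ (J : ℝ) * δ := mul_le_mul_of_nonneg_right h2 hδ0.le
      have h4 : 1 / (2 * δ) * δ = 1 / 2 := by field_simp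
      linarith
    calc (N : ℝ) = (N : ℝ) ^ (1 : ℝ) := (Real.rpow_one _).symm
      _ ≤ _ := Real.rpow_le_rpow_of_exponent_le hN1 h1
  have hlevel : ∀ t, ‖D t‖ ^ q ≤ (2 * (N : ℝ) ^ v 0) ^ q +
      ∑ j ∈ range J, (if 2 * (N : ℝ) ^ v j < ‖D t‖ then (2 * (N : ℝ) ^ v (j + 1)) ^ q else 0) := by
    intro t
    have h1 := level_le (‖D t‖ ^ q) (fun j => (2 * (N : ℝ) ^ v j) ^ q)
      (fun j => by positivity) J (Real.rpow_le_rpow (norm_nonneg _) (hDq t) hq0.le)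
    refine h1.trans (add_le_add le_rfl (sum_le_sum fun j _ => ?_))
    by_cases h2 : 2 * (N : ℝ) ^ v j < ‖D t‖
    · rw [if_pos h2]
      split_ifs
      · exact le_refl _
      · positivity
    · rw [if_neg h2, if_neg]
      rw [not_lt]
      exact Real.rpow_le_rpow (norm_nonneg _) (not_lt.1 h2) hq0.le
  have hfirst : (T : ℝ) * (2 * (N : ℝ) ^ v 0) ^ q ≤ (2 : ℝ) ^ q * X := by
    rw [Real.mul_rpow (by norm_num) (by positivity), ← Real.rpow_mul hN0.le]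
    have h1 : v 0 * q = q / 2 := by
      simp only [hv]
      push_cast
      ring
    rw [h1]
    have h2 : (N : ℝ) ^ (q / 2) * (T : ℝ) ≤ X := by
      have h3 : (1 : ℝ) ≤ (N : ℝ) ^ ε := Real.one_le_rpow hN1 hε.le
      have h4 : 0 ≤ (N : ℝ) ^ q := by positivity
      have h5 : 0 ≤ (N : ℝ) ^ (q / 2) * (T : ℝ) := by positivity
      rw [hX]
      nlinarith
    have h3 : 0 ≤ (2 : ℝ) ^ q := by positivity
    calc (T : ℝ) * ((2 : ℝ) ^ q * (N : ℝ) ^ (q / 2)) =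
          (2 : ℝ) ^ q * ((N : ℝ) ^ (q / 2) * (T : ℝ)) := by ring
      _ ≤ _ := mul_le_mul_of_nonneg_left h2 h3
  calc ∑ t ∈ Icc 1 T, ‖D t‖ ^ q ≤ ∑ t ∈ Icc 1 T, ((2 * (N : ℝ) ^ v 0) ^ q +
      ∑ j ∈ range J, (if 2 * (N : ℝ) ^ v j < ‖D t‖ then (2 * (N : ℝ) ^ v (j + 1)) ^ q else 0)) :=
        sum_le_sum fun t _ => hlevel t
    _ = (T : ℝ) * (2 * (N : ℝ) ^ v 0) ^ q + ∑ j ∈ range J,
        (((Icc 1 T).filter (fun t => 2 * (N : ℝ) ^ v j < ‖D t‖)).card : ℝ) *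
          (2 * (N : ℝ) ^ v (j + 1)) ^ q := by
      rw [sum_add_distrib, sum_const, nsmul_eq_mul, Nat.card_Icc, Nat.add_sub_cancel, sum_comm]
      congr 1
      apply sum_congr rfl
      intro j _
      rw [← sum_filter, sum_const, nsmul_eq_mul]
    _ ≤ (2 : ℝ) ^ q * X + ∑ j ∈ range J, (2 : ℝ) ^ q * (8 * C) ^ (4 : ℝ) * X :=
      add_le_add hfirst (sum_le_sum hterm)
    _ = (2 : ℝ) ^ q * (1 + J * (8 * C) ^ (4 : ℝ)) * X := by
      rw [sum_const, card_range, nsmul_eq_mul]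
      ring
    _ = _ := by rw [hX]; ring

end Pool.Agent.X159.MB
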