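import Pool.Agent.X159.MB.LQ
import Pool.Agent.H31R2.DH.Pow
import Pool.Agent.Helper112.Arith

/-!
The range `T ≤ N²` implies the range `T ≤ N^A` in Montgomery's `ℓ^q` conjecture (powers of the
polynomials).
-/

set_option autoImplicit false

namespace Pool.Agent.X159.MB

open Finset

theorem phn_eq_cpow (n t : ℕ) (hn : 1 ≤ n) :
    phn n t = (n : ℂ) ^ (-((-(t : ℝ) : ℝ) : ℂ) * Complex.I) := by
  have hn0 : (n : ℂ) ≠ 0 := by exact_mod_cast (by omega : n ≠ 0)
  rw [Complex.cpow_def_of_ne_zero hn0, ← Complex.natCast_log]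
  unfold phn
  congr 1
  push_cast
  ring

/-- the arithmetic function of the coefficients -/
noncomputable def coe (N : ℕ) (b : ℕ → ℂ) : ArithmeticFunction ℂ :=
  ⟨fun n => if n ∈ Icc (max N 1) (2 * N) then b n else 0, by simp⟩

theorem coe_apply (N : ℕ) (b : ℕ → ℂ) (n : ℕ) :
    coe N b n = if n ∈ Icc (max N 1) (2 * N) then b n else 0 := rfl

theorem coe_supp (N : ℕ) (hN : 1 ≤ N) (b : ℕ → ℂ) (n : ℕ) (h : coe N b n ≠ 0) :
    N ≤ n ∧ n ≤ 2 * N := by
  rw [coe_apply, max_eq_left hN] at h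
  by_contra h2
  exact h (if_neg (by rwa [mem_Icc]))

theorem poly_pow (N k t : ℕ) (hN : 1 ≤ N) (b : ℕ → ℂ) :
    (∑ n ∈ Icc N (2 * N), b n * phn n t) ^ k =
      ∑ m ∈ Icc 1 ((2 * N) ^ k), (coe N b ^ k) m * phn m t := by
  have h1 := DH31.dp_pow (coe_supp N hN b) k (-(t : ℝ))
  have h2 : DH31.dp (fun n => coe N b n) (2 * N) (-(t : ℝ)) =
      ∑ n ∈ Icc N (2 * N), b n * phn n t := by
    unfold DH31.dp
    have hsub : Icc N (2 * N) ⊆ Icc 1 (2 * N) := Icc_subset_Icc_left hN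
    rw [← sum_subset hsub]
    · apply sum_congr rfl
      intro n hn
      beta_reduce
      rw [coe_apply, max_eq_left hN, if_pos hn, phn_eq_cpow n t ((mem_Icc.1 hn).1.trans' hN)]
    · intro n _ hn
      beta_reduce
      rw [coe_apply, max_eq_left hN, if_neg hn, zero_mul]
  rw [h2] at h1
  rw [← h1]
  unfold DH31.dp
  apply sum_congr rfl
  intro n hn
  rw [phn_eq_cpow n t (mem_Icc.1 hn).1]

/-- the block of `m` -/
def block (M k m : ℕ) : ℕ := min (Nat.log 2 (m / M)) (k - 1)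

theorem block_lt (M k m : ℕ) (hk : 1 ≤ k) : block M k m < k := by
  unfold block
  have := min_le_right (Nat.log 2 (m / M)) (k - 1)
  omega

theorem block_mem (M k m : ℕ) (hM : 1 ≤ M) (hk : 1 ≤ k) (h1 : M ≤ m) (h2 : m ≤ 2 ^ k * M) :
    m ∈ Icc (2 ^ block M k m * M) (2 * (2 ^ block M k m * M)) := by
  have hd : m / M ≠ 0 := by
    have := Nat.div_pos h1 hM
    omega
  have e1 : 2 ^ Nat.log 2 (m / M) ≤ m / M := Nat.pow_log_le_self 2 hd
  have e2 : m / M < 2 ^ (Nat.log 2 (m / M) + 1) := Nat.lt_pow_succ_log_self (by norm_num) _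
  have e3 : 2 ^ Nat.log 2 (m / M) * M ≤ m := by
    calc _ ≤ m / M * M := Nat.mul_le_mul_right _ e1
      _ ≤ m := Nat.div_mul_le_self m M
  have e4 : m < 2 ^ (Nat.log 2 (m / M) + 1) * M := (Nat.div_lt_iff_lt_mul hM).1 e2
  rw [mem_Icc]
  unfold block
  rcases le_total (Nat.log 2 (m / M)) (k - 1) with h | h
  · rw [min_eq_left h]
    refine ⟨e3, ?_⟩
    rw [pow_succ] at e4
    linarith
  · rw [min_eq_right h]
    constructor
    · refine le_trans ?_ e3
      exact Nat.mul_le_mul_right _ (Nat.pow_le_pow_right (by norm_num) h)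
    · have : 2 * (2 ^ (k - 1) * M) = 2 ^ k * M := by
        rw [← mul_assoc, ← pow_succ']
        congr 2
        omega
      rw [this]
      exact h2

theorem blocks (M k : ℕ) (hM : 1 ≤ M) (hk : 1 ≤ k) (c : ℕ → ℂ) (z : ℕ → ℂ)
    (hc : ∀ m, c m ≠ 0 → M ≤ m ∧ m ≤ 2 ^ k * M) :
    ∑ m ∈ Icc 1 (2 ^ k * M), c m * z m = ∑ j ∈ range k,
      ∑ m ∈ Icc (2 ^ j * M) (2 * (2 ^ j * M)), (if block M k m = j then c m else 0) * z m := by
  have h1 : ∀ j ∈ range k,
      ∑ m ∈ Icc (2 ^ j * M) (2 * (2 ^ j * M)), (if block M k m = j then c m else 0) * z m =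
      ∑ m ∈ Icc 1 (2 ^ k * M), (if block M k m = j then c m else 0) * z m := by
    intro j hj
    have hj' : j + 1 ≤ k := by
      have := mem_range.1 hj
      omega
    apply sum_subset
    · intro m hm
      rw [mem_Icc] at hm ⊢
      constructor
      · refine le_trans ?_ hm.1
        exact Nat.mul_pos (pow_pos (by norm_num) _) hM
      · refine hm.2.trans ?_
        rw [← mul_assoc, ← pow_succ']
        exact Nat.mul_le_mul_right _ (Nat.pow_le_pow_right (by norm_num) hj')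
    · intro m _ hm
      by_cases hb : block M k m = j
      · by_cases h0 : c m = 0
        · rw [if_pos hb, h0, zero_mul]
        · exfalso
          obtain ⟨e1, e2⟩ := hc m h0
          have := block_mem M k m hM hk e1 e2
          rw [hb] at this
          exact hm this
      · rw [if_neg hb, zero_mul]
  rw [sum_congr rfl h1, sum_comm]
  apply sum_congr rfl
  intro m _
  rw [← sum_mul]
  congr 1
  rw [sum_ite_eq (range k) (block M k m) (fun _ => c m),
    if_pos (mem_range.2 (block_lt M k m hk))]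

/-- The moment of order `k r` from the moments of order `r` in the range `T ≤ N²`. -/
theorem moment_pow (k : ℕ) (hk : 1 ≤ k) (r : ℝ) (hr : 2 ≤ r)
    (h : MomentBound (fun b => ∀ n, ‖b n‖ ≤ 1) r 2) (ε : ℝ) (hε : 0 < ε) :
    ∃ K : ℝ, 0 ≤ K ∧ ∀ N T : ℕ, 1 ≤ N → N ^ k ≤ T → T ≤ N ^ (2 * k) →
      ∀ b : ℕ → ℂ, (∀ n, ‖b n‖ ≤ 1) →
        ∑ t ∈ Icc 1 T, ‖∑ n ∈ Icc N (2 * N), b n * phn n t‖ ^ ((k : ℝ) * r) ≤
          K * (N : ℝ) ^ ε * ((N : ℝ) ^ ((k : ℝ) * r) + (N : ℝ) ^ ((k : ℝ) * r / 2) * (T : ℝ)) := by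
  have hk0 : (0 : ℝ) < k := by exact_mod_cast hk
  have hr0 : 0 < r := by linarith
  obtain ⟨C, hC0, hC⟩ := Helper112.divisor_bound (ε / (4 * k ^ 2 * r)) (by positivity)
  obtain ⟨K₀, hK₀⟩ := h (ε / (2 * k)) (by positivity)
  set K₁ : ℝ := |K₀| with hK₁
  refine ⟨(k : ℝ) ^ (r - 1) * (k * ((C ^ (2 * k)) ^ r * K₁ * (2 : ℝ) ^ ε *
    (2 : ℝ) ^ ((k : ℝ) * r + k))), by positivity, ?_⟩
  intro N T hN hT1 hT2 b hb
  have hN1 : (1 : ℝ) ≤ N := by exact_mod_cast hN
  have hN0 : (0 : ℝ) < N := by linarith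
  set M : ℕ := N ^ k with hM
  have hM1 : 1 ≤ M := Nat.one_le_pow _ _ hN
  have hYM : (2 * N) ^ k = 2 ^ k * M := by rw [hM, mul_pow]
  set c : ℕ → ℂ := fun m => (coe N b ^ k) m with hc
  have hcs : ∀ m, c m ≠ 0 → M ≤ m ∧ m ≤ 2 ^ k * M := by
    intro m hm
    have := DH31.pow_support (coe_supp N hN b) k m hm
    rw [hYM] at this
    exact this
  set D : ℕ → ℂ := fun t => ∑ n ∈ Icc N (2 * N), b n * phn n t with hD
  set Dj : ℕ → ℕ → ℂ := fun j t =>
    ∑ m ∈ Icc (2 ^ j * M) (2 * (2 ^ j * M)), (if block M k m = j then c m else 0) * phn m t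
    with hDj
  have hDpow : ∀ t, D t ^ k = ∑ j ∈ range k, Dj j t := by
    intro t
    simp only [hD, hDj]
    rw [poly_pow N k t hN b, hYM]
    exact blocks M k hM1 hk c (fun m => phn m t) hcs
  -- the coefficients
  set Y : ℝ := (2 * N : ℝ) ^ (k : ℝ) with hY
  have hY1 : 1 ≤ Y := Real.one_le_rpow (by linarith) hk0.le
  have hYnat : ((2 ^ k * M : ℕ) : ℝ) = Y := by
    rw [← hYM, hY, Real.rpow_natCast]
    push_cast
    ring
  set B : ℝ := (C * Y ^ (ε / (4 * k ^ 2 * r))) ^ (2 * k) with hB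
  have hB0 : 0 < B := by positivity
  have hcB : ∀ m, ‖c m‖ ≤ B := by
    intro m
    by_cases h0 : c m = 0
    · rw [h0, norm_zero]
      exact hB0.le
    obtain ⟨e1, e2⟩ := hcs m h0
    have hm1 : 1 ≤ m := hM1.trans e1
    have h1 := DH31.pow_bound (b := coe N b) (σ := 0) (fun n hn => by
      rw [neg_zero, Real.rpow_zero, mul_one]
      have h2 : (1 : ℝ) ≤ n.divisors.card := by
        have : 0 < n.divisors.card := Finset.card_pos.2 (Nat.nonempty_divisors.2 (by omega))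
        exact_mod_cast this
      refine le_trans ?_ h2
      rw [coe_apply]
      split_ifs
      · exact hb n
      · simp) k m hm1
    rw [neg_zero, Real.rpow_zero, mul_one] at h1
    refine h1.trans ?_
    apply pow_le_pow_left₀ (Nat.cast_nonneg _)
    refine (hC m hm1).trans ?_
    apply mul_le_mul_of_nonneg_left _ hC0.le
    apply Real.rpow_le_rpow (Nat.cast_nonneg _) _ (by positivity)
    rw [← hYnat]
    exact_mod_cast e2
  have hMT : (M : ℝ) ≤ T := by exact_mod_cast hT1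
  have hT0 : (0 : ℝ) < T := lt_of_lt_of_le (by exact_mod_cast hM1) hMT
  -- the blocks
  have hblock : ∀ j ∈ range k, ∑ t ∈ Icc 1 T, ‖Dj j t‖ ^ r ≤
      (C ^ (2 * k)) ^ r * K₁ * (2 : ℝ) ^ ε * (2 : ℝ) ^ ((k : ℝ) * r + k) *
        ((N : ℝ) ^ ε * ((N : ℝ) ^ ((k : ℝ) * r) + (N : ℝ) ^ ((k : ℝ) * r / 2) * (T : ℝ))) := by
    intro j hj
    have hjk : j ≤ k := (mem_range.1 hj).le
    set L : ℕ := 2 ^ j * M with hL
    have hL1 : 1 ≤ L := Nat.mul_pos (pow_pos (by norm_num) _) hM1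
    have hML : M ≤ L := Nat.le_mul_of_pos_left _ (pow_pos (by norm_num) _)
    have hL2 : L ≤ 2 ^ k * M := Nat.mul_le_mul_right _ (Nat.pow_le_pow_right (by norm_num) hjk)
    have hLY : (L : ℝ) ≤ Y := by
      rw [← hYnat]
      exact_mod_cast hL2
    set T' : ℕ := max T L with hT'
    have hT'2 : (T' : ℝ) ≤ (L : ℝ) ^ (2 : ℝ) := by
      rw [Real.rpow_two]
      have h1 : T' ≤ L ^ 2 := by
        apply max_le
        · calc T ≤ N ^ (2 * k) := hT2
            _ = M ^ 2 := by rw [hM, ← pow_mul, mul_comm]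
            _ ≤ L ^ 2 := Nat.pow_le_pow_left hML 2
        · nlinarith
      exact_mod_cast h1
    have hT'3 : (T' : ℝ) ≤ (2 : ℝ) ^ (k : ℝ) * T := by
      rw [Real.rpow_natCast]
      have h1 : T' ≤ 2 ^ k * T := by
        apply max_le
        · exact Nat.le_mul_of_pos_left _ (pow_pos (by norm_num) _)
        · exact hL2.trans (Nat.mul_le_mul_left _ hT1)
      exact_mod_cast h1
    set b' : ℕ → ℂ := fun m => (if block M k m = j then c m else 0) / (B : ℂ) with hb'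
    have hb'1 : ∀ m, ‖b' m‖ ≤ 1 := by
      intro m
      simp only [hb']
      rw [norm_div, Complex.norm_real, Real.norm_of_nonneg hB0.le, div_le_one hB0]
      split_ifs
      · exact hcB m
      · rw [norm_zero]
        exact hB0.le
    have h1 := hK₀ L T' hL1 (le_max_right _ _) hT'2 b' hb'1
    have hDb : ∀ t, Dj j t = (B : ℂ) * ∑ m ∈ Icc L (2 * L), b' m * phn m t := by
      intro t
      simp only [hDj, hb']
      rw [mul_sum]
      apply sum_congr rfl
      intro m _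
      have : (B : ℂ) ≠ 0 := by exact_mod_cast hB0.ne'
      field_simp
    have h2 : ∑ t ∈ Icc 1 T, ‖Dj j t‖ ^ r ≤ B ^ r *
        (K₁ * (L : ℝ) ^ (ε / (2 * k)) * ((L : ℝ) ^ r + (L : ℝ) ^ (r / 2) * (T' : ℝ))) := by
      calc ∑ t ∈ Icc 1 T, ‖Dj j t‖ ^ r ≤ ∑ t ∈ Icc 1 T', ‖Dj j t‖ ^ r :=
            sum_le_sum_of_subset_of_nonneg (Icc_subset_Icc_right (le_max_left _ _))
              fun _ _ _ => by positivity
        _ = B ^ r * ∑ t ∈ Icc 1 T', ‖∑ m ∈ Icc L (2 * L), b' m * phn m t‖ ^ r := by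
            rw [mul_sum]
            apply sum_congr rfl
            intro t _
            rw [hDb, norm_mul, Complex.norm_real, Real.norm_of_nonneg hB0.le,
              Real.mul_rpow hB0.le (norm_nonneg _)]
        _ ≤ B ^ r * (K₀ * (L : ℝ) ^ (ε / (2 * k)) *
              ((L : ℝ) ^ r + (L : ℝ) ^ (r / 2) * (T' : ℝ))) :=
            mul_le_mul_of_nonneg_left h1 (by positivity)
        _ ≤ _ := by
            have : K₀ ≤ K₁ := le_abs_self _
            gcongr
    refine h2.trans ?_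
    have hBr : B ^ r = (C ^ (2 * k)) ^ r * (2 * N : ℝ) ^ (ε / 2) := by
      rw [hB, mul_pow, Real.mul_rpow (by positivity) (by positivity)]
      congr 1
      rw [hY, ← Real.rpow_mul (by positivity), ← Real.rpow_natCast, ← Real.rpow_mul (by positivity),
        ← Real.rpow_mul (by positivity)]
      congr 1
      push_cast
      field_simp
      ring
    have hLe : (L : ℝ) ^ (ε / (2 * k)) ≤ (2 * N : ℝ) ^ (ε / 2) := by
      calc (L : ℝ) ^ (ε / (2 * k)) ≤ Y ^ (ε / (2 * k)) :=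
            Real.rpow_le_rpow (Nat.cast_nonneg _) hLY (by positivity)
        _ = _ := by
            rw [hY, ← Real.rpow_mul (by positivity)]
            congr 1
            field_simp
    have hLr : (L : ℝ) ^ r ≤ (2 : ℝ) ^ ((k : ℝ) * r + k) * (N : ℝ) ^ ((k : ℝ) * r) := by
      calc (L : ℝ) ^ r ≤ Y ^ r := Real.rpow_le_rpow (Nat.cast_nonneg _) hLY hr0.le
        _ = (2 : ℝ) ^ ((k : ℝ) * r) * (N : ℝ) ^ ((k : ℝ) * r) := by
            rw [hY, ← Real.rpow_mul (by positivity), Real.mul_rpow (by norm_num) hN0.le]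
        _ ≤ _ := by
            apply mul_le_mul_of_nonneg_right _ (by positivity)
            exact Real.rpow_le_rpow_of_exponent_le (by norm_num) (by linarith)
    have hLr2 : (L : ℝ) ^ (r / 2) * (T' : ℝ) ≤
        (2 : ℝ) ^ ((k : ℝ) * r + k) * ((N : ℝ) ^ ((k : ℝ) * r / 2) * (T : ℝ)) := by
      calc (L : ℝ) ^ (r / 2) * (T' : ℝ) ≤ Y ^ (r / 2) * ((2 : ℝ) ^ (k : ℝ) * T) := by
            gcongr
        _ = ((2 : ℝ) ^ ((k : ℝ) * r / 2) * (2 : ℝ) ^ (k : ℝ)) *
              ((N : ℝ) ^ ((k : ℝ) * r / 2) * (T : ℝ)) := by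
            rw [hY, ← Real.rpow_mul (by positivity), Real.mul_rpow (by norm_num) hN0.le]
            have : (k : ℝ) * (r / 2) = (k : ℝ) * r / 2 := by ring
            rw [this]
            ring
        _ ≤ _ := by
            apply mul_le_mul_of_nonneg_right _ (by positivity)
            rw [← Real.rpow_add (by norm_num)]
            apply Real.rpow_le_rpow_of_exponent_le (by norm_num)
            have : 0 ≤ (k : ℝ) * r := by positivity
            linarith
    calc B ^ r * (K₁ * (L : ℝ) ^ (ε / (2 * k)) * ((L : ℝ) ^ r + (L : ℝ) ^ (r / 2) * (T' : ℝ))) ≤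
          ((C ^ (2 * k)) ^ r * (2 * N : ℝ) ^ (ε / 2)) * (K₁ * (2 * N : ℝ) ^ (ε / 2) *
            ((2 : ℝ) ^ ((k : ℝ) * r + k) * (N : ℝ) ^ ((k : ℝ) * r) +
              (2 : ℝ) ^ ((k : ℝ) * r + k) * ((N : ℝ) ^ ((k : ℝ) * r / 2) * (T : ℝ)))) := by
          rw [hBr]
          gcongr
      _ = (C ^ (2 * k)) ^ r * K₁ * ((2 * N : ℝ) ^ (ε / 2) * (2 * N : ℝ) ^ (ε / 2)) *
            (2 : ℝ) ^ ((k : ℝ) * r + k) *
            ((N : ℝ) ^ ((k : ℝ) * r) + (N : ℝ) ^ ((k : ℝ) * r / 2) * (T : ℝ)) := by ring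
      _ = _ := by
          rw [← Real.rpow_add (by positivity), add_halves, Real.mul_rpow (by norm_num) hN0.le]
          ring
  -- the power
  have hstep : ∀ t, ‖D t‖ ^ ((k : ℝ) * r) ≤ (k : ℝ) ^ (r - 1) * ∑ j ∈ range k, ‖Dj j t‖ ^ r := by
    intro t
    calc ‖D t‖ ^ ((k : ℝ) * r) = ‖D t ^ k‖ ^ r := by
          rw [Real.rpow_mul (norm_nonneg _), Real.rpow_natCast, norm_pow]
      _ ≤ (∑ j ∈ range k, ‖Dj j t‖) ^ r := by
          rw [hDpow]
          exact Real.rpow_le_rpow (norm_nonneg _) (norm_sum_le _ _) hr0.le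
      _ ≤ ((range k).card : ℝ) ^ (r - 1) * ∑ j ∈ range k, ‖Dj j t‖ ^ r :=
          Real.rpow_sum_le_const_mul_sum_rpow_of_nonneg (s := range k) (f := fun j => ‖Dj j t‖)
            (by linarith) fun _ _ => norm_nonneg _
      _ = _ := by rw [card_range]
  calc ∑ t ∈ Icc 1 T, ‖D t‖ ^ ((k : ℝ) * r) ≤
        ∑ t ∈ Icc 1 T, (k : ℝ) ^ (r - 1) * ∑ j ∈ range k, ‖Dj j t‖ ^ r :=
        sum_le_sum fun t _ => hstep t
    _ = (k : ℝ) ^ (r - 1) * ∑ j ∈ range k, ∑ t ∈ Icc 1 T, ‖Dj j t‖ ^ r := by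
        rw [← mul_sum, sum_comm]
    _ ≤ (k : ℝ) ^ (r - 1) * ∑ j ∈ range k,
          ((C ^ (2 * k)) ^ r * K₁ * (2 : ℝ) ^ ε * (2 : ℝ) ^ ((k : ℝ) * r + k) *
        ((N : ℝ) ^ ε * ((N : ℝ) ^ ((k : ℝ) * r) + (N : ℝ) ^ ((k : ℝ) * r / 2) * (T : ℝ)))) :=
        mul_le_mul_of_nonneg_left (sum_le_sum hblock) (by positivity)
    _ = _ := by
        rw [sum_const, card_range, nsmul_eq_mul]
        ring

theorem montgomeryLq_of (h : ∀ q : ℝ, 2 ≤ q → MomentBound (fun b => ∀ n, ‖b n‖ ≤ 1) q 2) :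
    MontgomeryLq := by
  intro q hq A hA ε hε
  have hq0 : 0 < q := by linarith
  choose! K hK0 hK using fun (k : ℕ) (hk : 1 ≤ k) =>
    moment_pow k hk (max (q / k) 2) (le_max_right _ _) (h _ (le_max_right _ _)) ε hε
  refine ⟨(2 : ℝ) ^ q + ∑ k ∈ Icc 1 ⌊A⌋₊, max 1 (2 * |K k|), ?_⟩
  intro N T hN hNT hTA b hb
  have hN1 : (1 : ℝ) ≤ N := by exact_mod_cast hN
  have hN0 : (0 : ℝ) < N := by linarith
  have hsum0 : 0 ≤ ∑ k ∈ Icc 1 ⌊A⌋₊, max 1 (2 * |K k|) :=
    sum_nonneg fun _ _ => le_trans zero_le_one (le_max_left _ _)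
  rcases Nat.lt_or_ge N 2 with hN2 | hN2
  · have hN' : N = 1 := by omega
    subst hN'
    have hT1 : T = 1 := by
      rw [Nat.cast_one, Real.one_rpow] at hTA
      have : T ≤ 1 := by exact_mod_cast hTA
      omega
    subst hT1
    simp only [Nat.cast_one, Real.one_rpow, mul_one, Icc_self, sum_singleton]
    have h1 : ‖∑ n ∈ Icc 1 2, b n * phn n 1‖ ≤ 2 := by
      calc ‖∑ n ∈ Icc 1 2, b n * phn n 1‖ ≤ ∑ n ∈ Icc 1 2, ‖b n * phn n 1‖ := norm_sum_le _ _
        _ ≤ ∑ n ∈ Icc 1 2, (1 : ℝ) := sum_le_sum fun n _ => by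
            rw [norm_mul, norm_phn, mul_one]
            exact hb n
        _ = 2 := by simp
    have h2 : ‖∑ n ∈ Icc 1 2, b n * phn n 1‖ ^ q ≤ 2 ^ q :=
      Real.rpow_le_rpow (norm_nonneg _) h1 hq0.le
    have h3 : 0 ≤ (2 : ℝ) ^ q := by positivity
    linarith
  -- the power
  have hT0 : T ≠ 0 := by omega
  set k : ℕ := Nat.log N T with hk
  have hkT : N ^ k ≤ T := Nat.pow_log_le_self N hT0
  have hTk : T < N ^ (k + 1) := Nat.lt_pow_succ_log_self (by omega) T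
  have hk1 : 1 ≤ k := by
    rw [hk, Nat.one_le_iff_ne_zero]
    intro h0
    rw [Nat.log_eq_zero_iff] at h0
    omega
  have hkA : k ≤ ⌊A⌋₊ := by
    apply Nat.le_floor
    have h1 : (N : ℝ) ^ (k : ℝ) ≤ (N : ℝ) ^ A := by
      rw [Real.rpow_natCast]
      refine le_trans ?_ hTA
      exact_mod_cast hkT
    have hN1' : (1 : ℝ) < N := by exact_mod_cast (by omega : 1 < N)
    exact (Real.rpow_le_rpow_left_iff hN1').1 h1
  have hk0 : (0 : ℝ) < k := by exact_mod_cast hk1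
  have hTpos : (0 : ℝ) < T := by exact_mod_cast Nat.pos_of_ne_zero hT0
  have h2k : T ≤ N ^ (2 * k) := hTk.le.trans (Nat.pow_le_pow_right (by omega) (by omega))
  have hmain := hK k hk1 N T hN hkT h2k b hb
  set r : ℝ := max (q / k) 2 with hr
  set P : ℝ := (k : ℝ) * r with hP
  set κ : ℝ := max 1 (2 * |K k|) with hκ
  have hκle : κ ≤ ∑ k ∈ Icc 1 ⌊A⌋₊, max 1 (2 * |K k|) :=
    single_le_sum (f := fun k => max 1 (2 * |K k|))
      (fun _ _ => le_trans zero_le_one (le_max_left _ _)) (mem_Icc.2 ⟨hk1, hkA⟩)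
  have hκ1 : 1 ≤ κ := le_max_left _ _
  have hκ2 : 2 * K k ≤ κ := (by
    have := le_abs_self (K k)
    have h2 : 2 * |K k| ≤ κ := le_max_right _ _
    linarith)
  have hKk : K k ≤ κ := by
    have := hK0 k hk1
    linarith
  have h2q : 0 ≤ (2 : ℝ) ^ q := by positivity
  suffices hs : ∑ t ∈ Icc 1 T, ‖∑ n ∈ Icc N (2 * N), b n * phn n t‖ ^ q ≤
      κ * (N : ℝ) ^ ε * ((N : ℝ) ^ q + (N : ℝ) ^ (q / 2) * (T : ℝ)) by
    refine hs.trans ?_
    have : κ ≤ (2 : ℝ) ^ q + ∑ k ∈ Icc 1 ⌊A⌋₊, max 1 (2 * |K k|) := by linarith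
    gcongr
  rcases le_total 2 (q / k) with hc | hc
  · have hPq : P = q := by
      rw [hP, hr, max_eq_left hc]
      field_simp
    rw [hPq] at hmain
    refine hmain.trans ?_
    gcongr
  · have hP2 : P = 2 * k := by
      rw [hP, hr, max_eq_right hc]
      ring
    have hqP : q ≤ P := by
      rw [hP2]
      rwa [div_le_iff₀ hk0] at hc
    have hP0 : 0 < P := by linarith
    have hNP : (N : ℝ) ^ P ≤ (N : ℝ) ^ (P / 2) * (T : ℝ) := by
      have h1 : (N : ℝ) ^ (P / 2) ≤ T := by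
        have : P / 2 = (k : ℝ) := by rw [hP2]; ring
        rw [this, Real.rpow_natCast]
        exact_mod_cast hkT
      calc (N : ℝ) ^ P = (N : ℝ) ^ (P / 2) * (N : ℝ) ^ (P / 2) := by
            rw [← Real.rpow_add hN0]
            congr 1
            ring
        _ ≤ _ := mul_le_mul_of_nonneg_left h1 (by positivity)
    have hmain2 : ∑ t ∈ Icc 1 T, ‖∑ n ∈ Icc N (2 * N), b n * phn n t‖ ^ P ≤
        κ * (N : ℝ) ^ ε * ((N : ℝ) ^ (P / 2) * (T : ℝ)) := by
      refine hmain.trans ?_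
      calc K k * (N : ℝ) ^ ε * ((N : ℝ) ^ P + (N : ℝ) ^ (P / 2) * (T : ℝ)) ≤
            K k * (N : ℝ) ^ ε * (2 * ((N : ℝ) ^ (P / 2) * (T : ℝ))) := by
            apply mul_le_mul_of_nonneg_left _ (mul_nonneg (hK0 k hk1) (by positivity))
            linarith
        _ = (2 * K k) * ((N : ℝ) ^ ε * ((N : ℝ) ^ (P / 2) * (T : ℝ))) := by ring
        _ ≤ κ * ((N : ℝ) ^ ε * ((N : ℝ) ^ (P / 2) * (T : ℝ))) :=
            mul_le_mul_of_nonneg_right hκ2 (by positivity)
        _ = _ := by ring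
    have hs1 : 1 ≤ P / q := by rwa [one_le_div hq0]
    have h3 := holder (Icc 1 T) (fun t => ‖∑ n ∈ Icc N (2 * N), b n * phn n t‖ ^ q)
      (fun _ _ => by positivity) hs1
    have h4 : ∀ t, (‖∑ n ∈ Icc N (2 * N), b n * phn n t‖ ^ q) ^ (P / q) =
        ‖∑ n ∈ Icc N (2 * N), b n * phn n t‖ ^ P := by
      intro t
      rw [← Real.rpow_mul (norm_nonneg _), mul_div_cancel₀ _ hq0.ne']
    simp only [h4] at h3
    rw [Nat.card_Icc, Nat.add_sub_cancel] at h3
    have h5 : (1 : ℝ) / (P / q) = q / P := by rw [one_div_div]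
    rw [h5] at h3
    have hqP1 : q / P ≤ 1 := by rwa [div_le_one hP0]
    have hqP0 : 0 ≤ q / P := by positivity
    have hNe : (1 : ℝ) ≤ (N : ℝ) ^ ε := Real.one_le_rpow hN1 hε.le
    calc ∑ t ∈ Icc 1 T, ‖∑ n ∈ Icc N (2 * N), b n * phn n t‖ ^ q ≤
          (T : ℝ) ^ (1 - q / P) *
            (∑ t ∈ Icc 1 T, ‖∑ n ∈ Icc N (2 * N), b n * phn n t‖ ^ P) ^ (q / P) := h3
      _ ≤ (T : ℝ) ^ (1 - q / P) *
            ((κ * (N : ℝ) ^ ε) * ((N : ℝ) ^ (P / 2) * (T : ℝ))) ^ (q / P) := by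
          apply mul_le_mul_of_nonneg_left _ (by positivity)
          apply Real.rpow_le_rpow (sum_nonneg fun _ _ => by positivity) _ hqP0
          exact hmain2
      _ = (κ * (N : ℝ) ^ ε) ^ (q / P) * (((N : ℝ) ^ (P / 2)) ^ (q / P) *
            ((T : ℝ) ^ (1 - q / P) * (T : ℝ) ^ (q / P))) := by
          rw [Real.mul_rpow (x := κ * (N : ℝ) ^ ε) (by positivity) (by positivity),
            Real.mul_rpow (x := (N : ℝ) ^ (P / 2)) (y := (T : ℝ)) (by positivity) (by positivity)]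
          ring
      _ = (κ * (N : ℝ) ^ ε) ^ (q / P) * ((N : ℝ) ^ (q / 2) * T) := by
          have e1 : P / 2 * (q / P) = q / 2 := by field_simp
          rw [← Real.rpow_add hTpos, sub_add_cancel, Real.rpow_one, ← Real.rpow_mul hN0.le, e1]
      _ ≤ (κ * (N : ℝ) ^ ε) ^ (1 : ℝ) * ((N : ℝ) ^ (q / 2) * T) := by
          apply mul_le_mul_of_nonneg_right _ (by positivity)
          apply Real.rpow_le_rpow_of_exponent_le _ hqP1
          nlinarith
      _ ≤ _ := by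
          rw [Real.rpow_one]
          have : 0 ≤ (N : ℝ) ^ q := by positivity
          apply mul_le_mul_of_nonneg_left _ (by positivity)
          linarith

theorem lq_main : (MontgomeryLq ↔ BilinearSquareRange) ∧ (MontgomeryLq ↔ MeanValueSquareRange) ∧
    (MontgomeryLq ↔ ForSetsSquareRange) := by
  have h1 : MontgomeryLq → ForSetsSquareRange := by
    intro h q hq _ ε hε
    obtain ⟨K, hK⟩ := h q hq 2 (by norm_num) ε hε
    refine ⟨K, fun N T hN hNT hT b hb => hK N T hN hNT hT b fun n => ?_⟩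
    rcases hb n with h0 | h0 <;> rw [h0] <;> simp
  have h2 : BilinearSquareRange → MontgomeryLq := fun h => montgomeryLq_of (bilinearSq_imp h)
  exact ⟨⟨fun h => restricted_imp (h1 h), h2⟩,
    ⟨fun h => bilinearSq_iff.1 (restricted_imp (h1 h)), fun h => h2 (bilinearSq_iff.2 h)⟩,
    ⟨h1, fun h => h2 (restricted_imp h)⟩⟩

end Pool.Agent.X159.MB
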