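import Pool.Agent.X159.MB.Core

/-!
Montgomery's large value conjecture is equivalent to a bilinear estimate for sets.
-/

set_option autoImplicit false

namespace Pool.Agent.X159.MB

open Finset

/-- `n^{it}` -/
noncomputable def ph (n : ℕ) (t : ℤ) : ℂ :=
  Complex.exp ((((t : ℝ) * Real.log (n : ℝ) : ℝ) : ℂ) * Complex.I)

theorem norm_ph (n : ℕ) (t : ℤ) : ‖ph n t‖ = 1 := Complex.norm_exp_ofReal_mul_I _

/-- The large value bound (the assertion of Q1) for the coefficients with the property `P`. -/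
def LargeValues (P : (ℕ → ℂ) → Prop) : Prop :=
  ∀ A : ℝ, ∀ σ : ℝ, σ > 1 / 2 → ∀ ε : ℝ, ε > 0 → ∃ C : ℝ,
    ∀ N : ℕ, 1 ≤ N → ∀ T : ℝ, (N : ℝ) ≤ T → T ≤ (N : ℝ) ^ A →
    ∀ b : ℕ → ℂ, P b →
    ∀ W : Finset ℤ,
      (∀ t ∈ W, 0 ≤ (t : ℝ) ∧ (t : ℝ) ≤ T ∧
        (N : ℝ) ^ σ < ‖∑ n ∈ Icc N (2 * N), b n * ph n t‖) →
      (W.card : ℝ) ≤ C * (N : ℝ) ^ (2 - 2 * σ + ε)

/-- Q1: coefficients bounded by `1`. -/
def Montgomery : Prop := LargeValues fun b => ∀ n, ‖b n‖ ≤ 1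

/-- The case of the coefficients `0` and `1`. -/
def ForSets : Prop := LargeValues fun b => ∀ n, b n = 0 ∨ b n = 1

/-- The bilinear estimate for a set `S` of integers in `[N, 2N]` and a set `W` of at most `N`
integers in `[0, N^A]`. -/
def Bilinear : Prop :=
  ∀ A : ℝ, 1 ≤ A → ∀ ε : ℝ, 0 < ε → ∃ C : ℝ, ∀ N : ℕ, 1 ≤ N →
    ∀ S ⊆ Icc N (2 * N), ∀ W : Finset ℤ, W.card ≤ N →
      (∀ t ∈ W, 0 ≤ (t : ℝ) ∧ (t : ℝ) ≤ (N : ℝ) ^ A) →
      ‖∑ n ∈ S, ∑ t ∈ W, ph n t‖ ≤ C * (N : ℝ) ^ (1 + ε) * Real.sqrt W.card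

/-- The estimate for the mean value of `|∑_{t ∈ W} n^{it}|` over `N ≤ n ≤ 2N`. -/
def MeanValue : Prop :=
  ∀ A : ℝ, 1 ≤ A → ∀ ε : ℝ, 0 < ε → ∃ C : ℝ, ∀ N : ℕ, 1 ≤ N →
    ∀ W : Finset ℤ, W.card ≤ N →
      (∀ t ∈ W, 0 ≤ (t : ℝ) ∧ (t : ℝ) ≤ (N : ℝ) ^ A) →
      ∑ n ∈ Icc N (2 * N), ‖∑ t ∈ W, ph n t‖ ≤ C * (N : ℝ) ^ (1 + ε) * Real.sqrt W.card

theorem bilinear_iff_meanValue : Bilinear ↔ MeanValue := by
  constructor
  · intro h A hA ε hε
    obtain ⟨C, hC⟩ := h A hA ε hε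
    refine ⟨4 * C, fun N hN W hW hT => ?_⟩
    have := sum_norm_le (Icc N (2 * N)) (fun n => ∑ t ∈ W, ph n t)
      (C * (N : ℝ) ^ (1 + ε) * Real.sqrt W.card) fun S hS => hC N hN S hS W hW hT
    linarith
  · intro h A hA ε hε
    obtain ⟨C, hC⟩ := h A hA ε hε
    refine ⟨C, fun N hN S hS W hW hT => ?_⟩
    calc ‖∑ n ∈ S, ∑ t ∈ W, ph n t‖ ≤ ∑ n ∈ S, ‖∑ t ∈ W, ph n t‖ := norm_sum_le _ _
      _ ≤ ∑ n ∈ Icc N (2 * N), ‖∑ t ∈ W, ph n t‖ :=
        sum_le_sum_of_subset_of_nonneg hS fun _ _ _ => norm_nonneg _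
      _ ≤ _ := hC N hN W hW hT

/-- levels -/
theorem level_le (x : ℝ) (s : ℕ → ℝ) (hs : ∀ j, 0 ≤ s j) (J : ℕ) (hx : x ≤ s J) :
    x ≤ s 0 + ∑ j ∈ range J, (if s j < x then s (j + 1) else 0) := by
  induction J with
  | zero => simpa using hx
  | succ J ih =>
    rw [sum_range_succ]
    have h0 : ∀ K, 0 ≤ ∑ j ∈ range K, (if s j < x then s (j + 1) else 0) := fun K =>
      sum_nonneg fun j _ => by split_ifs <;> [exact hs _; exact le_refl _]
    by_cases h : s J < x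
    · rw [if_pos h]
      have := h0 J
      have := hs 0
      linarith
    · rw [if_neg h]
      have := ih (not_lt.1 h)
      linarith

theorem forSets_imp : ForSets → Bilinear := by
  intro h A hA ε hε
  set δ : ℝ := ε / 2 with hδ
  have hδ0 : 0 < δ := by positivity
  set sg : ℕ → ℝ := fun j => 1 / 2 + ((j : ℝ) + 1) * δ with hsg
  have hsg0 : ∀ j, sg j > 1 / 2 := fun j => by
    have : 0 < ((j : ℝ) + 1) * δ := by positivity
    simp only [hsg]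
    linarith
  choose C hC using fun j => h A (sg j) (hsg0 j) δ hδ0
  set J : ℕ := ⌈2 / δ⌉₊ with hJ
  have hJ2 : 2 ≤ sg J := by
    have h1 : 2 / δ ≤ (J : ℝ) := Nat.le_ceil _
    have h2 : 2 ≤ (J : ℝ) * δ := by rwa [div_le_iff₀ hδ0] at h1
    simp only [hsg]
    nlinarith
  refine ⟨2 + ∑ j ∈ range J, Real.sqrt (max (C j) 0), ?_⟩
  intro N hN S hS W hW hT
  have hN1 : (1 : ℝ) ≤ N := by exact_mod_cast hN
  have hN0 : (0 : ℝ) < N := by linarith
  have hsum0 : 0 ≤ ∑ j ∈ range J, Real.sqrt (max (C j) 0) :=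
    sum_nonneg fun _ _ => Real.sqrt_nonneg _
  have hRN : (W.card : ℝ) ≤ N := by exact_mod_cast hW
  have hR0 : (0 : ℝ) ≤ W.card := Nat.cast_nonneg _
  have hpow1 : (1 : ℝ) ≤ (N : ℝ) ^ (1 + ε) := Real.one_le_rpow hN1 (by linarith)
  have hScard : (S.card : ℝ) ≤ N + 1 := by
    have := card_le_card hS
    rw [Nat.card_Icc] at this
    have h2 : S.card ≤ N + 1 := by omega
    exact_mod_cast h2
  rcases Nat.lt_or_ge N 2 with hN2 | hN2
  · have hN' : N = 1 := by omega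
    have h1 : ‖∑ n ∈ S, ∑ t ∈ W, ph n t‖ ≤ S.card * W.card := by
      calc ‖∑ n ∈ S, ∑ t ∈ W, ph n t‖ ≤ ∑ n ∈ S, ‖∑ t ∈ W, ph n t‖ := norm_sum_le _ _
        _ ≤ ∑ n ∈ S, (W.card : ℝ) := sum_le_sum fun n _ => by
            calc ‖∑ t ∈ W, ph n t‖ ≤ ∑ t ∈ W, ‖ph n t‖ := norm_sum_le _ _
              _ = W.card := by simp [norm_ph]
        _ = _ := by simp
    have h2 : (W.card : ℝ) ≤ Real.sqrt W.card := by
      rw [hN'] at hW
      interval_cases h3 : W.card <;> simp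
    rw [hN'] at hScard ⊢
    calc ‖∑ n ∈ S, ∑ t ∈ W, ph n t‖ ≤ S.card * W.card := h1
      _ ≤ 2 * Real.sqrt W.card := by
        have : (S.card : ℝ) ≤ 2 := by
          push_cast at hScard
          linarith
        exact mul_le_mul this h2 hR0 (by norm_num)
      _ ≤ _ := by
        have := mul_nonneg hsum0 (Real.sqrt_nonneg (W.card : ℝ))
        simp only [Nat.cast_one, Real.one_rpow, mul_one]
        nlinarith [Real.sqrt_nonneg (W.card : ℝ)]
  -- the polynomial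
  set b : ℕ → ℂ := fun n => if n ∈ S then 1 else 0 with hb
  set D : ℤ → ℂ := fun t => ∑ n ∈ Icc N (2 * N), b n * ph n t with hD
  have hDS : ∀ t, D t = ∑ n ∈ S, ph n t := by
    intro t
    simp only [hD, hb, ite_mul, one_mul, zero_mul]
    rw [sum_ite_mem, inter_eq_right.2 hS]
  have hDle : ∀ t, ‖D t‖ ≤ (N : ℝ) ^ sg J := by
    intro t
    rw [hDS]
    calc ‖∑ n ∈ S, ph n t‖ ≤ ∑ n ∈ S, ‖ph n t‖ := norm_sum_le _ _
      _ = S.card := by simp [norm_ph]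
      _ ≤ N + 1 := hScard
      _ ≤ (N : ℝ) ^ (2 : ℝ) := by
        have : (2 : ℝ) ≤ N := by exact_mod_cast hN2
        rw [Real.rpow_two]
        nlinarith
      _ ≤ _ := Real.rpow_le_rpow_of_exponent_le hN1 hJ2
  have hcard : ∀ j, ((W.filter (fun t => (N : ℝ) ^ sg j < ‖D t‖)).card : ℝ) ≤
      max (C j) 0 * (N : ℝ) ^ (2 - 2 * sg j + δ) := by
    intro j
    have h1 := hC j N hN ((N : ℝ) ^ A)
      (by
        calc (N : ℝ) = (N : ℝ) ^ (1 : ℝ) := (Real.rpow_one _).symm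
          _ ≤ _ := Real.rpow_le_rpow_of_exponent_le hN1 hA) le_rfl b
      (fun n => by
        simp only [hb]
        by_cases hn : n ∈ S
        · right; simp [hn]
        · left; simp [hn]) (W.filter (fun t => (N : ℝ) ^ sg j < ‖D t‖))
      (fun t ht => by
        rw [mem_filter] at ht
        exact ⟨(hT t ht.1).1, (hT t ht.1).2, ht.2⟩)
    exact h1.trans (mul_le_mul_of_nonneg_right (le_max_left _ _) (by positivity))
  have hterm : ∀ j, ((W.filter (fun t => (N : ℝ) ^ sg j < ‖D t‖)).card : ℝ) *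
      (N : ℝ) ^ sg (j + 1) ≤ Real.sqrt (max (C j) 0) * ((N : ℝ) ^ (1 + ε) * Real.sqrt W.card) := by
    intro j
    set r : ℝ := ((W.filter (fun t => (N : ℝ) ^ sg j < ‖D t‖)).card : ℝ) with hr
    have hr0 : 0 ≤ r := Nat.cast_nonneg _
    have hrR : r ≤ W.card := by
      rw [hr]
      exact_mod_cast card_le_card (filter_subset _ _)
    have h1 := hcard j
    set c : ℝ := max (C j) 0 with hc
    have hc0 : 0 ≤ c := le_max_right _ _
    have h2 : r ≤ Real.sqrt W.card * (Real.sqrt c * (N : ℝ) ^ (1 - sg j + δ / 2)) := by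
      have h3 : r * r ≤ W.card * (c * (N : ℝ) ^ (2 - 2 * sg j + δ)) :=
        mul_le_mul hrR h1 hr0 hR0
      have h4 : (N : ℝ) ^ (2 - 2 * sg j + δ) =
          (N : ℝ) ^ (1 - sg j + δ / 2) * (N : ℝ) ^ (1 - sg j + δ / 2) := by
        rw [← Real.rpow_add hN0]
        congr 1
        ring
      apply abs_le_of_sq_le_sq' _ (by positivity) |>.2
      calc r ^ 2 = r * r := by ring
        _ ≤ W.card * (c * (N : ℝ) ^ (2 - 2 * sg j + δ)) := h3
        _ = (Real.sqrt W.card * (Real.sqrt c * (N : ℝ) ^ (1 - sg j + δ / 2))) ^ 2 := by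
          rw [h4, mul_pow, mul_pow, Real.sq_sqrt hR0, Real.sq_sqrt hc0]
          ring
    have h5 : (N : ℝ) ^ sg (j + 1) = (N : ℝ) ^ (sg j + δ) := by
      congr 1
      simp only [hsg]
      push_cast
      ring
    have h6 : (N : ℝ) ^ (1 - sg j + δ / 2) * (N : ℝ) ^ (sg j + δ) ≤ (N : ℝ) ^ (1 + ε) := by
      rw [← Real.rpow_add hN0]
      apply Real.rpow_le_rpow_of_exponent_le hN1
      have : ε = 2 * δ := by rw [hδ]; ring
      linarith
    rw [h5]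
    calc r * (N : ℝ) ^ (sg j + δ) ≤
          (Real.sqrt W.card * (Real.sqrt c * (N : ℝ) ^ (1 - sg j + δ / 2))) *
            (N : ℝ) ^ (sg j + δ) := mul_le_mul_of_nonneg_right h2 (by positivity)
      _ = Real.sqrt c * (((N : ℝ) ^ (1 - sg j + δ / 2) * (N : ℝ) ^ (sg j + δ)) *
            Real.sqrt W.card) := by ring
      _ ≤ _ := by gcongr
  have hfirst : (W.card : ℝ) * (N : ℝ) ^ sg 0 ≤ (N : ℝ) ^ (1 + ε) * Real.sqrt W.card := by
    have h1 : (W.card : ℝ) ≤ Real.sqrt W.card * (N : ℝ) ^ ((1 : ℝ) / 2) := by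
      rw [← Real.sqrt_eq_rpow]
      calc (W.card : ℝ) = Real.sqrt W.card * Real.sqrt W.card := (Real.mul_self_sqrt hR0).symm
        _ ≤ _ := mul_le_mul_of_nonneg_left (Real.sqrt_le_sqrt hRN) (Real.sqrt_nonneg _)
    calc (W.card : ℝ) * (N : ℝ) ^ sg 0 ≤
          (Real.sqrt W.card * (N : ℝ) ^ ((1 : ℝ) / 2)) * (N : ℝ) ^ sg 0 :=
          mul_le_mul_of_nonneg_right h1 (by positivity)
      _ = ((N : ℝ) ^ ((1 : ℝ) / 2) * (N : ℝ) ^ sg 0) * Real.sqrt W.card := by ring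
      _ ≤ _ := by
        apply mul_le_mul_of_nonneg_right _ (Real.sqrt_nonneg _)
        rw [← Real.rpow_add hN0]
        apply Real.rpow_le_rpow_of_exponent_le hN1
        simp only [hsg]
        push_cast
        linarith
  have hmain : ‖∑ n ∈ S, ∑ t ∈ W, ph n t‖ ≤ (W.card : ℝ) * (N : ℝ) ^ sg 0 +
      ∑ j ∈ range J, ((W.filter (fun t => (N : ℝ) ^ sg j < ‖D t‖)).card : ℝ) *
        (N : ℝ) ^ sg (j + 1) := by
    rw [sum_comm]
    calc ‖∑ t ∈ W, ∑ n ∈ S, ph n t‖ ≤ ∑ t ∈ W, ‖∑ n ∈ S, ph n t‖ := norm_sum_le _ _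
      _ = ∑ t ∈ W, ‖D t‖ := sum_congr rfl fun t _ => by rw [hDS]
      _ ≤ ∑ t ∈ W, ((N : ℝ) ^ sg 0 +
          ∑ j ∈ range J, (if (N : ℝ) ^ sg j < ‖D t‖ then (N : ℝ) ^ sg (j + 1) else 0)) :=
        sum_le_sum fun t _ => level_le ‖D t‖ (fun j => (N : ℝ) ^ sg j) (fun j => by positivity) J
          (hDle t)
      _ = _ := by
        rw [sum_add_distrib, sum_const, nsmul_eq_mul, sum_comm]
        congr 1
        apply sum_congr rfl
        intro j _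
        rw [← sum_filter, sum_const, nsmul_eq_mul]
  calc ‖∑ n ∈ S, ∑ t ∈ W, ph n t‖ ≤ _ := hmain
    _ ≤ (N : ℝ) ^ (1 + ε) * Real.sqrt W.card +
        ∑ j ∈ range J, Real.sqrt (max (C j) 0) * ((N : ℝ) ^ (1 + ε) * Real.sqrt W.card) :=
      add_le_add hfirst (sum_le_sum fun j _ => hterm j)
    _ = (1 + ∑ j ∈ range J, Real.sqrt (max (C j) 0)) * ((N : ℝ) ^ (1 + ε) * Real.sqrt W.card) := by
      rw [← sum_mul]
      ring
    _ ≤ (2 + ∑ j ∈ range J, Real.sqrt (max (C j) 0)) * ((N : ℝ) ^ (1 + ε) * Real.sqrt W.card) := by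
      apply mul_le_mul_of_nonneg_right _ (by positivity)
      linarith
    _ = _ := by ring

theorem card_int_le (T : ℝ) (hT : 0 ≤ T) (W : Finset ℤ)
    (h : ∀ t ∈ W, 0 ≤ (t : ℝ) ∧ (t : ℝ) ≤ T) : (W.card : ℝ) ≤ T + 1 := by
  have h1 : W ⊆ Icc 0 ⌊T⌋ := by
    intro t ht
    rw [mem_Icc]
    exact ⟨by exact_mod_cast (h t ht).1, Int.le_floor.2 (h t ht).2⟩
  have h2 := card_le_card h1
  rw [Int.card_Icc] at h2
  have h3 : (0 : ℤ) ≤ ⌊T⌋ := Int.floor_nonneg.2 hT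
  have h4 : ((⌊T⌋ + 1 - 0).toNat : ℝ) = (⌊T⌋ : ℝ) + 1 := by
    have : ((⌊T⌋ + 1 - 0).toNat : ℤ) = ⌊T⌋ + 1 := by
      rw [Int.toNat_of_nonneg (by omega)]
      ring
    exact_mod_cast this
  calc (W.card : ℝ) ≤ ((⌊T⌋ + 1 - 0).toNat : ℝ) := by exact_mod_cast h2
    _ = (⌊T⌋ : ℝ) + 1 := h4
    _ ≤ T + 1 := by
      have := Int.floor_le T
      linarith

theorem bilinear_imp : Bilinear → Montgomery := by
  intro h A σ hσ ε hε
  set A' : ℝ := max A 1 with hA'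
  set ε' : ℝ := min (ε / 2) ((2 * σ - 1) / 4) with hε'
  have hε'0 : 0 < ε' := lt_min (by positivity) (by linarith)
  have hε1 : 2 * ε' ≤ ε := by
    have := min_le_left (ε / 2) ((2 * σ - 1) / 4)
    rw [← hε'] at this
    linarith
  have hε2 : 2 * ε' ≤ (2 * σ - 1) / 2 := by
    have := min_le_right (ε / 2) ((2 * σ - 1) / 4)
    rw [← hε'] at this
    linarith
  obtain ⟨C₀, hC₀⟩ := h A' (le_max_right _ _) ε' hε'0
  set C : ℝ := max C₀ 0 with hCdef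
  have hC0 : 0 ≤ C := le_max_right _ _
  set Q : ℝ := (16 * C) ^ 2 with hQ
  have hQ0 : 0 ≤ Q := by positivity
  set κ : ℝ := (2 * σ - 1) / 2 with hκ
  have hκ0 : 0 < κ := by rw [hκ]; linarith
  set N₀ : ℕ := ⌈Q ^ (1 / κ)⌉₊ with hN₀
  set K : ℝ := ∑ n ∈ range (N₀ + 1), ((n : ℝ) ^ A + 1) / (n : ℝ) ^ (2 - 2 * σ + ε) with hK
  have hK0 : 0 ≤ K := sum_nonneg fun n _ => by positivity
  refine ⟨Q + K, ?_⟩
  intro N hN T hNT hTA b hb W hW
  have hN1 : (1 : ℝ) ≤ N := by exact_mod_cast hN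
  have hN0 : (0 : ℝ) < N := by linarith
  have hTA' : T ≤ (N : ℝ) ^ A' :=
    hTA.trans (Real.rpow_le_rpow_of_exponent_le hN1 (le_max_left _ _))
  -- the bound for subsets with at most `N` elements
  have key : ∀ V ⊆ W, V.card ≤ N → (V.card : ℝ) ≤ Q * (N : ℝ) ^ (2 - 2 * σ + 2 * ε') := by
    intro V hV hVN
    rcases Nat.eq_zero_or_pos V.card with h0 | h0
    · rw [h0]
      simp only [Nat.cast_zero]
      positivity
    have hV0 : (0 : ℝ) < V.card := by exact_mod_cast h0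
    have h1 : ∑ t ∈ V, ‖∑ n ∈ Icc N (2 * N), b n * ph n t‖ ≤
        16 * (C * (N : ℝ) ^ (1 + ε') * Real.sqrt V.card) := by
      apply sum_norm_poly_le (Icc N (2 * N)) V ph _ _ b hb
      intro S hS U hU
      have hUc : U.card ≤ V.card := card_le_card hU
      calc ‖∑ n ∈ S, ∑ t ∈ U, ph n t‖ ≤ C₀ * (N : ℝ) ^ (1 + ε') * Real.sqrt U.card :=
            hC₀ N hN S hS U (hUc.trans hVN) fun t ht =>
              ⟨(hW t (hV (hU ht))).1, (hW t (hV (hU ht))).2.1.trans hTA'⟩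
        _ ≤ C * (N : ℝ) ^ (1 + ε') * Real.sqrt V.card := by
          have : Real.sqrt U.card ≤ Real.sqrt V.card := Real.sqrt_le_sqrt (by exact_mod_cast hUc)
          have h3 : C₀ ≤ C := le_max_left _ _
          gcongr
    have h2 : (V.card : ℝ) * (N : ℝ) ^ σ ≤ ∑ t ∈ V, ‖∑ n ∈ Icc N (2 * N), b n * ph n t‖ := by
      rw [← nsmul_eq_mul]
      exact card_nsmul_le_sum _ _ _ fun t ht => (hW t (hV ht)).2.2.le
    have h3 : Real.sqrt V.card * (N : ℝ) ^ σ ≤ 16 * C * (N : ℝ) ^ (1 + ε') := by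
      have h4 : 0 < Real.sqrt V.card := Real.sqrt_pos.2 hV0
      have h5 : Real.sqrt V.card * (Real.sqrt V.card * (N : ℝ) ^ σ) ≤
          Real.sqrt V.card * (16 * C * (N : ℝ) ^ (1 + ε')) := by
        rw [← mul_assoc, Real.mul_self_sqrt hV0.le]
        calc (V.card : ℝ) * (N : ℝ) ^ σ ≤ _ := h2
          _ ≤ _ := h1
          _ = _ := by ring
      exact le_of_mul_le_mul_left h5 h4
    have h6 : Real.sqrt V.card ≤ 16 * C * (N : ℝ) ^ (1 - σ + ε') := by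
      have h7 : (N : ℝ) ^ (1 + ε') = (N : ℝ) ^ (1 - σ + ε') * (N : ℝ) ^ σ := by
        rw [← Real.rpow_add hN0]
        congr 1
        ring
      rw [h7, ← mul_assoc] at h3
      exact le_of_mul_le_mul_right h3 (by positivity)
    calc (V.card : ℝ) = Real.sqrt V.card ^ 2 := (Real.sq_sqrt hV0.le).symm
      _ ≤ (16 * C * (N : ℝ) ^ (1 - σ + ε')) ^ 2 :=
        pow_le_pow_left₀ (Real.sqrt_nonneg _) h6 2
      _ = Q * (N : ℝ) ^ (2 - 2 * σ + 2 * ε') := by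
        rw [mul_pow, ← Real.rpow_natCast ((N : ℝ) ^ (1 - σ + ε')) 2, ← Real.rpow_mul hN0.le]
        congr 2
        push_cast
        ring
  have hpos : 0 < (N : ℝ) ^ (2 - 2 * σ + ε) := by positivity
  rcases Nat.lt_or_ge N W.card with hlarge | hsmall
  · -- `N` is bounded
    obtain ⟨V, hV, hVc⟩ := exists_subset_card_eq hlarge.le
    have h1 := key V hV hVc.le
    rw [hVc] at h1
    have h2 : (N : ℝ) ^ κ ≤ Q := by
      have h3 : (N : ℝ) = (N : ℝ) ^ κ * (N : ℝ) ^ (1 - κ) := by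
        rw [← Real.rpow_add hN0]
        simp
      have h4 : (N : ℝ) ^ κ * (N : ℝ) ^ (1 - κ) ≤ Q * (N : ℝ) ^ (1 - κ) := by
        rw [← h3]
        refine h1.trans ?_
        apply mul_le_mul_of_nonneg_left _ hQ0
        apply Real.rpow_le_rpow_of_exponent_le hN1
        rw [hκ]
        linarith
      exact le_of_mul_le_mul_right h4 (by positivity)
    have h5 : (N : ℝ) ≤ Q ^ (1 / κ) := by
      calc (N : ℝ) = ((N : ℝ) ^ κ) ^ (1 / κ) := by
            rw [← Real.rpow_mul hN0.le, mul_one_div_cancel hκ0.ne', Real.rpow_one]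
        _ ≤ Q ^ (1 / κ) := Real.rpow_le_rpow (by positivity) h2 (by positivity)
    have h6 : N ≤ N₀ := by
      have : (N : ℝ) ≤ N₀ := h5.trans (Nat.le_ceil _)
      exact_mod_cast this
    have h7 : ((N : ℝ) ^ A + 1) / (N : ℝ) ^ (2 - 2 * σ + ε) ≤ K :=
      single_le_sum (f := fun n : ℕ => ((n : ℝ) ^ A + 1) / (n : ℝ) ^ (2 - 2 * σ + ε))
        (fun n _ => by positivity) (mem_range.2 (by omega))
    have h8 : (W.card : ℝ) ≤ (N : ℝ) ^ A + 1 := by
      have := card_int_le T (by linarith) W fun t ht => ⟨(hW t ht).1, (hW t ht).2.1⟩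
      linarith
    calc (W.card : ℝ) ≤ (N : ℝ) ^ A + 1 := h8
      _ ≤ K * (N : ℝ) ^ (2 - 2 * σ + ε) := (div_le_iff₀ hpos).1 h7
      _ ≤ (Q + K) * (N : ℝ) ^ (2 - 2 * σ + ε) :=
        mul_le_mul_of_nonneg_right (by linarith) hpos.le
  · calc (W.card : ℝ) ≤ Q * (N : ℝ) ^ (2 - 2 * σ + 2 * ε') := key W (Subset.refl _) hsmall
      _ ≤ Q * (N : ℝ) ^ (2 - 2 * σ + ε) := by
        apply mul_le_mul_of_nonneg_left _ hQ0
        exact Real.rpow_le_rpow_of_exponent_le hN1 (by linarith)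
      _ ≤ (Q + K) * (N : ℝ) ^ (2 - 2 * σ + ε) :=
        mul_le_mul_of_nonneg_right (by linarith) hpos.le

theorem montgomery_imp_forSets : Montgomery → ForSets := by
  intro h A σ hσ ε hε
  obtain ⟨C, hC⟩ := h A σ hσ ε hε
  refine ⟨C, fun N hN T hNT hTA b hb W hW => hC N hN T hNT hTA b ?_ W hW⟩
  intro n
  rcases hb n with h0 | h0 <;> rw [h0] <;> simp

theorem main : (Montgomery ↔ Bilinear) ∧ (Montgomery ↔ MeanValue) ∧ (Montgomery ↔ ForSets) :=
  ⟨⟨fun h => forSets_imp (montgomery_imp_forSets h), bilinear_imp⟩,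
    ⟨fun h => bilinear_iff_meanValue.1 (forSets_imp (montgomery_imp_forSets h)),
      fun h => bilinear_imp (bilinear_iff_meanValue.2 h)⟩,
    ⟨montgomery_imp_forSets, fun h => bilinear_imp (forSets_imp h)⟩⟩

end Pool.Agent.X159.MB
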