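import Pool.Agent.X159.WM.Sift
import Mathlib.NumberTheory.Harmonic.Bounds

/-!
Sets of integers whose dilates cover the integers, with `∑ d^(-1/2) ≤ C_ε N^ε`: the squarefree
integers without prime factors in thin sets of primes.
-/

set_option autoImplicit false

namespace Pool.Agent.X159.MB

open Finset WM

/-- every integer of `[N, 2N]` is `d a` with `a ∈ 𝒜 ⌈N/d⌉`, where `∑ d^(-1/2) ≤ C_ε N^ε` -/
def Covers (𝒜 : ℕ → Set ℕ) : Prop :=
  ∃ D : ℕ → Finset ℕ, (∀ N : ℕ, 1 ≤ N → ∀ n ∈ Icc N (2 * N),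
      ∃ d ∈ D N, ∃ a ∈ 𝒜 ((N + d - 1) / d), n = d * a) ∧
    ∀ ε : ℝ, 0 < ε → ∃ C : ℝ, ∀ N : ℕ, 1 ≤ N → ∑ d ∈ D N, rs d ≤ C * (N : ℝ) ^ ε

/-- `∑_{p ∈ P_N, p ≤ 2N} p^(-1/2) = o(log N)` and `P_M ⊆ P_N` for `M ≤ N` -/
def Thin (P : ℕ → Set ℕ) : Prop :=
  (∀ N, ∀ p ∈ P N, p.Prime) ∧ (∀ M N, M ≤ N → P M ⊆ P N) ∧
  ∀ ε : ℝ, 0 < ε → ∃ C : ℝ, ∀ N : ℕ, 1 ≤ N → ∀ Q : Finset ℕ, (∀ p ∈ Q, p ∈ P N ∧ p ≤ 2 * N) →
    ∑ p ∈ Q, (p : ℝ) ^ (-(1 / 2 : ℝ)) ≤ ε * Real.log N + C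

/-- the squarefree integers without prime factors in `P N` -/
def rough (P : ℕ → Set ℕ) (N : ℕ) : Set ℕ := {n | Squarefree n ∧ ∀ p ∈ P N, ¬ p ∣ n}

theorem cover_rough (P : Set ℕ) (hP : ∀ p ∈ P, p.Prime) : ∀ n : ℕ, 1 ≤ n →
    ∃ s a : ℕ, n = s * a ∧ s ≠ 0 ∧ (∀ p, p.Prime → p ∣ s → p ∈ P) ∧ ∀ p ∈ P, ¬ p ∣ a := by
  intro n
  induction n using Nat.strong_induction_on with
  | _ n ih =>
    intro hn
    by_cases h : ∀ p ∈ P, ¬ p ∣ n
    · refine ⟨1, n, (one_mul n).symm, one_ne_zero, fun p hp hd => ?_, h⟩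
      exact absurd (Nat.dvd_one.1 hd) hp.one_lt.ne'
    · push Not at h
      obtain ⟨p, hp, m, hm⟩ := h
      have hpp := hP p hp
      have hm0 : m ≠ 0 := fun h0 => by rw [h0, mul_zero] at hm; omega
      have hlt : m < n := by
        rw [hm]
        exact lt_mul_of_one_lt_left (Nat.pos_of_ne_zero hm0) hpp.one_lt
      obtain ⟨s, a, hsa, hs0, hs, ha⟩ := ih m hlt (Nat.one_le_iff_ne_zero.2 hm0)
      refine ⟨p * s, a, by rw [hm, hsa, mul_assoc], mul_ne_zero hpp.ne_zero hs0,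
        fun q hq hd => ?_, ha⟩
      rcases (hq.dvd_mul).1 hd with hd | hd
      · rw [(Nat.prime_dvd_prime_iff_eq hq hpp).1 hd]
        exact hp
      · exact hs q hq hd

theorem sum_ind_le (P : Set ℕ) (X : ℕ) :
    ∃ Q : Finset ℕ, (∀ p ∈ Q, p.Prime ∧ p ∈ P ∧ p ≤ X) ∧
      ∑ d ∈ Icc 1 X, ind P d * rs d ≤ Real.exp (4 * ∑ p ∈ Q, rs p) := by
  classical
  set T : Finset ℕ := (Finset.range (X + 1)).filter (fun p => p ∈ P) with hT
  refine ⟨T.filter Nat.Prime, fun p hp => ?_, ?_⟩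
  · rw [Finset.mem_filter, hT, Finset.mem_filter, Finset.mem_range] at hp
    exact ⟨hp.2, hp.1.2, by omega⟩
  have hgeo := EulerProduct.summable_and_hasSum_factoredNumbers_prod_filter_prime_geometric
    (f := (rs : ℕ →* ℝ)) (fun {p} hp => by
      change ‖rs p‖ < 1
      rw [Real.norm_of_nonneg (rs_nonneg p)]
      have := rs_prime_le hp
      linarith) T
  have hsum : Summable (fun m : Nat.factoredNumbers T => rs m) := hgeo.2.summable
  have hind : Summable ((Nat.factoredNumbers T).indicator fun m : ℕ => rs m) :=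
    summable_subtype_iff_indicator.1 hsum
  have h1 : ∑ d ∈ Icc 1 X, ind P d * rs d ≤
      ∑ d ∈ Icc 1 X, (Nat.factoredNumbers T).indicator (fun m : ℕ => rs m) d := by
    apply Finset.sum_le_sum
    intro d hd
    rw [Finset.mem_Icc] at hd
    by_cases hdP : d ≠ 0 ∧ ∀ p, p.Prime → p ∣ d → p ∈ P
    · rw [Set.indicator_of_mem, ind_apply, if_pos hdP, one_mul]
      rw [Nat.mem_factoredNumbers]
      refine ⟨hdP.1, fun p hp => ?_⟩
      rw [Nat.mem_primeFactorsList hdP.1] at hp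
      rw [hT, Finset.mem_filter, Finset.mem_range]
      refine ⟨?_, hdP.2 p hp.1 hp.2⟩
      have h2 := Nat.le_of_dvd (Nat.pos_of_ne_zero hdP.1) hp.2
      omega
    · rw [ind_apply, if_neg hdP, zero_mul]
      exact Set.indicator_nonneg (fun m _ => rs_nonneg m) d
  have h2 : ∑ d ∈ Icc 1 X, (Nat.factoredNumbers T).indicator (fun m : ℕ => rs m) d ≤
      ∑' d, (Nat.factoredNumbers T).indicator (fun m : ℕ => rs m) d :=
    hind.sum_le_tsum _ fun d _ => Set.indicator_nonneg (fun m _ => rs_nonneg m) d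
  have h3 : ∑' d, (Nat.factoredNumbers T).indicator (fun m : ℕ => rs m) d =
      ∏ p ∈ T with p.Prime, (1 - rs p)⁻¹ := by
    rw [← _root_.tsum_subtype]
    exact hgeo.2.tsum_eq
  have h4 : ∏ p ∈ T with p.Prime, (1 - rs p)⁻¹ ≤ ∏ p ∈ T with p.Prime, Real.exp (4 * rs p) := by
    apply Finset.prod_le_prod
    · intro p hp
      rw [Finset.mem_filter] at hp
      have := rs_prime_le hp.2
      have : 0 < 1 - rs p := by linarith
      positivity
    · intro p hp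
      rw [Finset.mem_filter] at hp
      have h5 := rs_prime_le hp.2
      have h6 := rs_nonneg p
      have h7 : 0 < 1 - rs p := by linarith
      rw [inv_le_iff_one_le_mul₀ h7]
      have h8 : 1 + 4 * rs p ≤ Real.exp (4 * rs p) := by
        have := Real.add_one_le_exp (4 * rs p)
        linarith
      have h9 : 1 ≤ (1 - rs p) * (1 + 4 * rs p) := by nlinarith
      have h10 : (1 - rs p) * (1 + 4 * rs p) ≤ (1 - rs p) * Real.exp (4 * rs p) :=
        mul_le_mul_of_nonneg_left h8 h7.le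
      nlinarith
  rw [← Real.exp_sum, ← Finset.mul_sum] at h4
  linarith

open scoped Classical in
/-- the dilations `m² s` -/
noncomputable def dil (P : ℕ → Set ℕ) (N : ℕ) : Finset ℕ :=
  ((Icc 1 (2 * N)) ×ˢ ((Icc 1 (2 * N)).filter
    (fun s => ∀ p, p.Prime → p ∣ s → p ∈ P N))).image (fun x => x.1 ^ 2 * x.2)

theorem sum_dil (P : ℕ → Set ℕ) (N : ℕ) :
    ∑ d ∈ dil P N, rs d ≤ (∑ m ∈ Icc 1 (2 * N), (m : ℝ)⁻¹) *
      ∑ s ∈ Icc 1 (2 * N), ind (P N) s * rs s := by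
  classical
  unfold dil
  refine (Finset.sum_image_le_of_nonneg (f := fun d => rs d) (fun u _ => rs_nonneg u)).trans ?_
  rw [Finset.sum_product]
  rw [Finset.sum_mul]
  apply Finset.sum_le_sum
  intro m _
  rw [Finset.mul_sum, Finset.sum_filter]
  apply Finset.sum_le_sum
  intro s hs
  rw [Finset.mem_Icc] at hs
  have h1 : rs (m ^ 2 * s) = (m : ℝ)⁻¹ * rs s := by
    rw [map_mul, map_pow]
    congr 1
    rw [rs_apply, Real.rpow_neg (Nat.cast_nonneg _), ← Real.sqrt_eq_rpow, inv_pow,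
      Real.sq_sqrt (Nat.cast_nonneg _)]
  split_ifs with h
  · rw [h1, ind_apply, if_pos ⟨by omega, h⟩, one_mul]
  · exact mul_nonneg (by positivity) (mul_nonneg (ind_nonneg _ _) (rs_nonneg s))

theorem covers_rough (P : ℕ → Set ℕ) (hP : Thin P) : Covers (rough P) := by
  classical
  obtain ⟨hprime, hmono, hthin⟩ := hP
  refine ⟨dil P, ?_, ?_⟩
  · intro N hN n hn
    rw [Finset.mem_Icc] at hn
    obtain ⟨a0, b, ha0, hb, hab, hsq⟩ := Nat.sq_mul_squarefree_of_pos (n := n) (by omega)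
    obtain ⟨s, a, hsa, hs0, hs, ha⟩ := cover_rough (P N) (hprime N) a0 ha0
    have ha1 : a ≠ 0 := by
      rintro rfl
      rw [mul_zero] at hsa
      omega
    have hn' : n = b ^ 2 * s * a := by rw [← hab, hsa, mul_assoc]
    have hbn : b ≤ n := by
      calc b ≤ b ^ 2 := Nat.le_self_pow (by norm_num) b
        _ ≤ b ^ 2 * a0 := Nat.le_mul_of_pos_right _ ha0
        _ = n := hab
    have hsn : s ≤ n := by
      calc s ≤ s * a := Nat.le_mul_of_pos_right _ (Nat.pos_of_ne_zero ha1)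
        _ = a0 := hsa.symm
        _ ≤ b ^ 2 * a0 := Nat.le_mul_of_pos_left _ (by positivity)
        _ = n := hab
    have hd0 : 0 < b ^ 2 * s := Nat.mul_pos (by positivity) (Nat.pos_of_ne_zero hs0)
    refine ⟨b ^ 2 * s, ?_, a, ⟨?_, fun p hp => ?_⟩, hn'⟩
    · unfold dil
      rw [Finset.mem_image]
      refine ⟨(b, s), ?_, rfl⟩
      rw [Finset.mem_product, Finset.mem_filter, Finset.mem_Icc, Finset.mem_Icc]
      exact ⟨⟨hb, by omega⟩, ⟨Nat.pos_of_ne_zero hs0, by omega⟩, hs⟩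
    · exact hsq.squarefree_of_dvd ⟨s, by rw [hsa, mul_comm]⟩
    · apply ha
      apply hmono _ N _ hp
      apply Nat.div_le_of_le_mul
      obtain ⟨e, he⟩ : ∃ e, b ^ 2 * s = e + 1 := ⟨b ^ 2 * s - 1, by omega⟩
      obtain ⟨m, hm⟩ : ∃ m, N = m + 1 := ⟨N - 1, by omega⟩
      rw [he, hm]
      have h1 : (e + 1) * (m + 1) = e * m + e + m + 1 := by ring
      have h2 : m + 1 + (e + 1) - 1 = e + m + 1 := by omega
      rw [h1, h2]
      have : 0 ≤ e * m := Nat.zero_le _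
      omega
  · intro ε hε
    obtain ⟨C, hC⟩ := hthin (ε / 8) (by positivity)
    refine ⟨(1 + 4 / ε) * Real.exp (4 * C) * 2 ^ (ε / 2), fun N hN => ?_⟩
    have hN1 : (1 : ℝ) ≤ N := by exact_mod_cast hN
    have hN0 : (0 : ℝ) < N := by linarith
    obtain ⟨Q, hQ, hsum⟩ := sum_ind_le (P N) (2 * N)
    have h1 : ∑ s ∈ Icc 1 (2 * N), ind (P N) s * rs s ≤ Real.exp (4 * C) * (N : ℝ) ^ (ε / 2) := by
      refine hsum.trans ?_
      have h2 := hC N hN Q (fun p hp => ⟨(hQ p hp).2.1, (hQ p hp).2.2⟩)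
      have h3 : ∑ p ∈ Q, rs p ≤ ε / 8 * Real.log N + C := h2
      calc Real.exp (4 * ∑ p ∈ Q, rs p) ≤ Real.exp (4 * C + Real.log N * (ε / 2)) := by
            apply Real.exp_le_exp.2
            linarith
        _ = _ := by
            rw [Real.exp_add, Real.rpow_def_of_pos hN0]
    have h4 : ∑ m ∈ Icc 1 (2 * N), (m : ℝ)⁻¹ ≤ (1 + 4 / ε) * (2 ^ (ε / 2) * (N : ℝ) ^ (ε / 2)) := by
      have h5 := harmonic_le_one_add_log (2 * N)
      rw [harmonic_eq_sum_Icc] at h5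
      push_cast at h5
      have h6 : Real.log (2 * (N : ℝ)) ≤ (2 * (N : ℝ)) ^ (ε / 2) / (ε / 2) :=
        Real.log_le_rpow_div (by positivity) (by positivity)
      have h7 : (2 * (N : ℝ)) ^ (ε / 2) = 2 ^ (ε / 2) * (N : ℝ) ^ (ε / 2) :=
        Real.mul_rpow (by norm_num) hN0.le
      have h8 : 1 ≤ (2 * (N : ℝ)) ^ (ε / 2) := Real.one_le_rpow (by linarith) (by positivity)
      rw [← h7]
      have h9 : (2 * (N : ℝ)) ^ (ε / 2) / (ε / 2) = 2 / ε * (2 * (N : ℝ)) ^ (ε / 2) := by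
        field_simp
      have h10 : 0 ≤ 2 / ε * (2 * (N : ℝ)) ^ (ε / 2) := by positivity
      calc ∑ m ∈ Icc 1 (2 * N), (m : ℝ)⁻¹ ≤ 1 + Real.log (2 * (N : ℝ)) := h5
        _ ≤ (2 * (N : ℝ)) ^ (ε / 2) + 2 / ε * (2 * (N : ℝ)) ^ (ε / 2) := by linarith
        _ ≤ (1 + 4 / ε) * (2 * (N : ℝ)) ^ (ε / 2) := by
            have : 4 / ε * (2 * (N : ℝ)) ^ (ε / 2) = 2 * (2 / ε * (2 * (N : ℝ)) ^ (ε / 2)) := by
              ring
            nlinarith
    calc ∑ d ∈ dil P N, rs d ≤ _ := sum_dil P N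
      _ ≤ ((1 + 4 / ε) * (2 ^ (ε / 2) * (N : ℝ) ^ (ε / 2))) *
            (Real.exp (4 * C) * (N : ℝ) ^ (ε / 2)) := by
          apply mul_le_mul h4 h1 _ (by positivity)
          exact Finset.sum_nonneg fun s _ => mul_nonneg (ind_nonneg _ _) (rs_nonneg s)
      _ = (1 + 4 / ε) * Real.exp (4 * C) * 2 ^ (ε / 2) *
            ((N : ℝ) ^ (ε / 2) * (N : ℝ) ^ (ε / 2)) := by ring
      _ = _ := by
          rw [← Real.rpow_add hN0]
          congr 2
          ring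

/-- the primes `≤ (log N)^c` -/
def smallPrimes (c : ℝ) (N : ℕ) : Set ℕ := {p | p.Prime ∧ (p : ℝ) ≤ Real.log N ^ c}

theorem sum_sqrt_le (n : ℕ) : ∑ p ∈ Icc 1 n, (p : ℝ) ^ (-(1 / 2 : ℝ)) ≤ 2 * Real.sqrt n := by
  induction n with
  | zero => simp
  | succ n ih =>
    rw [Finset.sum_Icc_succ_top (by omega)]
    have h0 : (0 : ℝ) < ((n + 1 : ℕ) : ℝ) := by positivity
    have h1 : ((n + 1 : ℕ) : ℝ) ^ (-(1 / 2 : ℝ)) = (Real.sqrt ((n + 1 : ℕ) : ℝ))⁻¹ := by
      rw [Real.rpow_neg h0.le, ← Real.sqrt_eq_rpow]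
    rw [h1]
    set a := Real.sqrt (n : ℝ) with ha
    set b := Real.sqrt ((n + 1 : ℕ) : ℝ) with hb
    have hb0 : 0 < b := Real.sqrt_pos.2 h0
    have ha0 : 0 ≤ a := Real.sqrt_nonneg _
    have hab : a ≤ b := Real.sqrt_le_sqrt (by push_cast; linarith)
    have h2 : b * b = a * a + 1 := by
      rw [ha, hb, Real.mul_self_sqrt h0.le, Real.mul_self_sqrt (Nat.cast_nonneg _)]
      push_cast
      ring
    have h3 : b⁻¹ ≤ 2 * (b - a) := by
      rw [inv_le_iff_one_le_mul₀ hb0]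
      nlinarith
    linarith

theorem thin_small (c : ℝ) (hc0 : 0 < c) (hc : c < 2) : Thin (smallPrimes c) := by
  refine ⟨fun N p hp => hp.1, fun M N hMN p hp => ⟨hp.1, ?_⟩, fun ε hε => ?_⟩
  · rcases Nat.eq_zero_or_pos M with h0 | h0
    · have := hp.2
      rw [h0, Nat.cast_zero, Real.log_zero, Real.zero_rpow hc0.ne'] at this
      have h1 : (2 : ℝ) ≤ p := by exact_mod_cast hp.1.two_le
      linarith
    · refine hp.2.trans ?_
      have hM : (1 : ℝ) ≤ M := by exact_mod_cast h0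
      apply Real.rpow_le_rpow (Real.log_nonneg hM) _ hc0.le
      exact Real.log_le_log (by linarith) (by exact_mod_cast hMN)
  · set κ : ℝ := 1 - c / 2 with hκ
    have hκ0 : 0 < κ := by rw [hκ]; linarith
    set L₀ : ℝ := (2 / ε) ^ (1 / κ) with hL₀
    have hL₀0 : 0 ≤ L₀ := by positivity
    refine ⟨2 * L₀ ^ (c / 2), fun N hN Q hQ => ?_⟩
    have hN1 : (1 : ℝ) ≤ N := by exact_mod_cast hN
    set L : ℝ := Real.log N with hL
    have hL0 : 0 ≤ L := Real.log_nonneg hN1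
    have hLc : 0 ≤ L ^ c := Real.rpow_nonneg hL0 c
    set n : ℕ := ⌊L ^ c⌋₊ with hn
    have hsub : Q ⊆ Icc 1 n := by
      intro p hp
      have h1 := (hQ p hp).1
      rw [Finset.mem_Icc]
      exact ⟨h1.1.one_lt.le, Nat.le_floor h1.2⟩
    have h1 : ∑ p ∈ Q, (p : ℝ) ^ (-(1 / 2 : ℝ)) ≤ 2 * Real.sqrt n :=
      (Finset.sum_le_sum_of_subset_of_nonneg hsub fun _ _ _ => by positivity).trans
        (sum_sqrt_le n)
    have h2 : Real.sqrt n ≤ L ^ (c / 2) := by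
      rw [Real.sqrt_le_left (by positivity)]
      have h3 : (L ^ (c / 2)) ^ 2 = L ^ c := by
        rw [← Real.rpow_natCast, ← Real.rpow_mul hL0]
        congr 1
        push_cast
        ring
      rw [h3]
      exact Nat.floor_le hLc
    have h4 : 2 * L ^ (c / 2) ≤ ε * L + 2 * L₀ ^ (c / 2) := by
      rcases le_total L L₀ with h5 | h5
      · have : L ^ (c / 2) ≤ L₀ ^ (c / 2) := Real.rpow_le_rpow hL0 h5 (by positivity)
        have : 0 ≤ ε * L := by positivity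
        linarith
      · have h6 : 2 / ε ≤ L ^ κ := by
          calc 2 / ε = L₀ ^ κ := by
                rw [hL₀, ← Real.rpow_mul (by positivity), one_div_mul_cancel hκ0.ne',
                  Real.rpow_one]
            _ ≤ L ^ κ := Real.rpow_le_rpow hL₀0 h5 hκ0.le
        have hLpos : 0 < L := lt_of_lt_of_le (by positivity) h5
        have h7 : L = L ^ κ * L ^ (c / 2) := by
          rw [← Real.rpow_add hLpos]
          have : κ + c / 2 = 1 := by rw [hκ]; ring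
          rw [this, Real.rpow_one]
        have h8 : 2 ≤ ε * L ^ κ := by
          rw [div_le_iff₀ hε] at h6
          linarith
        have h9 : 0 ≤ L ^ (c / 2) := by positivity
        have h10 : 0 ≤ L₀ ^ (c / 2) := by positivity
        calc 2 * L ^ (c / 2) ≤ ε * L ^ κ * L ^ (c / 2) := mul_le_mul_of_nonneg_right h8 h9
          _ = ε * (L ^ κ * L ^ (c / 2)) := by ring
          _ = ε * L := by rw [← h7]
          _ ≤ _ := by linarith
    linarith

end Pool.Agent.X159.MB
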