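import Pool.Agent.X159.MB.LQP
import Pool.Agent.X159.MB.Rough

/-!
Montgomery's `ℓ^q` conjecture for coefficients supported on a family `𝒜` whose dilates cover.
-/

set_option autoImplicit false

namespace Pool.Agent.X159.MB

open Finset WM

/-- The bound of Q1 for the exponent `q`, for `T ≤ N^A` and the coefficients bounded by `1`
and supported on `𝒜 N`. -/
def MomentBoundIn (𝒜 : ℕ → Set ℕ) (q A : ℝ) : Prop :=
  ∀ ε : ℝ, 0 < ε → ∃ K : ℝ, ∀ N T : ℕ, 1 ≤ N → N ≤ T → (T : ℝ) ≤ (N : ℝ) ^ A →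
    ∀ b : ℕ → ℂ, (∀ n, ‖b n‖ ≤ 1) → (∀ n, b n ≠ 0 → n ∈ 𝒜 N) →
      ∑ t ∈ Icc 1 T, ‖∑ n ∈ Icc N (2 * N), b n * phn n t‖ ^ q ≤
        K * (N : ℝ) ^ ε * ((N : ℝ) ^ q + (N : ℝ) ^ (q / 2) * (T : ℝ))

theorem phn_mul {d a : ℕ} (hd : 1 ≤ d) (ha : 1 ≤ a) (t : ℕ) :
    phn (d * a) t = phn d t * phn a t := by
  unfold phn
  rw [← Complex.exp_add]
  congr 1
  have h1 : (d : ℝ) ≠ 0 := by
    have : d ≠ 0 := by omega
    exact_mod_cast this
  have h2 : (a : ℝ) ≠ 0 := by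
    have : a ≠ 0 := by omega
    exact_mod_cast this
  have h3 : Real.log ((d * a : ℕ) : ℝ) = Real.log d + Real.log a := by
    push_cast
    exact Real.log_mul h1 h2
  rw [h3, Complex.ofReal_add]
  ring

theorem phn_add (n s t : ℕ) : phn n (s + t) = phn n s * phn n t := by
  unfold phn
  rw [← Complex.exp_add]
  congr 1
  push_cast
  ring

theorem ceil_facts {N d : ℕ} (hN : 1 ≤ N) (hd1 : 1 ≤ d) (hd2N : d ≤ 2 * N) :
    1 ≤ (N + d - 1) / d ∧ (((N + d - 1) / d : ℕ) : ℝ) ≤ 2 * N / d ∧ (N + d - 1) / d ≤ N ∧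
    N ≤ (N + d - 1) / d * d := by
  set M : ℕ := (N + d - 1) / d with hM
  have hdR : (1 : ℝ) ≤ d := by exact_mod_cast hd1
  have hM1 : 1 ≤ M := by
    rw [hM, Nat.le_div_iff_mul_le (by omega)]
    omega
  refine ⟨hM1, ?_, ?_, ?_⟩
  · rcases Nat.lt_or_ge N d with hdN | hdN
    · have h1 : M = 1 := by
        apply le_antisymm _ hM1
        rw [hM]
        apply Nat.lt_succ_iff.1
        rw [Nat.div_lt_iff_lt_mul (by omega)]
        omega
      rw [h1, le_div_iff₀ (by linarith)]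
      push_cast
      rw [one_mul]
      exact_mod_cast hd2N
    · rw [le_div_iff₀ (by linarith)]
      have h1 : M * d ≤ N + d - 1 := Nat.div_mul_le_self _ _
      have h2 : M * d ≤ 2 * N := by omega
      exact_mod_cast h2
  · rw [hM]
    apply Nat.div_le_of_le_mul
    obtain ⟨e, he⟩ : ∃ e, d = e + 1 := ⟨d - 1, by omega⟩
    obtain ⟨m, hm⟩ : ∃ m, N = m + 1 := ⟨N - 1, by omega⟩
    rw [he, hm]
    have h1 : (e + 1) * (m + 1) = e * m + e + m + 1 := by ring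
    have h2 : m + 1 + (e + 1) - 1 = e + m + 1 := by omega
    rw [h1, h2]
    have : 0 ≤ e * m := Nat.zero_le _
    omega
  · have := Nat.lt_div_mul_add (a := N + d - 1) (b := d) (by omega)
    rw [← hM] at this
    omega

/-- subdivision of `[1, T]` into intervals of length `M^A` -/
theorem moment_long (𝒜 : ℕ → Set ℕ) (q A ε K : ℝ) (hA : 1 ≤ A) (hK : 0 ≤ K)
    (M : ℕ) (hM : 1 ≤ M)
    (h : ∀ T : ℕ, M ≤ T → (T : ℝ) ≤ (M : ℝ) ^ A →
      ∀ b : ℕ → ℂ, (∀ n, ‖b n‖ ≤ 1) → (∀ n, b n ≠ 0 → n ∈ 𝒜 M) →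
      ∑ t ∈ Icc 1 T, ‖∑ n ∈ Icc M (2 * M), b n * phn n t‖ ^ q ≤
        K * (M : ℝ) ^ ε * ((M : ℝ) ^ q + (M : ℝ) ^ (q / 2) * (T : ℝ)))
    (T : ℕ) (hT : M ≤ T) (b : ℕ → ℂ) (hb : ∀ n, ‖b n‖ ≤ 1) (hbA : ∀ n, b n ≠ 0 → n ∈ 𝒜 M) :
    ∑ t ∈ Icc 1 T, ‖∑ n ∈ Icc M (2 * M), b n * phn n t‖ ^ q ≤
      2 * K * (M : ℝ) ^ ε * ((M : ℝ) ^ q + 2 * T * (M : ℝ) ^ (q - A) + T * (M : ℝ) ^ (q / 2)) := by
  have hM1 : (1 : ℝ) ≤ M := by exact_mod_cast hM
  have hM0 : (0 : ℝ) < M := by linarith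
  have hMA : (M : ℝ) ≤ (M : ℝ) ^ A := by
    calc (M : ℝ) = (M : ℝ) ^ (1 : ℝ) := (Real.rpow_one _).symm
      _ ≤ _ := Real.rpow_le_rpow_of_exponent_le hM1 hA
  set F : ℕ := ⌊(M : ℝ) ^ A⌋₊ with hF
  have hMF : M ≤ F := Nat.le_floor hMA
  have hFle : (F : ℝ) ≤ (M : ℝ) ^ A := Nat.floor_le (by positivity)
  have hFge : (M : ℝ) ^ A ≤ 2 * F := by
    have h1 := Nat.lt_floor_add_one ((M : ℝ) ^ A)
    have h2 : (1 : ℝ) ≤ F := by
      have : 1 ≤ F := hM.trans hMF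
      exact_mod_cast this
    rw [← hF] at h1
    linarith
  set L : ℕ := min T F with hL
  have hLM : M ≤ L := le_min hT hMF
  have hL1 : 1 ≤ L := hM.trans hLM
  have hL0 : (0 : ℝ) < L := by exact_mod_cast hL1
  have hLT : L ≤ T := min_le_left _ _
  have hT0 : (0 : ℝ) < T := by
    have : 0 < T := by omega
    exact_mod_cast this
  have hLA : (L : ℝ) ≤ (M : ℝ) ^ A := by
    have : (L : ℝ) ≤ F := by exact_mod_cast min_le_right T F
    linarith
  set J : ℕ := T / L + 1 with hJ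
  set f : ℕ → ℝ := fun t => ‖∑ n ∈ Icc M (2 * M), b n * phn n t‖ ^ q with hf
  have hf0 : ∀ t, 0 ≤ f t := fun t => Real.rpow_nonneg (norm_nonneg _) _
  have h1 : ∑ t ∈ Icc 1 T, f t ≤ ∑ j ∈ range J, ∑ t ∈ Icc 1 L, f (j * L + t) := by
    have h2 : Icc 1 T ⊆ (range J ×ˢ Icc 1 L).image (fun x => x.1 * L + x.2) := by
      intro t ht
      rw [Finset.mem_Icc] at ht
      rw [Finset.mem_image]
      refine ⟨((t - 1) / L, (t - 1) % L + 1), ?_, ?_⟩
      · rw [Finset.mem_product, Finset.mem_range, Finset.mem_Icc]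
        refine ⟨?_, by simp, Nat.mod_lt _ hL1⟩
        rw [hJ]
        exact Nat.lt_succ_of_le (Nat.div_le_div_right (by omega))
      · change (t - 1) / L * L + ((t - 1) % L + 1) = t
        have := Nat.div_add_mod (t - 1) L
        rw [mul_comm] at this
        omega
    calc ∑ t ∈ Icc 1 T, f t ≤
          ∑ t ∈ (range J ×ˢ Icc 1 L).image (fun x => x.1 * L + x.2), f t :=
          Finset.sum_le_sum_of_subset_of_nonneg h2 fun t _ _ => hf0 t
      _ ≤ ∑ x ∈ range J ×ˢ Icc 1 L, f (x.1 * L + x.2) :=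
          Finset.sum_image_le_of_nonneg fun t _ => hf0 t
      _ = _ := Finset.sum_product _ _ _
  have h3 : ∀ j ∈ range J, ∑ t ∈ Icc 1 L, f (j * L + t) ≤
      K * (M : ℝ) ^ ε * ((M : ℝ) ^ q + (M : ℝ) ^ (q / 2) * (L : ℝ)) := by
    intro j _
    have h4 := h L hLM hLA (fun n => b n * phn n (j * L)) (fun n => by
        rw [norm_mul, norm_phn, mul_one]
        exact hb n) (fun n hn => hbA n fun h0 => hn (by rw [h0, zero_mul]))
    refine le_trans (le_of_eq ?_) h4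
    apply Finset.sum_congr rfl
    intro t _
    simp only [hf]
    congr 2
    apply Finset.sum_congr rfl
    intro n _
    rw [phn_add, mul_assoc]
  have h5 : (J : ℝ) ≤ 2 * (T / L) := by
    have h6 : ((T / L : ℕ) : ℝ) ≤ (T : ℝ) / L := Nat.cast_div_le
    have h7 : (1 : ℝ) ≤ (T : ℝ) / L := by
      rw [one_le_div hL0]
      exact_mod_cast hLT
    rw [hJ]
    push_cast
    linarith
  have h8 : (T : ℝ) / L ≤ 1 + 2 * T * (M : ℝ) ^ (-A) := by
    have hneg : (M : ℝ) ^ (-A) = ((M : ℝ) ^ A)⁻¹ := Real.rpow_neg hM0.le _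
    have hpos : 0 < (M : ℝ) ^ A := by positivity
    rcases le_total T F with hc | hc
    · have h9 : L = T := min_eq_left hc
      rw [h9, div_self hT0.ne']
      have : 0 ≤ 2 * T * (M : ℝ) ^ (-A) := by positivity
      linarith
    · have h9 : L = F := min_eq_right hc
      have hF0 : (0 : ℝ) < F := by
        have : 0 < F := by omega
        exact_mod_cast this
      rw [h9, hneg]
      have h10 : (F : ℝ)⁻¹ ≤ 2 * ((M : ℝ) ^ A)⁻¹ := by
        rw [inv_le_iff_one_le_mul₀ hF0, mul_assoc, ← div_eq_inv_mul, mul_div_assoc',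
          one_le_div hpos]
        linarith
      calc (T : ℝ) / F = T * (F : ℝ)⁻¹ := div_eq_mul_inv _ _
        _ ≤ T * (2 * ((M : ℝ) ^ A)⁻¹) := mul_le_mul_of_nonneg_left h10 hT0.le
        _ ≤ _ := by linarith
  have hKM : 0 ≤ K * (M : ℝ) ^ ε := mul_nonneg hK (Real.rpow_nonneg hM0.le _)
  have hq1 : 0 ≤ (M : ℝ) ^ q := Real.rpow_nonneg hM0.le _
  have hq2 : 0 ≤ (M : ℝ) ^ (q / 2) := Real.rpow_nonneg hM0.le _
  have hqA : (M : ℝ) ^ (q - A) = (M : ℝ) ^ q * (M : ℝ) ^ (-A) := by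
    rw [← Real.rpow_add hM0]
    congr 1
  calc ∑ t ∈ Icc 1 T, f t ≤ _ := h1
    _ ≤ ∑ _j ∈ range J, K * (M : ℝ) ^ ε * ((M : ℝ) ^ q + (M : ℝ) ^ (q / 2) * (L : ℝ)) :=
        Finset.sum_le_sum h3
    _ = J * (K * (M : ℝ) ^ ε * ((M : ℝ) ^ q + (M : ℝ) ^ (q / 2) * (L : ℝ))) := by
        rw [Finset.sum_const, Finset.card_range, nsmul_eq_mul]
    _ ≤ (2 * (T / L)) * (K * (M : ℝ) ^ ε * ((M : ℝ) ^ q + (M : ℝ) ^ (q / 2) * (L : ℝ))) :=
        mul_le_mul_of_nonneg_right h5 (mul_nonneg hKM (add_nonneg hq1 (mul_nonneg hq2 hL0.le)))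
    _ = 2 * K * (M : ℝ) ^ ε * ((T / L) * (M : ℝ) ^ q + T * (M : ℝ) ^ (q / 2)) := by
        field_simp
    _ ≤ 2 * K * (M : ℝ) ^ ε * ((1 + 2 * T * (M : ℝ) ^ (-A)) * (M : ℝ) ^ q +
          T * (M : ℝ) ^ (q / 2)) := by
        apply mul_le_mul_of_nonneg_left _ (by linarith)
        have := mul_le_mul_of_nonneg_right h8 hq1
        linarith
    _ = _ := by
        rw [hqA]
        ring

theorem moment_of_in (𝒜 : ℕ → Set ℕ) (hcov : Covers 𝒜) (q A : ℝ) (hq : 2 ≤ q) (hA : 1 ≤ A)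
    (h : MomentBoundIn 𝒜 q A) : MomentBound (fun b => ∀ n, ‖b n‖ ≤ 1) q A := by
  classical
  obtain ⟨D, hD, hsumD⟩ := hcov
  intro ε hε
  have hq0 : 0 < q := by linarith
  set δ : ℝ := ε / (2 * q) with hδ
  have hδ0 : 0 < δ := by positivity
  obtain ⟨K₀, hK₀⟩ := h (ε / 2) (by positivity)
  set K : ℝ := max K₀ 0 with hKdef
  have hK0 : 0 ≤ K := le_max_right _ _
  obtain ⟨C₁, hC₁⟩ := hsumD δ hδ0
  set C : ℝ := max C₁ 0 with hCdef
  have hC0 : 0 ≤ C := le_max_right _ _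
  refine ⟨C ^ q * (2 * K * (4 * 2 ^ q)), ?_⟩
  intro N T hN hNT hTA b hb
  have hN1 : (1 : ℝ) ≤ N := by exact_mod_cast hN
  have hN0 : (0 : ℝ) < N := by linarith
  have hT0 : (0 : ℝ) ≤ T := Nat.cast_nonneg _
  choose! g hg using hD N hN
  have hmem : ∀ n ∈ Icc N (2 * N), g n ∈ D N := fun n hn => (hg n hn).1
  have hfac : ∀ n ∈ Icc N (2 * N), 1 ≤ g n ∧ g n ∣ n ∧ 1 ≤ n / g n ∧ n = g n * (n / g n) ∧
      n / g n ∈ 𝒜 ((N + g n - 1) / g n) := by
    intro n hn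
    obtain ⟨-, a, ha, hna⟩ := hg n hn
    have hn1 : 1 ≤ n := hN.trans (Finset.mem_Icc.1 hn).1
    have hd0 : g n ≠ 0 := fun h0 => by rw [h0, zero_mul] at hna; omega
    have ha0 : a ≠ 0 := fun h0 => by rw [h0, mul_zero] at hna; omega
    have hdiv : n / g n = a := Nat.div_eq_of_eq_mul_right (Nat.pos_of_ne_zero hd0) hna
    rw [hdiv]
    exact ⟨Nat.one_le_iff_ne_zero.2 hd0, ⟨a, hna⟩, Nat.one_le_iff_ne_zero.2 ha0, hna, ha⟩
  set Tset : Finset ℕ := (Icc N (2 * N)).image g with hTset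
  have hTD : Tset ⊆ D N := by
    intro d hd
    rw [hTset, Finset.mem_image] at hd
    obtain ⟨n, hn, rfl⟩ := hd
    exact hmem n hn
  have hTd : ∀ d ∈ Tset, 1 ≤ d ∧ d ≤ 2 * N := by
    intro d hd
    rw [hTset, Finset.mem_image] at hd
    obtain ⟨n, hn, rfl⟩ := hd
    have h1 := hfac n hn
    have h2 := Finset.mem_Icc.1 hn
    exact ⟨h1.1, (Nat.le_of_dvd (by omega) h1.2.1).trans h2.2⟩
  set P : ℕ → ℕ → ℂ := fun d t => ∑ n ∈ (Icc N (2 * N)).filter (fun n => g n = d),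
    b n * phn n t with hP
  have hsplit : ∀ t, ∑ n ∈ Icc N (2 * N), b n * phn n t = ∑ d ∈ Tset, P d t :=
    fun t => (Finset.sum_fiberwise_of_maps_to (fun n hn => Finset.mem_image_of_mem g hn) _).symm
  set W : ℝ := ∑ d ∈ Tset, rs d with hW
  have hrspos : ∀ d ∈ Tset, 0 < rs d := by
    intro d hd
    rw [rs_apply]
    have : (0 : ℝ) < d := by exact_mod_cast (hTd d hd).1
    exact Real.rpow_pos_of_pos this _
  have hWpos : 0 < W := by
    have h1 : g N ∈ Tset := Finset.mem_image_of_mem _ (Finset.mem_Icc.2 ⟨le_rfl, by omega⟩)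
    exact lt_of_lt_of_le (hrspos _ h1)
      (Finset.single_le_sum (f := fun d => rs d) (fun d _ => rs_nonneg d) h1)
  have hWle : W ≤ C * (N : ℝ) ^ δ := by
    calc W ≤ ∑ d ∈ D N, rs d :=
          Finset.sum_le_sum_of_subset_of_nonneg hTD fun d _ _ => rs_nonneg d
      _ ≤ C₁ * (N : ℝ) ^ δ := hC₁ N hN
      _ ≤ _ := mul_le_mul_of_nonneg_right (le_max_left _ _) (Real.rpow_nonneg hN0.le _)
  -- Jensen
  have hjensen : ∀ t, ‖∑ n ∈ Icc N (2 * N), b n * phn n t‖ ^ q ≤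
      ∑ d ∈ Tset, (rs d / W) * (W / rs d * ‖P d t‖) ^ q := by
    intro t
    have h1 : ‖∑ n ∈ Icc N (2 * N), b n * phn n t‖ ≤
        ∑ d ∈ Tset, (rs d / W) * (W / rs d * ‖P d t‖) := by
      rw [hsplit t]
      refine (norm_sum_le _ _).trans (le_of_eq ?_)
      apply Finset.sum_congr rfl
      intro d hd
      have h3 := hrspos d hd
      field_simp
    refine (Real.rpow_le_rpow (norm_nonneg _) h1 hq0.le).trans ?_
    apply Real.rpow_arith_mean_le_arith_mean_rpow Tset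
    · intro d hd
      exact div_nonneg (hrspos d hd).le hWpos.le
    · rw [← Finset.sum_div, ← hW, div_self hWpos.ne']
    · intro d hd
      exact mul_nonneg (div_nonneg hWpos.le (hrspos d hd).le) (norm_nonneg _)
    · linarith
  set Z : ℝ := (N : ℝ) ^ q + (N : ℝ) ^ (q / 2) * (T : ℝ) with hZ
  have hNq : 0 ≤ (N : ℝ) ^ q := Real.rpow_nonneg hN0.le _
  have hNq2 : 0 ≤ (N : ℝ) ^ (q / 2) := Real.rpow_nonneg hN0.le _
  have hZ0 : 0 ≤ Z := add_nonneg hNq (mul_nonneg hNq2 hT0)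
  -- the pieces
  have hpiece : ∀ d ∈ Tset, (rs d) ^ (-q) * ∑ t ∈ Icc 1 T, ‖P d t‖ ^ q ≤
      2 * K * (4 * 2 ^ q) * (N : ℝ) ^ (ε / 2) * Z := by
    intro d hd
    obtain ⟨hd1, hd2N⟩ := hTd d hd
    have hdR : (1 : ℝ) ≤ d := by exact_mod_cast hd1
    have hd0 : (0 : ℝ) < d := by linarith
    obtain ⟨hM1, hMle, hMN, hNM⟩ := ceil_facts hN hd1 hd2N
    set M : ℕ := (N + d - 1) / d with hM
    have hM1R : (1 : ℝ) ≤ M := by exact_mod_cast hM1
    have hM0 : (0 : ℝ) < M := by linarith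
    have hMNR : (M : ℝ) ≤ N := by exact_mod_cast hMN
    set c : ℕ → ℂ := fun a =>
      if d * a ∈ (Icc N (2 * N)).filter (fun n => g n = d) then b (d * a) else 0 with hc
    have hcn : ∀ a, ‖c a‖ ≤ 1 := by
      intro a
      simp only [hc]
      split_ifs
      · exact hb _
      · simp
    have hfac' : ∀ n ∈ (Icc N (2 * N)).filter (fun n => g n = d), 1 ≤ n / d ∧ n = d * (n / d) ∧
        n / d ∈ 𝒜 M := by
      intro n hn
      rw [Finset.mem_filter] at hn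
      have h1 := hfac n hn.1
      rw [hn.2] at h1
      exact ⟨h1.2.2.1, h1.2.2.2.1, h1.2.2.2.2⟩
    have hcA : ∀ a, c a ≠ 0 → a ∈ 𝒜 M := by
      intro a ha
      simp only [hc] at ha
      by_cases h1 : d * a ∈ (Icc N (2 * N)).filter (fun n => g n = d)
      · have h2 := (hfac' _ h1).2.2
        rwa [Nat.mul_div_cancel_left a (by omega)] at h2
      · rw [if_neg h1] at ha
        exact absurd rfl ha
    have hpoly : ∀ t, ‖P d t‖ = ‖∑ a ∈ Icc M (2 * M), c a * phn a t‖ := by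
      intro t
      have h1 : P d t = phn d t * ∑ a ∈ Icc M (2 * M), c a * phn a t := by
        rw [Finset.mul_sum]
        have h2 : ∀ a ∈ Icc M (2 * M), phn d t * (c a * phn a t) =
            if d * a ∈ (Icc N (2 * N)).filter (fun n => g n = d) then b (d * a) * phn (d * a) t
              else 0 := by
          intro a ha
          have ha1 : 1 ≤ a := hM1.trans (Finset.mem_Icc.1 ha).1
          simp only [hc]
          split_ifs with h3
          · rw [phn_mul hd1 ha1]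
            ring
          · rw [zero_mul, mul_zero]
        rw [Finset.sum_congr rfl h2, ← Finset.sum_filter]
        symm
        apply Finset.sum_bij (fun a _ => d * a)
        · intro a ha
          exact (Finset.mem_filter.1 ha).2
        · intro a _ a' _ haa
          exact Nat.eq_of_mul_eq_mul_left (by omega) haa
        · intro n hn
          have h4 := hfac' n hn
          have h5 := Finset.mem_Icc.1 (Finset.mem_filter.1 hn).1
          refine ⟨n / d, ?_, h4.2.1.symm⟩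
          rw [Finset.mem_filter, Finset.mem_Icc, ← h4.2.1]
          refine ⟨⟨?_, ?_⟩, hn⟩
          · have h6 : M < n / d + 1 := by
              rw [hM, Nat.div_lt_iff_lt_mul (by omega)]
              have h7 : (n / d + 1) * d = d * (n / d) + d := by ring
              rw [h7, ← h4.2.1]
              omega
            omega
          · have h7 : d * (n / d) ≤ d * (2 * M) := by
              rw [← h4.2.1]
              calc n ≤ 2 * N := h5.2
                _ ≤ 2 * (M * d) := Nat.mul_le_mul_left 2 hNM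
                _ = d * (2 * M) := by ring
            exact Nat.le_of_mul_le_mul_left h7 (by omega)
        · intro a _
          rfl
      rw [h1, norm_mul, norm_phn, one_mul]
    simp_rw [hpoly]
    have hlong := moment_long 𝒜 q A (ε / 2) K hA hK0 M hM1 (fun T' hT1 hT2 b' hb' hbA' => by
      refine (hK₀ M T' hM1 hT1 hT2 b' hb' hbA').trans ?_
      apply mul_le_mul_of_nonneg_right
      · exact mul_le_mul_of_nonneg_right (le_max_left _ _) (Real.rpow_nonneg hM0.le _)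
      · exact add_nonneg (Real.rpow_nonneg hM0.le _)
          (mul_nonneg (Real.rpow_nonneg hM0.le _) (Nat.cast_nonneg _)))
      T (hMN.trans hNT) c hcn hcA
    have hrsq : (rs d) ^ (-q) = (d : ℝ) ^ (q / 2) := by
      rw [rs_apply, ← Real.rpow_mul hd0.le]
      congr 1
      ring
    have hx0 : 0 ≤ 2 * (N : ℝ) / d := by positivity
    have hdq : 0 ≤ (d : ℝ) ^ (q / 2) := Real.rpow_nonneg hd0.le _
    -- the three terms
    have hpw : ∀ e : ℝ, 0 ≤ e → e ≤ q → q / 2 ≤ e → (d : ℝ) ^ (q / 2) * (M : ℝ) ^ e ≤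
        2 ^ q * (N : ℝ) ^ e := by
      intro e he heq hqe
      have h1 : (M : ℝ) ^ e ≤ 2 ^ e * (N : ℝ) ^ e * ((d : ℝ) ^ e)⁻¹ := by
        calc (M : ℝ) ^ e ≤ (2 * N / d) ^ e := Real.rpow_le_rpow hM0.le hMle he
          _ = _ := by
              rw [Real.div_rpow (by positivity) hd0.le, Real.mul_rpow (by norm_num) hN0.le,
                div_eq_mul_inv]
      have h2 : (d : ℝ) ^ (q / 2) ≤ (d : ℝ) ^ e := Real.rpow_le_rpow_of_exponent_le hdR hqe
      have hde : 0 < (d : ℝ) ^ e := Real.rpow_pos_of_pos hd0 _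
      have hNe : 0 ≤ (N : ℝ) ^ e := Real.rpow_nonneg hN0.le _
      calc (d : ℝ) ^ (q / 2) * (M : ℝ) ^ e ≤
            (d : ℝ) ^ e * (2 ^ e * (N : ℝ) ^ e * ((d : ℝ) ^ e)⁻¹) :=
            mul_le_mul h2 h1 (Real.rpow_nonneg hM0.le _) hde.le
        _ = 2 ^ e * (N : ℝ) ^ e := by field_simp
        _ ≤ 2 ^ q * (N : ℝ) ^ e :=
            mul_le_mul_of_nonneg_right (Real.rpow_le_rpow_of_exponent_le (by norm_num) heq) hNe
    have h2q : (0 : ℝ) ≤ 2 ^ q := by positivity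
    have t1 : (d : ℝ) ^ (q / 2) * (M : ℝ) ^ q ≤ 2 ^ q * Z := by
      refine (hpw q hq0.le le_rfl (by linarith)).trans ?_
      apply mul_le_mul_of_nonneg_left _ h2q
      have := mul_nonneg hNq2 hT0
      linarith
    have t2 : (d : ℝ) ^ (q / 2) * (T * (M : ℝ) ^ (q / 2)) ≤ 2 ^ q * Z := by
      have h1 := mul_le_mul_of_nonneg_left (hpw (q / 2) (by linarith) (by linarith) le_rfl) hT0
      calc (d : ℝ) ^ (q / 2) * (T * (M : ℝ) ^ (q / 2)) =
            T * ((d : ℝ) ^ (q / 2) * (M : ℝ) ^ (q / 2)) := by ring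
        _ ≤ T * (2 ^ q * (N : ℝ) ^ (q / 2)) := h1
        _ = 2 ^ q * ((N : ℝ) ^ (q / 2) * T) := by ring
        _ ≤ 2 ^ q * Z := by
            apply mul_le_mul_of_nonneg_left _ h2q
            linarith
    have t3 : (d : ℝ) ^ (q / 2) * (T * (M : ℝ) ^ (q - A)) ≤ 2 ^ q * Z := by
      rcases le_total q (2 * A) with hqA | hqA
      · refine le_trans ?_ t2
        apply mul_le_mul_of_nonneg_left _ hdq
        apply mul_le_mul_of_nonneg_left _ hT0
        exact Real.rpow_le_rpow_of_exponent_le hM1R (by linarith)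
      · have h1 := hpw (q - A) (by linarith) (by linarith) (by linarith)
        have hNA : 0 ≤ (N : ℝ) ^ A := Real.rpow_nonneg hN0.le _
        calc (d : ℝ) ^ (q / 2) * (T * (M : ℝ) ^ (q - A)) =
              T * ((d : ℝ) ^ (q / 2) * (M : ℝ) ^ (q - A)) := by ring
          _ ≤ (N : ℝ) ^ A * (2 ^ q * (N : ℝ) ^ (q - A)) := by
              apply mul_le_mul hTA h1 (mul_nonneg hdq (Real.rpow_nonneg hM0.le _)) hNA
          _ = 2 ^ q * ((N : ℝ) ^ A * (N : ℝ) ^ (q - A)) := by ring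
          _ = 2 ^ q * (N : ℝ) ^ q := by
              rw [← Real.rpow_add hN0]
              congr 2
              ring
          _ ≤ 2 ^ q * Z := by
              apply mul_le_mul_of_nonneg_left _ h2q
              have := mul_nonneg hNq2 hT0
              linarith
    rw [hrsq]
    have hMε : (M : ℝ) ^ (ε / 2) ≤ (N : ℝ) ^ (ε / 2) :=
      Real.rpow_le_rpow hM0.le hMNR (by positivity)
    have hMε0 : 0 ≤ (M : ℝ) ^ (ε / 2) := Real.rpow_nonneg hM0.le _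
    calc (d : ℝ) ^ (q / 2) * ∑ t ∈ Icc 1 T, ‖∑ a ∈ Icc M (2 * M), c a * phn a t‖ ^ q
        ≤ (d : ℝ) ^ (q / 2) * (2 * K * (M : ℝ) ^ (ε / 2) *
          ((M : ℝ) ^ q + 2 * T * (M : ℝ) ^ (q - A) + T * (M : ℝ) ^ (q / 2))) :=
          mul_le_mul_of_nonneg_left hlong hdq
      _ = 2 * K * (M : ℝ) ^ (ε / 2) * ((d : ℝ) ^ (q / 2) * (M : ℝ) ^ q +
          2 * ((d : ℝ) ^ (q / 2) * (T * (M : ℝ) ^ (q - A))) +
          (d : ℝ) ^ (q / 2) * (T * (M : ℝ) ^ (q / 2))) := by ring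
      _ ≤ 2 * K * (M : ℝ) ^ (ε / 2) * (4 * 2 ^ q * Z) := by
          apply mul_le_mul_of_nonneg_left _ (mul_nonneg (by linarith) hMε0)
          linarith
      _ ≤ 2 * K * (N : ℝ) ^ (ε / 2) * (4 * 2 ^ q * Z) := by
          apply mul_le_mul_of_nonneg_right _ (mul_nonneg (by linarith) hZ0)
          exact mul_le_mul_of_nonneg_left hMε (by linarith)
      _ = _ := by ring
  -- conclusion
  have hsum1 : ∑ t ∈ Icc 1 T, ‖∑ n ∈ Icc N (2 * N), b n * phn n t‖ ^ q ≤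
      W ^ q * ∑ d ∈ Tset, (rs d / W) * ((rs d) ^ (-q) * ∑ t ∈ Icc 1 T, ‖P d t‖ ^ q) := by
    calc ∑ t ∈ Icc 1 T, ‖∑ n ∈ Icc N (2 * N), b n * phn n t‖ ^ q ≤
          ∑ t ∈ Icc 1 T, ∑ d ∈ Tset, (rs d / W) * (W / rs d * ‖P d t‖) ^ q :=
          Finset.sum_le_sum fun t _ => hjensen t
      _ = ∑ d ∈ Tset, ∑ t ∈ Icc 1 T, (rs d / W) * (W / rs d * ‖P d t‖) ^ q := Finset.sum_comm
      _ = _ := by
          rw [Finset.mul_sum]
          apply Finset.sum_congr rfl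
          intro d hd
          have h3 := hrspos d hd
          rw [Finset.mul_sum, Finset.mul_sum, Finset.mul_sum]
          apply Finset.sum_congr rfl
          intro t _
          rw [Real.mul_rpow (div_nonneg hWpos.le h3.le) (norm_nonneg _),
            Real.div_rpow hWpos.le h3.le, Real.rpow_neg h3.le]
          ring
  have hWq : W ^ q ≤ C ^ q * (N : ℝ) ^ (ε / 2) := by
    calc W ^ q ≤ (C * (N : ℝ) ^ δ) ^ q := Real.rpow_le_rpow hWpos.le hWle hq0.le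
      _ = C ^ q * (N : ℝ) ^ (ε / 2) := by
          rw [Real.mul_rpow hC0 (Real.rpow_nonneg hN0.le _), ← Real.rpow_mul hN0.le]
          congr 2
          rw [hδ]
          field_simp
  have hB0 : 0 ≤ 2 * K * (4 * 2 ^ q) * (N : ℝ) ^ (ε / 2) * Z := by positivity
  have hsum2 : ∑ d ∈ Tset, (rs d / W) * ((rs d) ^ (-q) * ∑ t ∈ Icc 1 T, ‖P d t‖ ^ q) ≤
      2 * K * (4 * 2 ^ q) * (N : ℝ) ^ (ε / 2) * Z := by
    calc _ ≤ ∑ d ∈ Tset, (rs d / W) * (2 * K * (4 * 2 ^ q) * (N : ℝ) ^ (ε / 2) * Z) :=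
          Finset.sum_le_sum fun d hd => mul_le_mul_of_nonneg_left (hpiece d hd)
            (div_nonneg (hrspos d hd).le hWpos.le)
      _ = _ := by
          rw [← Finset.sum_mul, ← Finset.sum_div, ← hW, div_self hWpos.ne', one_mul]
  have hCq : 0 ≤ C ^ q * (N : ℝ) ^ (ε / 2) :=
    mul_nonneg (Real.rpow_nonneg hC0 _) (Real.rpow_nonneg hN0.le _)
  calc ∑ t ∈ Icc 1 T, ‖∑ n ∈ Icc N (2 * N), b n * phn n t‖ ^ q ≤ _ := hsum1
    _ ≤ W ^ q * (2 * K * (4 * 2 ^ q) * (N : ℝ) ^ (ε / 2) * Z) :=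
        mul_le_mul_of_nonneg_left hsum2 (Real.rpow_nonneg hWpos.le _)
    _ ≤ C ^ q * (N : ℝ) ^ (ε / 2) * (2 * K * (4 * 2 ^ q) * (N : ℝ) ^ (ε / 2) * Z) :=
        mul_le_mul_of_nonneg_right hWq hB0
    _ = C ^ q * (2 * K * (4 * 2 ^ q)) * ((N : ℝ) ^ (ε / 2) * (N : ℝ) ^ (ε / 2)) * Z := by ring
    _ = _ := by
        rw [← Real.rpow_add hN0]
        congr 3
        ring

theorem moment_imp_in (𝒜 : ℕ → Set ℕ) (q A : ℝ)
    (h : MomentBound (fun b => ∀ n, ‖b n‖ ≤ 1) q A) : MomentBoundIn 𝒜 q A := by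
  intro ε hε
  obtain ⟨K, hK⟩ := h ε hε
  exact ⟨K, fun N T hN hNT hTA b hb _ => hK N T hN hNT hTA b hb⟩

theorem lq_in (𝒜 : ℕ → Set ℕ) (hcov : Covers 𝒜) :
    (∀ q A : ℝ, 2 ≤ q → 1 ≤ A →
      (MomentBound (fun b => ∀ n, ‖b n‖ ≤ 1) q A ↔ MomentBoundIn 𝒜 q A)) ∧
    (MontgomeryLq ↔ ∀ q : ℝ, 2 ≤ q → MomentBoundIn 𝒜 q 2) := by
  have h1 : ∀ q A : ℝ, 2 ≤ q → 1 ≤ A →
      (MomentBound (fun b => ∀ n, ‖b n‖ ≤ 1) q A ↔ MomentBoundIn 𝒜 q A) :=
    fun q A hq hA => ⟨moment_imp_in 𝒜 q A, moment_of_in 𝒜 hcov q A hq hA⟩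
  refine ⟨h1, fun h q hq => (h1 q 2 hq (by norm_num)).1 (h q hq 2 (by norm_num)), fun h => ?_⟩
  exact montgomeryLq_of fun q hq => (h1 q 2 hq (by norm_num)).2 (h q hq)

end Pool.Agent.X159.MB
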