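import Pool.Agent.X159.MB.L2
import Pool.Agent.X159.MB.Rough

/-!
Montgomery's large value conjecture for sets of integers in a family `𝒜` whose dilates cover.
-/

set_option autoImplicit false

namespace Pool.Agent.X159.MB

open Finset WM

/-- the large value bound for the sets of integers `S ⊆ [N, 2N] ∩ 𝒜 N` -/
def ForSetsIn (𝒜 : ℕ → Set ℕ) : Prop :=
  ∀ A : ℝ, ∀ σ : ℝ, σ > 1 / 2 → ∀ ε : ℝ, ε > 0 → ∃ C : ℝ,
    ∀ N : ℕ, 1 ≤ N → ∀ T : ℝ, (N : ℝ) ≤ T → T ≤ (N : ℝ) ^ A →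
    ∀ S ⊆ Icc N (2 * N), (∀ n ∈ S, n ∈ 𝒜 N) →
    ∀ W : Finset ℤ,
      (∀ t ∈ W, 0 ≤ (t : ℝ) ∧ (t : ℝ) ≤ T ∧ (N : ℝ) ^ σ < ‖∑ n ∈ S, ph n t‖) →
      (W.card : ℝ) ≤ C * (N : ℝ) ^ (2 - 2 * σ + ε)

/-- the bilinear estimate for the sets `S ⊆ [N, 2N] ∩ 𝒜 N` -/
def BilinearIn (𝒜 : ℕ → Set ℕ) : Prop :=
  ∀ A : ℝ, 1 ≤ A → ∀ ε : ℝ, 0 < ε → ∃ C : ℝ, ∀ N : ℕ, 1 ≤ N →
    ∀ S ⊆ Icc N (2 * N), (∀ n ∈ S, n ∈ 𝒜 N) → ∀ W : Finset ℤ, W.card ≤ N →
      (∀ t ∈ W, 0 ≤ (t : ℝ) ∧ (t : ℝ) ≤ (N : ℝ) ^ A) →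
      ‖∑ n ∈ S, ∑ t ∈ W, ph n t‖ ≤ C * (N : ℝ) ^ (1 + ε) * Real.sqrt W.card

theorem forSetsIn_imp (𝒜 : ℕ → Set ℕ) : ForSetsIn 𝒜 → BilinearIn 𝒜 := by
  intro h A hA ε hε
  set δ : ℝ := ε / 2 with hδ
  have hδ0 : 0 < δ := by positivity
  set sg : ℕ → ℝ := fun j => 1 / 2 + ((j : ℝ) + 1) * δ with hsg
  have hsg0 : ∀ j, sg j > 1 / 2 := fun j => by
    have : 0 < ((j : ℝ) + 1) * δ := by positivity
    simp only [hsg]
    linarith
  choose C hC using fun j => h A (sg j) (hsg0 j) δ hδ0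
  set J : ℕ := ⌈2 / δ⌉₊ with hJ
  have hJ2 : 2 ≤ sg J := by
    have h1 : 2 / δ ≤ (J : ℝ) := Nat.le_ceil _
    have h2 : 2 ≤ (J : ℝ) * δ := by rwa [div_le_iff₀ hδ0] at h1
    simp only [hsg]
    nlinarith
  refine ⟨2 + ∑ j ∈ range J, Real.sqrt (max (C j) 0), ?_⟩
  intro N hN S hS hSA W hW hT
  have hN1 : (1 : ℝ) ≤ N := by exact_mod_cast hN
  have hN0 : (0 : ℝ) < N := by linarith
  have hsum0 : 0 ≤ ∑ j ∈ range J, Real.sqrt (max (C j) 0) :=
    sum_nonneg fun _ _ => Real.sqrt_nonneg _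
  have hRN : (W.card : ℝ) ≤ N := by exact_mod_cast hW
  have hR0 : (0 : ℝ) ≤ W.card := Nat.cast_nonneg _
  have hpow1 : (1 : ℝ) ≤ (N : ℝ) ^ (1 + ε) := Real.one_le_rpow hN1 (by linarith)
  have hScard : (S.card : ℝ) ≤ N + 1 := by
    have := card_le_card hS
    rw [Nat.card_Icc] at this
    have h2 : S.card ≤ N + 1 := by omega
    exact_mod_cast h2
  rcases Nat.lt_or_ge N 2 with hN2 | hN2
  · have hN' : N = 1 := by omega
    have h1 : ‖∑ n ∈ S, ∑ t ∈ W, ph n t‖ ≤ S.card * W.card := by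
      calc ‖∑ n ∈ S, ∑ t ∈ W, ph n t‖ ≤ ∑ n ∈ S, ‖∑ t ∈ W, ph n t‖ := norm_sum_le _ _
        _ ≤ ∑ n ∈ S, (W.card : ℝ) := sum_le_sum fun n _ => by
            calc ‖∑ t ∈ W, ph n t‖ ≤ ∑ t ∈ W, ‖ph n t‖ := norm_sum_le _ _
              _ = W.card := by simp [norm_ph]
        _ = _ := by simp
    have h2 : (W.card : ℝ) ≤ Real.sqrt W.card := by
      rw [hN'] at hW
      interval_cases h3 : W.card <;> simp
    rw [hN'] at hScard ⊢
    calc ‖∑ n ∈ S, ∑ t ∈ W, ph n t‖ ≤ S.card * W.card := h1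
      _ ≤ 2 * Real.sqrt W.card := by
        have : (S.card : ℝ) ≤ 2 := by
          push_cast at hScard
          linarith
        exact mul_le_mul this h2 hR0 (by norm_num)
      _ ≤ _ := by
        have := mul_nonneg hsum0 (Real.sqrt_nonneg (W.card : ℝ))
        simp only [Nat.cast_one, Real.one_rpow, mul_one]
        nlinarith [Real.sqrt_nonneg (W.card : ℝ)]
  -- the polynomial
  set D : ℤ → ℂ := fun t => ∑ n ∈ S, ph n t with hD
  have hDS : ∀ t, D t = ∑ n ∈ S, ph n t := fun t => rfl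
  have hDle : ∀ t, ‖D t‖ ≤ (N : ℝ) ^ sg J := by
    intro t
    rw [hDS]
    calc ‖∑ n ∈ S, ph n t‖ ≤ ∑ n ∈ S, ‖ph n t‖ := norm_sum_le _ _
      _ = S.card := by simp [norm_ph]
      _ ≤ N + 1 := hScard
      _ ≤ (N : ℝ) ^ (2 : ℝ) := by
        have : (2 : ℝ) ≤ N := by exact_mod_cast hN2
        rw [Real.rpow_two]
        nlinarith
      _ ≤ _ := Real.rpow_le_rpow_of_exponent_le hN1 hJ2
  have hcard : ∀ j, ((W.filter (fun t => (N : ℝ) ^ sg j < ‖D t‖)).card : ℝ) ≤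
      max (C j) 0 * (N : ℝ) ^ (2 - 2 * sg j + δ) := by
    intro j
    have h1 := hC j N hN ((N : ℝ) ^ A)
      (by
        calc (N : ℝ) = (N : ℝ) ^ (1 : ℝ) := (Real.rpow_one _).symm
          _ ≤ _ := Real.rpow_le_rpow_of_exponent_le hN1 hA) le_rfl S hS hSA
      (W.filter (fun t => (N : ℝ) ^ sg j < ‖D t‖))
      (fun t ht => by
        rw [mem_filter] at ht
        exact ⟨(hT t ht.1).1, (hT t ht.1).2, ht.2⟩)
    exact h1.trans (mul_le_mul_of_nonneg_right (le_max_left _ _) (by positivity))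
  have hterm : ∀ j, ((W.filter (fun t => (N : ℝ) ^ sg j < ‖D t‖)).card : ℝ) *
      (N : ℝ) ^ sg (j + 1) ≤ Real.sqrt (max (C j) 0) * ((N : ℝ) ^ (1 + ε) * Real.sqrt W.card) := by
    intro j
    set r : ℝ := ((W.filter (fun t => (N : ℝ) ^ sg j < ‖D t‖)).card : ℝ) with hr
    have hr0 : 0 ≤ r := Nat.cast_nonneg _
    have hrR : r ≤ W.card := by
      rw [hr]
      exact_mod_cast card_le_card (filter_subset _ _)
    have h1 := hcard j
    set c : ℝ := max (C j) 0 with hc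
    have hc0 : 0 ≤ c := le_max_right _ _
    have h2 : r ≤ Real.sqrt W.card * (Real.sqrt c * (N : ℝ) ^ (1 - sg j + δ / 2)) := by
      have h3 : r * r ≤ W.card * (c * (N : ℝ) ^ (2 - 2 * sg j + δ)) :=
        mul_le_mul hrR h1 hr0 hR0
      have h4 : (N : ℝ) ^ (2 - 2 * sg j + δ) =
          (N : ℝ) ^ (1 - sg j + δ / 2) * (N : ℝ) ^ (1 - sg j + δ / 2) := by
        rw [← Real.rpow_add hN0]
        congr 1
        ring
      apply abs_le_of_sq_le_sq' _ (by positivity) |>.2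
      calc r ^ 2 = r * r := by ring
        _ ≤ W.card * (c * (N : ℝ) ^ (2 - 2 * sg j + δ)) := h3
        _ = (Real.sqrt W.card * (Real.sqrt c * (N : ℝ) ^ (1 - sg j + δ / 2))) ^ 2 := by
          rw [h4, mul_pow, mul_pow, Real.sq_sqrt hR0, Real.sq_sqrt hc0]
          ring
    have h5 : (N : ℝ) ^ sg (j + 1) = (N : ℝ) ^ (sg j + δ) := by
      congr 1
      simp only [hsg]
      push_cast
      ring
    have h6 : (N : ℝ) ^ (1 - sg j + δ / 2) * (N : ℝ) ^ (sg j + δ) ≤ (N : ℝ) ^ (1 + ε) := by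
      rw [← Real.rpow_add hN0]
      apply Real.rpow_le_rpow_of_exponent_le hN1
      have : ε = 2 * δ := by rw [hδ]; ring
      linarith
    rw [h5]
    calc r * (N : ℝ) ^ (sg j + δ) ≤
          (Real.sqrt W.card * (Real.sqrt c * (N : ℝ) ^ (1 - sg j + δ / 2))) *
            (N : ℝ) ^ (sg j + δ) := mul_le_mul_of_nonneg_right h2 (by positivity)
      _ = Real.sqrt c * (((N : ℝ) ^ (1 - sg j + δ / 2) * (N : ℝ) ^ (sg j + δ)) *
            Real.sqrt W.card) := by ring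
      _ ≤ _ := by gcongr
  have hfirst : (W.card : ℝ) * (N : ℝ) ^ sg 0 ≤ (N : ℝ) ^ (1 + ε) * Real.sqrt W.card := by
    have h1 : (W.card : ℝ) ≤ Real.sqrt W.card * (N : ℝ) ^ ((1 : ℝ) / 2) := by
      rw [← Real.sqrt_eq_rpow]
      calc (W.card : ℝ) = Real.sqrt W.card * Real.sqrt W.card := (Real.mul_self_sqrt hR0).symm
        _ ≤ _ := mul_le_mul_of_nonneg_left (Real.sqrt_le_sqrt hRN) (Real.sqrt_nonneg _)
    calc (W.card : ℝ) * (N : ℝ) ^ sg 0 ≤
          (Real.sqrt W.card * (N : ℝ) ^ ((1 : ℝ) / 2)) * (N : ℝ) ^ sg 0 :=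
          mul_le_mul_of_nonneg_right h1 (by positivity)
      _ = ((N : ℝ) ^ ((1 : ℝ) / 2) * (N : ℝ) ^ sg 0) * Real.sqrt W.card := by ring
      _ ≤ _ := by
        apply mul_le_mul_of_nonneg_right _ (Real.sqrt_nonneg _)
        rw [← Real.rpow_add hN0]
        apply Real.rpow_le_rpow_of_exponent_le hN1
        simp only [hsg]
        push_cast
        linarith
  have hmain : ‖∑ n ∈ S, ∑ t ∈ W, ph n t‖ ≤ (W.card : ℝ) * (N : ℝ) ^ sg 0 +
      ∑ j ∈ range J, ((W.filter (fun t => (N : ℝ) ^ sg j < ‖D t‖)).card : ℝ) *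
        (N : ℝ) ^ sg (j + 1) := by
    rw [sum_comm]
    calc ‖∑ t ∈ W, ∑ n ∈ S, ph n t‖ ≤ ∑ t ∈ W, ‖∑ n ∈ S, ph n t‖ := norm_sum_le _ _
      _ = ∑ t ∈ W, ‖D t‖ := sum_congr rfl fun t _ => by rw [hDS]
      _ ≤ ∑ t ∈ W, ((N : ℝ) ^ sg 0 +
          ∑ j ∈ range J, (if (N : ℝ) ^ sg j < ‖D t‖ then (N : ℝ) ^ sg (j + 1) else 0)) :=
        sum_le_sum fun t _ => level_le ‖D t‖ (fun j => (N : ℝ) ^ sg j) (fun j => by positivity) J
          (hDle t)
      _ = _ := by
        rw [sum_add_distrib, sum_const, nsmul_eq_mul, sum_comm]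
        congr 1
        apply sum_congr rfl
        intro j _
        rw [← sum_filter, sum_const, nsmul_eq_mul]
  calc ‖∑ n ∈ S, ∑ t ∈ W, ph n t‖ ≤ _ := hmain
    _ ≤ (N : ℝ) ^ (1 + ε) * Real.sqrt W.card +
        ∑ j ∈ range J, Real.sqrt (max (C j) 0) * ((N : ℝ) ^ (1 + ε) * Real.sqrt W.card) :=
      add_le_add hfirst (sum_le_sum fun j _ => hterm j)
    _ = (1 + ∑ j ∈ range J, Real.sqrt (max (C j) 0)) * ((N : ℝ) ^ (1 + ε) * Real.sqrt W.card) := by
      rw [← sum_mul]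
      ring
    _ ≤ (2 + ∑ j ∈ range J, Real.sqrt (max (C j) 0)) * ((N : ℝ) ^ (1 + ε) * Real.sqrt W.card) := by
      apply mul_le_mul_of_nonneg_right _ (by positivity)
      linarith
    _ = _ := by ring


theorem ph_mul {d a : ℕ} (hd : 1 ≤ d) (ha : 1 ≤ a) (t : ℤ) : ph (d * a) t = ph d t * ph a t := by
  unfold ph
  rw [← Complex.exp_add]
  congr 1
  have h1 : (d : ℝ) ≠ 0 := by
    have : d ≠ 0 := by omega
    exact_mod_cast this
  have h2 : (a : ℝ) ≠ 0 := by
    have : a ≠ 0 := by omega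
    exact_mod_cast this
  push_cast
  rw [← Complex.ofReal_natCast, ← Complex.ofReal_natCast (n := a)]
  have h3 : Real.log ((d : ℝ) * (a : ℝ)) = Real.log d + Real.log a := Real.log_mul h1 h2
  rw [h3]
  push_cast
  ring

/-- the `ℓ¹` bound for coefficients supported on `𝒜 N` and sets of integers of any size -/
theorem l1_in (𝒜 : ℕ → Set ℕ) (C A : ℝ) (hC : 0 ≤ C) (N : ℕ) (hN : 1 ≤ N) (ε : ℝ)
    (h : ∀ S ⊆ Icc N (2 * N), (∀ n ∈ S, n ∈ 𝒜 N) → ∀ W : Finset ℤ, W.card ≤ N →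
      (∀ t ∈ W, 0 ≤ (t : ℝ) ∧ (t : ℝ) ≤ (N : ℝ) ^ A) →
      ‖∑ n ∈ S, ∑ t ∈ W, ph n t‖ ≤ C * (N : ℝ) ^ (1 + ε) * Real.sqrt W.card)
    (b : ℕ → ℂ) (hb : ∀ n, ‖b n‖ ≤ 1) (hbA : ∀ n, b n ≠ 0 → n ∈ 𝒜 N) (W : Finset ℤ)
    (hW : ∀ t ∈ W, 0 ≤ (t : ℝ) ∧ (t : ℝ) ≤ (N : ℝ) ^ A) :
    ∑ t ∈ W, ‖∑ n ∈ Icc N (2 * N), b n * ph n t‖ ≤
      32 * C * (N : ℝ) ^ ε * (N * Real.sqrt W.card + W.card * Real.sqrt N) := by
  classical
  have hN1 : (1 : ℝ) ≤ N := by exact_mod_cast hN
  have hN0 : (0 : ℝ) < N := by linarith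
  have hred : ∀ t, ∑ n ∈ Icc N (2 * N), b n * ph n t =
      ∑ n ∈ (Icc N (2 * N)).filter (fun n => n ∈ 𝒜 N), b n * ph n t := by
    intro t
    rw [Finset.sum_filter]
    apply Finset.sum_congr rfl
    intro n _
    split_ifs with hn
    · rfl
    · have : b n = 0 := by
        by_contra h0
        exact hn (hbA n h0)
      rw [this, zero_mul]
  simp_rw [hred]
  have hsmall : ∀ V ⊆ W, V.card ≤ N →
      ∑ t ∈ V, ‖∑ n ∈ (Icc N (2 * N)).filter (fun n => n ∈ 𝒜 N), b n * ph n t‖ ≤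
      16 * (C * (N : ℝ) ^ (1 + ε) * Real.sqrt V.card) := by
    intro V hV hVN
    apply sum_norm_poly_le ((Icc N (2 * N)).filter (fun n => n ∈ 𝒜 N)) V ph _ _ b hb
    intro S hS U hU
    have hUc : U.card ≤ V.card := card_le_card hU
    refine (h S (hS.trans (Finset.filter_subset _ _)) (fun n hn => (Finset.mem_filter.1 (hS hn)).2)
      U (hUc.trans hVN) fun t ht => hW t (hV (hU ht))).trans ?_
    have : Real.sqrt U.card ≤ Real.sqrt V.card := Real.sqrt_le_sqrt (by exact_mod_cast hUc)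
    gcongr
  have hpow : (N : ℝ) ^ (1 + ε) = N * (N : ℝ) ^ ε := by
    rw [Real.rpow_add hN0, Real.rpow_one]
  have hNe : 0 ≤ (N : ℝ) ^ ε := by positivity
  have hR0 : (0 : ℝ) ≤ W.card := Nat.cast_nonneg _
  rcases Nat.lt_or_ge N W.card with hc | hc
  · have h1 := sum_le_pieces N hN
      (fun t => ‖∑ n ∈ (Icc N (2 * N)).filter (fun n => n ∈ 𝒜 N), b n * ph n t‖)
      (16 * (C * (N : ℝ) ^ (1 + ε) * Real.sqrt N)) W (fun V hV hVc => by
        refine (hsmall V hV hVc).trans ?_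
        have : Real.sqrt V.card ≤ Real.sqrt N := Real.sqrt_le_sqrt (by exact_mod_cast hVc)
        gcongr) (by positivity)
    refine h1.trans ?_
    have hc' : (N : ℝ) ≤ W.card := by exact_mod_cast hc.le
    have h2 : (W.card : ℝ) / N + 1 ≤ 2 * (W.card / N) := by
      have : 1 ≤ (W.card : ℝ) / N := by rwa [one_le_div hN0]
      linarith
    calc 16 * (C * (N : ℝ) ^ (1 + ε) * Real.sqrt N) * ((W.card : ℝ) / N + 1) ≤
          16 * (C * (N : ℝ) ^ (1 + ε) * Real.sqrt N) * (2 * (W.card / N)) :=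
          mul_le_mul_of_nonneg_left h2 (by positivity)
      _ = 32 * C * (N : ℝ) ^ ε * (W.card * Real.sqrt N) := by
          rw [hpow]
          field_simp
          ring
      _ ≤ _ := by
          apply mul_le_mul_of_nonneg_left _ (by positivity)
          have : 0 ≤ N * Real.sqrt W.card := by positivity
          linarith
  · refine (hsmall W (Subset.refl _) hc).trans ?_
    rw [hpow]
    have h3 : 0 ≤ 16 * C * (N : ℝ) ^ ε * (N * Real.sqrt W.card) := by positivity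
    have h4 : 0 ≤ 32 * C * (N : ℝ) ^ ε * (W.card * Real.sqrt N) := by positivity
    nlinarith

theorem bilinear_of_in (𝒜 : ℕ → Set ℕ) (hcov : Covers 𝒜) (h : BilinearIn 𝒜) : Bilinear := by
  classical
  obtain ⟨D, hD, hsumD⟩ := hcov
  intro A hA ε hε
  set δ : ℝ := ε / 4 with hδ
  have hδ0 : 0 < δ := by positivity
  set A' : ℝ := max 1 (A / δ) with hA'
  obtain ⟨C₀, hC₀⟩ := h A' (le_max_left _ _) δ hδ0
  set C : ℝ := max C₀ 0 with hCdef
  have hC0 : 0 ≤ C := le_max_right _ _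
  obtain ⟨C₁, hC₁⟩ := hsumD δ hδ0
  refine ⟨(128 * C + 4) * max C₁ 0, ?_⟩
  intro N hN S hS W hWN hWT
  have hN1 : (1 : ℝ) ≤ N := by exact_mod_cast hN
  have hN0 : (0 : ℝ) < N := by linarith
  have hR0 : (0 : ℝ) ≤ W.card := Nat.cast_nonneg _
  have hRN : (W.card : ℝ) ≤ N := by exact_mod_cast hWN
  set R : ℝ := Real.sqrt W.card with hR
  have hR0' : 0 ≤ R := Real.sqrt_nonneg _
  have hRR : (W.card : ℝ) = R * R := (Real.mul_self_sqrt hR0).symm
  have hRle : R ≤ Real.sqrt N := Real.sqrt_le_sqrt hRN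
  choose! g hg using hD N hN
  have hK0 : 0 ≤ 128 * C + 4 := by linarith
  have hNp : 0 ≤ (N : ℝ) ^ (1 + δ) := Real.rpow_nonneg hN0.le _
  -- the pieces
  have hmem : ∀ n ∈ S, g n ∈ D N := fun n hn => (hg n (hS hn)).1
  have hsplit : ∀ t, ∑ n ∈ S, ph n t = ∑ d ∈ D N, ∑ n ∈ S.filter (fun n => g n = d), ph n t :=
    fun t => (Finset.sum_fiberwise_of_maps_to hmem _).symm
  have hpiece : ∀ d ∈ D N, ∑ t ∈ W, ‖∑ n ∈ S.filter (fun n => g n = d), ph n t‖ ≤
      (128 * C + 4) * ((N : ℝ) ^ (1 + δ) * R) * rs d := by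
    intro d _
    rcases (S.filter (fun n => g n = d)).eq_empty_or_nonempty with he | hne
    · rw [he]
      simp only [Finset.sum_empty, norm_zero, Finset.sum_const_zero]
      exact mul_nonneg (mul_nonneg hK0 (mul_nonneg hNp hR0')) (rs_nonneg d)
    -- `d ≥ 1`
    have hfac : ∀ n ∈ S.filter (fun n => g n = d), 1 ≤ d ∧ d ∣ n ∧ 1 ≤ n / d ∧ n = d * (n / d) ∧
        n / d ∈ 𝒜 ((N + d - 1) / d) := by
      intro n hn
      rw [Finset.mem_filter] at hn
      obtain ⟨-, a, ha, hna⟩ := hg n (hS hn.1)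
      rw [hn.2] at ha hna
      have hn1 : 1 ≤ n := hN.trans (Finset.mem_Icc.1 (hS hn.1)).1
      have hd0 : d ≠ 0 := fun h0 => by rw [h0, zero_mul] at hna; omega
      have ha0 : a ≠ 0 := fun h0 => by rw [h0, mul_zero] at hna; omega
      have hdiv : n / d = a := by
        rw [hna, Nat.mul_div_cancel_left a (Nat.pos_of_ne_zero hd0)]
      rw [hdiv]
      exact ⟨Nat.one_le_iff_ne_zero.2 hd0, ⟨a, hna⟩, Nat.one_le_iff_ne_zero.2 ha0, hna, ha⟩
    obtain ⟨n₀, hn₀⟩ := hne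
    have hd1 : 1 ≤ d := (hfac n₀ hn₀).1
    have hdR : (1 : ℝ) ≤ d := by exact_mod_cast hd1
    have hd2N : d ≤ 2 * N := by
      have h1 := (hfac n₀ hn₀)
      have h2 := Finset.mem_Icc.1 (hS (Finset.mem_filter.1 hn₀).1)
      exact (Nat.le_of_dvd (lt_of_lt_of_le hN h2.1) h1.2.1).trans h2.2
    set M : ℕ := (N + d - 1) / d with hM
    have hM1 : 1 ≤ M := by
      rw [hM, Nat.le_div_iff_mul_le (by omega)]
      omega
    have hM1R : (1 : ℝ) ≤ M := by exact_mod_cast hM1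
    have hM0 : (0 : ℝ) < M := by linarith
    have hMle : (M : ℝ) ≤ 2 * N / d := by
      rcases Nat.lt_or_ge N d with hdN | hdN
      · have h1 : M = 1 := by
          apply le_antisymm _ hM1
          rw [hM]
          apply Nat.lt_succ_iff.1
          rw [Nat.div_lt_iff_lt_mul (by omega)]
          omega
        rw [h1, le_div_iff₀ (by linarith)]
        push_cast
        rw [one_mul]
        exact_mod_cast hd2N
      · rw [le_div_iff₀ (by linarith)]
        have h1 : M * d ≤ N + d - 1 := Nat.div_mul_le_self _ _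
        have h2 : M * d ≤ 2 * N := by omega
        exact_mod_cast h2
    have hMN : M ≤ N := by
      rw [hM]
      apply Nat.div_le_of_le_mul
      obtain ⟨e, he⟩ : ∃ e, d = e + 1 := ⟨d - 1, by omega⟩
      obtain ⟨m, hm⟩ : ∃ m, N = m + 1 := ⟨N - 1, by omega⟩
      rw [he, hm]
      have h1 : (e + 1) * (m + 1) = e * m + e + m + 1 := by ring
      have h2 : m + 1 + (e + 1) - 1 = e + m + 1 := by omega
      rw [h1, h2]
      have : 0 ≤ e * m := Nat.zero_le _
      omega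
    have hMNR : (M : ℝ) ≤ N := by exact_mod_cast hMN
    -- the polynomial of length `M`
    set b : ℕ → ℂ := fun a => if d * a ∈ S.filter (fun n => g n = d) then 1 else 0 with hb
    have hbn : ∀ a, ‖b a‖ ≤ 1 := by
      intro a
      simp only [hb]
      split_ifs <;> simp
    have hbA : ∀ a, b a ≠ 0 → a ∈ 𝒜 M := by
      intro a ha
      simp only [hb] at ha
      by_cases h1 : d * a ∈ S.filter (fun n => g n = d)
      · have h2 := (hfac _ h1).2.2.2.2
        rwa [Nat.mul_div_cancel_left a (by omega)] at h2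
      · rw [if_neg h1] at ha
        exact absurd rfl ha
    have hpoly : ∀ t, ‖∑ n ∈ S.filter (fun n => g n = d), ph n t‖ =
        ‖∑ a ∈ Icc M (2 * M), b a * ph a t‖ := by
      intro t
      have h1 : ∑ n ∈ S.filter (fun n => g n = d), ph n t =
          ph d t * ∑ a ∈ Icc M (2 * M), b a * ph a t := by
        rw [Finset.mul_sum]
        have h2 : ∀ a ∈ Icc M (2 * M), ph d t * (b a * ph a t) =
            if d * a ∈ S.filter (fun n => g n = d) then ph (d * a) t else 0 := by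
          intro a ha
          have ha1 : 1 ≤ a := hM1.trans (Finset.mem_Icc.1 ha).1
          simp only [hb]
          split_ifs with h3
          · rw [ph_mul hd1 ha1, one_mul]
          · rw [zero_mul, mul_zero]
        rw [Finset.sum_congr rfl h2, ← Finset.sum_filter]
        symm
        apply Finset.sum_bij (fun a _ => d * a)
        · intro a ha
          exact (Finset.mem_filter.1 ha).2
        · intro a _ a' _ haa
          exact Nat.eq_of_mul_eq_mul_left (by omega) haa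
        · intro n hn
          have h4 := hfac n hn
          have h5 := Finset.mem_Icc.1 (hS (Finset.mem_filter.1 hn).1)
          refine ⟨n / d, ?_, h4.2.2.2.1.symm⟩
          rw [Finset.mem_filter, Finset.mem_Icc, ← h4.2.2.2.1]
          refine ⟨⟨?_, ?_⟩, hn⟩
          · have h6 : M < n / d + 1 := by
              rw [hM, Nat.div_lt_iff_lt_mul (by omega)]
              have h7 : (n / d + 1) * d = d * (n / d) + d := by ring
              rw [h7, ← h4.2.2.2.1]
              omega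
            omega
          · have h6 : N ≤ M * d := by
              have := Nat.lt_div_mul_add (a := N + d - 1) (b := d) (by omega)
              rw [← hM] at this
              omega
            have h7 : d * (n / d) ≤ d * (2 * M) := by
              rw [← h4.2.2.2.1]
              calc n ≤ 2 * N := h5.2
                _ ≤ 2 * (M * d) := Nat.mul_le_mul_left 2 h6
                _ = d * (2 * M) := by ring
            exact Nat.le_of_mul_le_mul_left h7 (by omega)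
        · intro a _
          rfl
      rw [h1, norm_mul, norm_ph, one_mul]
    simp_rw [hpoly]
    -- the square root of `M`
    have hrs : rs d = (Real.sqrt d)⁻¹ := by
      rw [rs_apply, Real.rpow_neg (Nat.cast_nonneg _), ← Real.sqrt_eq_rpow]
    have hsd : 1 ≤ Real.sqrt d := Real.one_le_sqrt.2 hdR
    have hrs1 : rs d ≤ 1 := by
      rw [hrs]
      exact inv_le_one_of_one_le₀ hsd
    have hsqM : Real.sqrt M ≤ 2 * (Real.sqrt N * rs d) := by
      calc Real.sqrt M ≤ Real.sqrt (2 * N / d) := Real.sqrt_le_sqrt hMle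
        _ = Real.sqrt 2 * Real.sqrt N / Real.sqrt d := by
            rw [Real.sqrt_div (by positivity), Real.sqrt_mul (by norm_num)]
        _ ≤ 2 * Real.sqrt N / Real.sqrt d := by
            apply div_le_div_of_nonneg_right _ (Real.sqrt_nonneg _)
            apply mul_le_mul_of_nonneg_right _ (Real.sqrt_nonneg _)
            rw [Real.sqrt_le_left (by norm_num)]
            norm_num
        _ = _ := by rw [hrs]; ring
    have hsN : Real.sqrt N * Real.sqrt N = N := Real.mul_self_sqrt hN0.le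
    have hsM : Real.sqrt M * Real.sqrt M = M := Real.mul_self_sqrt hM0.le
    have hsM0 : 0 ≤ Real.sqrt (M : ℝ) := Real.sqrt_nonneg _
    have hsN0 : 0 ≤ Real.sqrt (N : ℝ) := Real.sqrt_nonneg _
    have hrs0 : 0 ≤ rs d := rs_nonneg d
    have hMrs : (M : ℝ) ≤ 2 * (N * rs d) := by
      calc (M : ℝ) = Real.sqrt M * Real.sqrt M := hsM.symm
        _ ≤ Real.sqrt N * (2 * (Real.sqrt N * rs d)) :=
            mul_le_mul (Real.sqrt_le_sqrt hMNR) hsqM hsM0 hsN0
        _ = 2 * ((Real.sqrt N * Real.sqrt N) * rs d) := by ring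
        _ = _ := by rw [hsN]
    have hNpow : (N : ℝ) ^ (1 + δ) = N * (N : ℝ) ^ δ := by
      rw [Real.rpow_add hN0, Real.rpow_one]
    have hNδ : 0 ≤ (N : ℝ) ^ δ := by positivity
    rcases le_total ((N : ℝ) ^ δ) (M : ℝ) with hcase | hcase
    · -- long polynomials
      have hTM : (N : ℝ) ^ A ≤ (M : ℝ) ^ A' := by
        calc (N : ℝ) ^ A = ((N : ℝ) ^ δ) ^ (A / δ) := by
              rw [← Real.rpow_mul hN0.le]
              congr 1
              field_simp
          _ ≤ (M : ℝ) ^ (A / δ) := Real.rpow_le_rpow (by positivity) hcase (by positivity)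
          _ ≤ (M : ℝ) ^ A' := Real.rpow_le_rpow_of_exponent_le hM1R (le_max_right _ _)
      have h1 := l1_in 𝒜 C A' hC0 M hM1 δ (fun S' hS' hSA' W' hW' hT' => by
        refine (hC₀ M hM1 S' hS' hSA' W' hW' hT').trans ?_
        exact mul_le_mul_of_nonneg_right (mul_le_mul_of_nonneg_right (le_max_left _ _)
          (Real.rpow_nonneg hM0.le _)) (Real.sqrt_nonneg _)) b hbn hbA W (fun t ht => ⟨(hWT t ht).1, (hWT t ht).2.trans hTM⟩)
      have h2 : (M : ℝ) * Real.sqrt W.card + W.card * Real.sqrt M ≤ 4 * (N * R * rs d) := by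
        rw [← hR, hRR]
        have e1 : (M : ℝ) * R ≤ 2 * (N * rs d) * R := mul_le_mul_of_nonneg_right hMrs hR0'
        have e2 : R * R * Real.sqrt M ≤ Real.sqrt N * R * (2 * (Real.sqrt N * rs d)) := by
          apply mul_le_mul _ hsqM hsM0 (mul_nonneg hsN0 hR0')
          exact mul_le_mul_of_nonneg_right hRle hR0'
        have e3 : Real.sqrt N * R * (2 * (Real.sqrt N * rs d)) = 2 * (N * rs d) * R := by
          calc Real.sqrt N * R * (2 * (Real.sqrt N * rs d)) =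
                2 * ((Real.sqrt N * Real.sqrt N) * rs d) * R := by ring
            _ = _ := by rw [hsN]
        calc (M : ℝ) * R + R * R * Real.sqrt M ≤ 2 * (N * rs d) * R + 2 * (N * rs d) * R := by
              linarith
          _ = _ := by ring
      have h3 : (M : ℝ) ^ δ ≤ (N : ℝ) ^ δ := Real.rpow_le_rpow hM0.le hMNR hδ0.le
      calc _ ≤ _ := h1
        _ ≤ 32 * C * (N : ℝ) ^ δ * (4 * (N * R * rs d)) := by
            apply mul_le_mul _ h2 _ (mul_nonneg (mul_nonneg (by norm_num) hC0) hNδ)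
            · exact mul_le_mul_of_nonneg_left h3 (mul_nonneg (by norm_num) hC0)
            · exact add_nonneg (mul_nonneg hM0.le (Real.sqrt_nonneg _)) (mul_nonneg hR0 hsM0)
        _ = 128 * C * ((N : ℝ) ^ (1 + δ) * R) * rs d := by rw [hNpow]; ring
        _ ≤ _ := by
            have h9 : 0 ≤ ((N : ℝ) ^ (1 + δ) * R) * rs d := mul_nonneg (mul_nonneg hNp hR0') hrs0
            have h10 : 0 ≤ C * (((N : ℝ) ^ (1 + δ) * R) * rs d) := mul_nonneg hC0 h9
            linarith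
    · -- short polynomials
      have h1 : ∀ t, ‖∑ a ∈ Icc M (2 * M), b a * ph a t‖ ≤ 2 * M := by
        intro t
        calc ‖∑ a ∈ Icc M (2 * M), b a * ph a t‖ ≤ ∑ a ∈ Icc M (2 * M), ‖b a * ph a t‖ :=
              norm_sum_le _ _
          _ ≤ ∑ a ∈ Icc M (2 * M), (1 : ℝ) := by
              apply Finset.sum_le_sum
              intro a _
              rw [norm_mul, norm_ph, mul_one]
              exact hbn a
          _ = M + 1 := by
              rw [Finset.sum_const, Nat.card_Icc, nsmul_eq_mul, mul_one]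
              have : 2 * M + 1 - M = M + 1 := by omega
              rw [this]
              push_cast
              ring
          _ ≤ 2 * M := by linarith
      have h2 : Real.sqrt M ≤ (N : ℝ) ^ δ := by
        have h3 : Real.sqrt M ≤ M := by
          rw [Real.sqrt_le_left hM0.le]
          nlinarith
        exact h3.trans hcase
      calc ∑ t ∈ W, ‖∑ a ∈ Icc M (2 * M), b a * ph a t‖ ≤ ∑ t ∈ W, (2 * (M : ℝ)) :=
            Finset.sum_le_sum fun t _ => h1 t
        _ = 2 * (R * R) * (Real.sqrt M * Real.sqrt M) := by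
            rw [Finset.sum_const, nsmul_eq_mul, hsM, hRR]
            ring
        _ ≤ 2 * (Real.sqrt N * R) * ((N : ℝ) ^ δ * (2 * (Real.sqrt N * rs d))) := by
            apply mul_le_mul
            · apply mul_le_mul_of_nonneg_left _ (by norm_num)
              exact mul_le_mul_of_nonneg_right hRle hR0'
            · exact mul_le_mul h2 hsqM hsM0 hNδ
            · exact mul_nonneg hsM0 hsM0
            · exact mul_nonneg (by norm_num) (mul_nonneg hsN0 hR0')
        _ = 4 * ((Real.sqrt N * Real.sqrt N) * (N : ℝ) ^ δ * R) * rs d := by ring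
        _ = 4 * ((N : ℝ) ^ (1 + δ) * R) * rs d := by rw [hsN, hNpow]
        _ ≤ _ := by
            have h9 : 0 ≤ ((N : ℝ) ^ (1 + δ) * R) * rs d := mul_nonneg (mul_nonneg hNp hR0') hrs0
            have h10 : 0 ≤ C * (((N : ℝ) ^ (1 + δ) * R) * rs d) := mul_nonneg hC0 h9
            linarith
  have hfin : ‖∑ n ∈ S, ∑ t ∈ W, ph n t‖ ≤
      ∑ d ∈ D N, (128 * C + 4) * ((N : ℝ) ^ (1 + δ) * R) * rs d := by
    rw [Finset.sum_comm]
    calc ‖∑ t ∈ W, ∑ n ∈ S, ph n t‖ ≤ ∑ t ∈ W, ‖∑ n ∈ S, ph n t‖ := norm_sum_le _ _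
      _ ≤ ∑ t ∈ W, ∑ d ∈ D N, ‖∑ n ∈ S.filter (fun n => g n = d), ph n t‖ := by
          apply Finset.sum_le_sum
          intro t _
          rw [hsplit t]
          exact norm_sum_le _ _
      _ = ∑ d ∈ D N, ∑ t ∈ W, ‖∑ n ∈ S.filter (fun n => g n = d), ph n t‖ := Finset.sum_comm
      _ ≤ _ := Finset.sum_le_sum hpiece
  rw [← Finset.mul_sum] at hfin
  have h1 : ∑ d ∈ D N, rs d ≤ max C₁ 0 * (N : ℝ) ^ δ :=
    (hC₁ N hN).trans (mul_le_mul_of_nonneg_right (le_max_left _ _) (by positivity))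
  calc ‖∑ n ∈ S, ∑ t ∈ W, ph n t‖ ≤ _ := hfin
    _ ≤ (128 * C + 4) * ((N : ℝ) ^ (1 + δ) * R) * (max C₁ 0 * (N : ℝ) ^ δ) :=
        mul_le_mul_of_nonneg_left h1 (mul_nonneg hK0 (mul_nonneg hNp hR0'))
    _ = (128 * C + 4) * max C₁ 0 * ((N : ℝ) ^ (1 + δ) * (N : ℝ) ^ δ) * R := by ring
    _ ≤ (128 * C + 4) * max C₁ 0 * (N : ℝ) ^ (1 + ε) * R := by
        apply mul_le_mul_of_nonneg_right _ hR0'
        apply mul_le_mul_of_nonneg_left _ (mul_nonneg hK0 (le_max_right _ _))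
        rw [← Real.rpow_add hN0]
        apply Real.rpow_le_rpow_of_exponent_le hN1
        rw [hδ]
        linarith

theorem montgomery_imp_in (𝒜 : ℕ → Set ℕ) (h : Montgomery) : ForSetsIn 𝒜 := by
  classical
  intro A σ hσ ε hε
  obtain ⟨C, hC⟩ := h A σ hσ ε hε
  refine ⟨C, fun N hN T hNT hTA S hS _ W hW => hC N hN T hNT hTA
    (fun n => if n ∈ S then 1 else 0) (fun n => by
      change ‖(if n ∈ S then (1 : ℂ) else 0)‖ ≤ 1
      split_ifs <;> simp) W fun t ht => ?_⟩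
  refine ⟨(hW t ht).1, (hW t ht).2.1, ?_⟩
  have h1 : ∑ n ∈ Icc N (2 * N), (if n ∈ S then (1 : ℂ) else 0) * ph n t = ∑ n ∈ S, ph n t := by
    simp only [ite_mul, one_mul, zero_mul]
    rw [sum_ite_mem, inter_eq_right.2 hS]
  rw [h1]
  exact (hW t ht).2.2

theorem lv_in (𝒜 : ℕ → Set ℕ) (hcov : Covers 𝒜) : Montgomery ↔ ForSetsIn 𝒜 :=
  ⟨montgomery_imp_in 𝒜, fun h => bilinear_imp (bilinear_of_in 𝒜 hcov (forSetsIn_imp 𝒜 h))⟩

end Pool.Agent.X159.MB
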