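import Pool.Agent.X159.MB.WS
import Pool.Agent.X159.MB.RoughLQ

/-!
Large values at well spaced points and mean values over the integers of a family `𝒜` whose
dilates cover.
-/

set_option autoImplicit false

namespace Pool.Agent.X159.MB

open Finset WM

/-- every positive integer `n ≤ N` is `d a` with `a ∈ 𝒜 ⌊N/d⌋`, where `∑ d^(-1/2) ≤ C_ε N^ε` -/
def CoversBelow (𝒜 : ℕ → Set ℕ) : Prop :=
  ∃ D : ℕ → Finset ℕ, (∀ N : ℕ, 1 ≤ N → ∀ n ∈ Icc 1 N,
      ∃ d ∈ D N, ∃ a ∈ 𝒜 (N / d), n = d * a) ∧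
    ∀ ε : ℝ, 0 < ε → ∃ C : ℝ, ∀ N : ℕ, 1 ≤ N → ∑ d ∈ D N, rs d ≤ C * (N : ℝ) ^ ε

theorem sum_dil_le (P : ℕ → Set ℕ) (hP : Thin P) :
    ∀ ε : ℝ, 0 < ε → ∃ C : ℝ, ∀ N : ℕ, 1 ≤ N → ∑ d ∈ dil P N, rs d ≤ C * (N : ℝ) ^ ε := by
  classical
  obtain ⟨hprime, hmono, hthin⟩ := hP
  intro ε hε
  obtain ⟨C, hC⟩ := hthin (ε / 8) (by positivity)
  refine ⟨(1 + 4 / ε) * Real.exp (4 * C) * 2 ^ (ε / 2), fun N hN => ?_⟩
  have hN1 : (1 : ℝ) ≤ N := by exact_mod_cast hN
  have hN0 : (0 : ℝ) < N := by linarith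
  obtain ⟨Q, hQ, hsum⟩ := sum_ind_le (P N) (2 * N)
  have h1 : ∑ s ∈ Icc 1 (2 * N), ind (P N) s * rs s ≤ Real.exp (4 * C) * (N : ℝ) ^ (ε / 2) := by
    refine hsum.trans ?_
    have h2 := hC N hN Q (fun p hp => ⟨(hQ p hp).2.1, (hQ p hp).2.2⟩)
    have h3 : ∑ p ∈ Q, rs p ≤ ε / 8 * Real.log N + C := h2
    calc Real.exp (4 * ∑ p ∈ Q, rs p) ≤ Real.exp (4 * C + Real.log N * (ε / 2)) := by
          apply Real.exp_le_exp.2
          linarith
      _ = _ := by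
          rw [Real.exp_add, Real.rpow_def_of_pos hN0]
  have h4 : ∑ m ∈ Icc 1 (2 * N), (m : ℝ)⁻¹ ≤ (1 + 4 / ε) * (2 ^ (ε / 2) * (N : ℝ) ^ (ε / 2)) := by
    have h5 := harmonic_le_one_add_log (2 * N)
    rw [harmonic_eq_sum_Icc] at h5
    push_cast at h5
    have h6 : Real.log (2 * (N : ℝ)) ≤ (2 * (N : ℝ)) ^ (ε / 2) / (ε / 2) :=
      Real.log_le_rpow_div (by positivity) (by positivity)
    have h7 : (2 * (N : ℝ)) ^ (ε / 2) = 2 ^ (ε / 2) * (N : ℝ) ^ (ε / 2) :=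
      Real.mul_rpow (by norm_num) hN0.le
    have h8 : 1 ≤ (2 * (N : ℝ)) ^ (ε / 2) := Real.one_le_rpow (by linarith) (by positivity)
    rw [← h7]
    have h9 : (2 * (N : ℝ)) ^ (ε / 2) / (ε / 2) = 2 / ε * (2 * (N : ℝ)) ^ (ε / 2) := by
      field_simp
    have h10 : 0 ≤ 2 / ε * (2 * (N : ℝ)) ^ (ε / 2) := by positivity
    calc ∑ m ∈ Icc 1 (2 * N), (m : ℝ)⁻¹ ≤ 1 + Real.log (2 * (N : ℝ)) := h5
      _ ≤ (2 * (N : ℝ)) ^ (ε / 2) + 2 / ε * (2 * (N : ℝ)) ^ (ε / 2) := by linarith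
      _ ≤ (1 + 4 / ε) * (2 * (N : ℝ)) ^ (ε / 2) := by
          have : 4 / ε * (2 * (N : ℝ)) ^ (ε / 2) = 2 * (2 / ε * (2 * (N : ℝ)) ^ (ε / 2)) := by
            ring
          nlinarith
  calc ∑ d ∈ dil P N, rs d ≤ _ := sum_dil P N
    _ ≤ ((1 + 4 / ε) * (2 ^ (ε / 2) * (N : ℝ) ^ (ε / 2))) *
          (Real.exp (4 * C) * (N : ℝ) ^ (ε / 2)) := by
        apply mul_le_mul h4 h1 _ (by positivity)
        exact Finset.sum_nonneg fun s _ => mul_nonneg (ind_nonneg _ _) (rs_nonneg s)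
    _ = (1 + 4 / ε) * Real.exp (4 * C) * 2 ^ (ε / 2) *
          ((N : ℝ) ^ (ε / 2) * (N : ℝ) ^ (ε / 2)) := by ring
    _ = _ := by
        rw [← Real.rpow_add hN0]
        congr 2
        ring

theorem coversBelow_rough (P : ℕ → Set ℕ) (hP : Thin P) : CoversBelow (rough P) := by
  classical
  obtain ⟨hprime, hmono, hthin⟩ := hP
  refine ⟨dil P, ?_, (sum_dil_le P ⟨hprime, hmono, hthin⟩)⟩
  intro N hN n hn
  rw [Finset.mem_Icc] at hn
  obtain ⟨a0, b, ha0, hb, hab, hsq⟩ := Nat.sq_mul_squarefree_of_pos (n := n) (by omega)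
  obtain ⟨s, a, hsa, hs0, hs, ha⟩ := cover_rough (P N) (hprime N) a0 ha0
  have ha1 : a ≠ 0 := by
    rintro rfl
    rw [mul_zero] at hsa
    omega
  have hn' : n = b ^ 2 * s * a := by rw [← hab, hsa, mul_assoc]
  have hbn : b ≤ n := by
    calc b ≤ b ^ 2 := Nat.le_self_pow (by norm_num) b
      _ ≤ b ^ 2 * a0 := Nat.le_mul_of_pos_right _ ha0
      _ = n := hab
  have hsn : s ≤ n := by
    calc s ≤ s * a := Nat.le_mul_of_pos_right _ (Nat.pos_of_ne_zero ha1)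
      _ = a0 := hsa.symm
      _ ≤ b ^ 2 * a0 := Nat.le_mul_of_pos_left _ (by positivity)
      _ = n := hab
  refine ⟨b ^ 2 * s, ?_, a, ⟨?_, fun p hp => ?_⟩, hn'⟩
  · unfold dil
    rw [Finset.mem_image]
    refine ⟨(b, s), ?_, rfl⟩
    rw [Finset.mem_product, Finset.mem_filter, Finset.mem_Icc, Finset.mem_Icc]
    exact ⟨⟨hb, by omega⟩, ⟨Nat.pos_of_ne_zero hs0, by omega⟩, hs⟩
  · exact hsq.squarefree_of_dvd ⟨s, by rw [hsa, mul_comm]⟩
  · exact ha p (hmono _ N (Nat.div_le_self _ _) hp)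

/-- the bilinear estimate for the sets `S ⊆ [1, N] ∩ 𝒜 N` -/
def BilinearAllRangesIn (𝒜 : ℕ → Set ℕ) : Prop :=
  ∀ A : ℕ, 1 ≤ A → ∀ ε : ℝ, 0 < ε → ∃ C : ℝ, ∀ N : ℕ, 1 ≤ N →
    ∀ S ⊆ Icc 1 N, (∀ n ∈ S, n ∈ 𝒜 N) →
    ∀ W : Finset ℕ, W.card ≤ N → (∀ t ∈ W, t ≤ N ^ A) →
      ‖∑ n ∈ S, ∑ t ∈ W, phn n t‖ ≤ C * (N : ℝ) ^ (1 + ε) * Real.sqrt W.card

open scoped Classical in
/-- the same for the mean value over `n` -/
def MeanValueAllRangesIn (𝒜 : ℕ → Set ℕ) : Prop :=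
  ∀ A : ℕ, 1 ≤ A → ∀ ε : ℝ, 0 < ε → ∃ C : ℝ, ∀ N : ℕ, 1 ≤ N →
    ∀ W : Finset ℕ, W.card ≤ N → (∀ t ∈ W, t ≤ N ^ A) →
      ∑ n ∈ (Icc 1 N).filter (fun n => n ∈ 𝒜 N), ‖∑ t ∈ W, phn n t‖ ≤
        C * (N : ℝ) ^ (1 + ε) * Real.sqrt W.card

theorem bilinearAllIn_iff (𝒜 : ℕ → Set ℕ) : BilinearAllRangesIn 𝒜 ↔ MeanValueAllRangesIn 𝒜 := by
  classical
  constructor
  · intro h A hA ε hε
    obtain ⟨C, hC⟩ := h A hA ε hε
    refine ⟨4 * C, fun N hN W hW hT => ?_⟩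
    have := sum_norm_le ((Icc 1 N).filter (fun n => n ∈ 𝒜 N)) (fun n => ∑ t ∈ W, phn n t)
      (C * (N : ℝ) ^ (1 + ε) * Real.sqrt W.card) fun S hS =>
        hC N hN S (hS.trans (Finset.filter_subset _ _))
          (fun n hn => (Finset.mem_filter.1 (hS hn)).2) W hW hT
    have h2 : 4 * C * (N : ℝ) ^ (1 + ε) * Real.sqrt W.card =
        4 * (C * (N : ℝ) ^ (1 + ε) * Real.sqrt W.card) := by ring
    rw [h2]
    convert this
  · intro h A hA ε hε
    obtain ⟨C, hC⟩ := h A hA ε hε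
    refine ⟨C, fun N hN S hS hSA W hW hT => ?_⟩
    have hsub : S ⊆ (Icc 1 N).filter (fun n => n ∈ 𝒜 N) := fun n hn =>
      Finset.mem_filter.2 ⟨hS hn, hSA n hn⟩
    have h1 := hC N hN W hW hT
    calc ‖∑ n ∈ S, ∑ t ∈ W, phn n t‖ ≤ ∑ n ∈ S, ‖∑ t ∈ W, phn n t‖ := norm_sum_le _ _
      _ ≤ ∑ n ∈ (Icc 1 N).filter (fun n => n ∈ 𝒜 N), ‖∑ t ∈ W, phn n t‖ :=
        sum_le_sum_of_subset_of_nonneg hsub fun _ _ _ => norm_nonneg _
      _ ≤ _ := by convert h1

/-- the `ℓ¹` bound for coefficients supported on `𝒜 N` and sets of integers of any size -/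
theorem l1_inX (𝒜 : ℕ → Set ℕ) (C : ℝ) (hC : 0 ≤ C) (N X : ℕ) (hN : 1 ≤ N) (ε : ℝ)
    (h : ∀ S ⊆ Icc 1 N, (∀ n ∈ S, n ∈ 𝒜 N) → ∀ W : Finset ℕ, W.card ≤ N → (∀ t ∈ W, t ≤ X) →
      ‖∑ n ∈ S, ∑ t ∈ W, phn n t‖ ≤ C * (N : ℝ) ^ (1 + ε) * Real.sqrt W.card)
    (b : ℕ → ℂ) (hb : ∀ n, ‖b n‖ ≤ 1) (hbA : ∀ n, b n ≠ 0 → n ∈ 𝒜 N)
    (W : Finset ℕ) (hW : ∀ t ∈ W, t ≤ X) :
    ∑ t ∈ W, ‖∑ n ∈ Icc 1 N, b n * phn n t‖ ≤
      32 * C * (N : ℝ) ^ ε * (N * Real.sqrt W.card + W.card * Real.sqrt N) := by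
  classical
  have hN1 : (1 : ℝ) ≤ N := by exact_mod_cast hN
  have hN0 : (0 : ℝ) < N := by linarith
  have hred : ∀ t, ∑ n ∈ Icc 1 N, b n * phn n t =
      ∑ n ∈ (Icc 1 N).filter (fun n => n ∈ 𝒜 N), b n * phn n t := by
    intro t
    rw [Finset.sum_filter]
    apply Finset.sum_congr rfl
    intro n _
    split_ifs with hn
    · rfl
    · have : b n = 0 := by
        by_contra h0
        exact hn (hbA n h0)
      rw [this, zero_mul]
  simp_rw [hred]
  have hsmall : ∀ V ⊆ W, V.card ≤ N →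
      ∑ t ∈ V, ‖∑ n ∈ (Icc 1 N).filter (fun n => n ∈ 𝒜 N), b n * phn n t‖ ≤
      16 * (C * (N : ℝ) ^ (1 + ε) * Real.sqrt V.card) := by
    intro V hV hVN
    apply sum_norm_poly_le ((Icc 1 N).filter (fun n => n ∈ 𝒜 N)) V phn _ _ b hb
    intro S hS U hU
    have hUc : U.card ≤ V.card := card_le_card hU
    refine (h S (hS.trans (Finset.filter_subset _ _)) (fun n hn => (Finset.mem_filter.1 (hS hn)).2)
      U (hUc.trans hVN) fun t ht => hW t (hV (hU ht))).trans ?_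
    have : Real.sqrt U.card ≤ Real.sqrt V.card := Real.sqrt_le_sqrt (by exact_mod_cast hUc)
    gcongr
  have hpow : (N : ℝ) ^ (1 + ε) = N * (N : ℝ) ^ ε := by
    rw [Real.rpow_add hN0, Real.rpow_one]
  have hNe : 0 ≤ (N : ℝ) ^ ε := by positivity
  have hR0 : (0 : ℝ) ≤ W.card := Nat.cast_nonneg _
  rcases Nat.lt_or_ge N W.card with hc | hc
  · have h1 := sum_le_pieces N hN
      (fun t => ‖∑ n ∈ (Icc 1 N).filter (fun n => n ∈ 𝒜 N), b n * phn n t‖)
      (16 * (C * (N : ℝ) ^ (1 + ε) * Real.sqrt N)) W (fun V hV hVc => by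
        refine (hsmall V hV hVc).trans ?_
        have : Real.sqrt V.card ≤ Real.sqrt N := Real.sqrt_le_sqrt (by exact_mod_cast hVc)
        gcongr) (by positivity)
    refine h1.trans ?_
    have hc' : (N : ℝ) ≤ W.card := by exact_mod_cast hc.le
    have h2 : (W.card : ℝ) / N + 1 ≤ 2 * (W.card / N) := by
      have : 1 ≤ (W.card : ℝ) / N := by rwa [one_le_div hN0]
      linarith
    calc 16 * (C * (N : ℝ) ^ (1 + ε) * Real.sqrt N) * ((W.card : ℝ) / N + 1) ≤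
          16 * (C * (N : ℝ) ^ (1 + ε) * Real.sqrt N) * (2 * (W.card / N)) :=
          mul_le_mul_of_nonneg_left h2 (by positivity)
      _ = 32 * C * (N : ℝ) ^ ε * (W.card * Real.sqrt N) := by
          rw [hpow]
          field_simp
          ring
      _ ≤ _ := by
          apply mul_le_mul_of_nonneg_left _ (by positivity)
          have : 0 ≤ N * Real.sqrt W.card := by positivity
          linarith
  · refine (hsmall W (Subset.refl _) hc).trans ?_
    rw [hpow]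
    have h3 : 0 ≤ 16 * C * (N : ℝ) ^ ε * (N * Real.sqrt W.card) := by positivity
    have h4 : 0 ≤ 32 * C * (N : ℝ) ^ ε * (W.card * Real.sqrt N) := by positivity
    nlinarith

theorem bilinearAll_of_in (𝒜 : ℕ → Set ℕ) (hcov : CoversBelow 𝒜) (h : BilinearAllRangesIn 𝒜) :
    BilinearAllRanges := by
  classical
  obtain ⟨D, hD, hsumD⟩ := hcov
  intro A hA ε hε
  set δ : ℝ := ε / 4 with hδ
  have hδ0 : 0 < δ := by positivity
  set A' : ℕ := max 1 ⌈(A : ℝ) / δ⌉₊ with hA'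
  obtain ⟨C₀, hC₀⟩ := h A' (le_max_left _ _) δ hδ0
  set C : ℝ := max C₀ 0 with hCdef
  have hC0 : 0 ≤ C := le_max_right _ _
  obtain ⟨C₁, hC₁⟩ := hsumD δ hδ0
  refine ⟨(128 * C + 4) * max C₁ 0, ?_⟩
  intro N hN S hS W hWN hWT
  have hN1 : (1 : ℝ) ≤ N := by exact_mod_cast hN
  have hN0 : (0 : ℝ) < N := by linarith
  have hR0 : (0 : ℝ) ≤ W.card := Nat.cast_nonneg _
  have hRN : (W.card : ℝ) ≤ N := by exact_mod_cast hWN
  set R : ℝ := Real.sqrt W.card with hR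
  have hR0' : 0 ≤ R := Real.sqrt_nonneg _
  have hRR : (W.card : ℝ) = R * R := (Real.mul_self_sqrt hR0).symm
  have hRle : R ≤ Real.sqrt N := Real.sqrt_le_sqrt hRN
  have hK0 : 0 ≤ 128 * C + 4 := by linarith
  have hNp : 0 ≤ (N : ℝ) ^ (1 + δ) := Real.rpow_nonneg hN0.le _
  choose! g hg using hD N hN
  -- the pieces
  have hmem : ∀ n ∈ S, g n ∈ D N := fun n hn => (hg n (hS hn)).1
  have hsplit : ∀ t, ∑ n ∈ S, phn n t = ∑ d ∈ D N, ∑ n ∈ S.filter (fun n => g n = d), phn n t :=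
    fun t => (Finset.sum_fiberwise_of_maps_to hmem _).symm
  have hpiece : ∀ d ∈ D N, ∑ t ∈ W, ‖∑ n ∈ S.filter (fun n => g n = d), phn n t‖ ≤
      (128 * C + 4) * ((N : ℝ) ^ (1 + δ) * R) * rs d := by
    intro d _
    rcases (S.filter (fun n => g n = d)).eq_empty_or_nonempty with he | hne
    · rw [he]
      simp only [Finset.sum_empty, norm_zero, Finset.sum_const_zero]
      exact mul_nonneg (mul_nonneg hK0 (mul_nonneg hNp hR0')) (rs_nonneg d)
    have hfac : ∀ n ∈ S.filter (fun n => g n = d), 1 ≤ d ∧ d ∣ n ∧ 1 ≤ n / d ∧ n = d * (n / d) ∧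
        n / d ∈ 𝒜 (N / d) := by
      intro n hn
      rw [Finset.mem_filter] at hn
      obtain ⟨-, a, ha, hna⟩ := hg n (hS hn.1)
      rw [hn.2] at ha hna
      have hn1 : 1 ≤ n := (Finset.mem_Icc.1 (hS hn.1)).1
      have hd0 : d ≠ 0 := fun h0 => by rw [h0, zero_mul] at hna; omega
      have ha0 : a ≠ 0 := fun h0 => by rw [h0, mul_zero] at hna; omega
      have hdiv : n / d = a := by
        rw [hna, Nat.mul_div_cancel_left a (Nat.pos_of_ne_zero hd0)]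
      rw [hdiv]
      exact ⟨Nat.one_le_iff_ne_zero.2 hd0, ⟨a, hna⟩, Nat.one_le_iff_ne_zero.2 ha0, hna, ha⟩
    obtain ⟨n₀, hn₀⟩ := hne
    have hd1 : 1 ≤ d := (hfac n₀ hn₀).1
    have hdR : (1 : ℝ) ≤ d := by exact_mod_cast hd1
    have hdN : d ≤ N := by
      have h1 := (hfac n₀ hn₀)
      have h2 := Finset.mem_Icc.1 (hS (Finset.mem_filter.1 hn₀).1)
      exact (Nat.le_of_dvd (lt_of_lt_of_le one_pos h2.1) h1.2.1).trans h2.2
    set M : ℕ := N / d with hM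
    have hM1 : 1 ≤ M := by
      rw [hM, Nat.le_div_iff_mul_le (by omega)]
      omega
    have hM1R : (1 : ℝ) ≤ M := by exact_mod_cast hM1
    have hM0 : (0 : ℝ) < M := by linarith
    have hMle : (M : ℝ) ≤ N / d := Nat.cast_div_le
    have hMN : M ≤ N := Nat.div_le_self _ _
    have hMNR : (M : ℝ) ≤ N := by exact_mod_cast hMN
    -- the polynomial of length `M`
    set b : ℕ → ℂ := fun a => if d * a ∈ S.filter (fun n => g n = d) then 1 else 0 with hb
    have hbn : ∀ a, ‖b a‖ ≤ 1 := by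
      intro a
      simp only [hb]
      split_ifs <;> simp
    have hbA : ∀ a, b a ≠ 0 → a ∈ 𝒜 M := by
      intro a ha
      simp only [hb] at ha
      by_cases h1 : d * a ∈ S.filter (fun n => g n = d)
      · have h2 := (hfac _ h1).2.2.2.2
        rwa [Nat.mul_div_cancel_left a (by omega)] at h2
      · rw [if_neg h1] at ha
        exact absurd rfl ha
    have hpoly : ∀ t, ‖∑ n ∈ S.filter (fun n => g n = d), phn n t‖ =
        ‖∑ a ∈ Icc 1 M, b a * phn a t‖ := by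
      intro t
      have h1 : ∑ n ∈ S.filter (fun n => g n = d), phn n t =
          phn d t * ∑ a ∈ Icc 1 M, b a * phn a t := by
        rw [Finset.mul_sum]
        have h2 : ∀ a ∈ Icc 1 M, phn d t * (b a * phn a t) =
            if d * a ∈ S.filter (fun n => g n = d) then phn (d * a) t else 0 := by
          intro a ha
          have ha1 : 1 ≤ a := (Finset.mem_Icc.1 ha).1
          simp only [hb]
          split_ifs with h3
          · rw [phn_mul hd1 ha1, one_mul]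
          · rw [zero_mul, mul_zero]
        rw [Finset.sum_congr rfl h2, ← Finset.sum_filter]
        symm
        apply Finset.sum_bij (fun a _ => d * a)
        · intro a ha
          exact (Finset.mem_filter.1 ha).2
        · intro a _ a' _ haa
          exact Nat.eq_of_mul_eq_mul_left (by omega) haa
        · intro n hn
          have h4 := hfac n hn
          have h5 := Finset.mem_Icc.1 (hS (Finset.mem_filter.1 hn).1)
          refine ⟨n / d, ?_, h4.2.2.2.1.symm⟩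
          rw [Finset.mem_filter, Finset.mem_Icc, ← h4.2.2.2.1]
          exact ⟨⟨h4.2.2.1, Nat.div_le_div_right h5.2⟩, hn⟩
        · intro a _
          rfl
      rw [h1, norm_mul, norm_phn, one_mul]
    simp_rw [hpoly]
    have hrs : rs d = (Real.sqrt d)⁻¹ := by
      rw [rs_apply, Real.rpow_neg (Nat.cast_nonneg _), ← Real.sqrt_eq_rpow]
    have hsqM : Real.sqrt M ≤ 2 * (Real.sqrt N * rs d) := by
      have h9 : 0 ≤ Real.sqrt N * rs d := mul_nonneg (Real.sqrt_nonneg _) (rs_nonneg d)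
      calc Real.sqrt M ≤ Real.sqrt (N / d) := Real.sqrt_le_sqrt hMle
        _ = Real.sqrt N * rs d := by
            rw [Real.sqrt_div (by positivity), hrs, div_eq_mul_inv]
        _ ≤ _ := by linarith
    have hsN : Real.sqrt N * Real.sqrt N = N := Real.mul_self_sqrt hN0.le
    have hsM : Real.sqrt M * Real.sqrt M = M := Real.mul_self_sqrt hM0.le
    have hsM0 : 0 ≤ Real.sqrt (M : ℝ) := Real.sqrt_nonneg _
    have hsN0 : 0 ≤ Real.sqrt (N : ℝ) := Real.sqrt_nonneg _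
    have hrs0 : 0 ≤ rs d := rs_nonneg d
    have hMrs : (M : ℝ) ≤ 2 * (N * rs d) := by
      calc (M : ℝ) = Real.sqrt M * Real.sqrt M := hsM.symm
        _ ≤ Real.sqrt N * (2 * (Real.sqrt N * rs d)) :=
            mul_le_mul (Real.sqrt_le_sqrt hMNR) hsqM hsM0 hsN0
        _ = 2 * ((Real.sqrt N * Real.sqrt N) * rs d) := by ring
        _ = _ := by rw [hsN]
    have hNpow : (N : ℝ) ^ (1 + δ) = N * (N : ℝ) ^ δ := by
      rw [Real.rpow_add hN0, Real.rpow_one]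
    have hNδ : 0 ≤ (N : ℝ) ^ δ := by positivity
    rcases le_total ((N : ℝ) ^ δ) (M : ℝ) with hcase | hcase
    · -- long polynomials
      have hTM : N ^ A ≤ M ^ A' := by
        have h1 : (N : ℝ) ^ A ≤ (M : ℝ) ^ A' := by
          calc (N : ℝ) ^ A = ((N : ℝ) ^ δ) ^ ((A : ℝ) / δ) := by
                rw [← Real.rpow_mul hN0.le, ← Real.rpow_natCast]
                congr 1
                field_simp
            _ ≤ (M : ℝ) ^ ((A : ℝ) / δ) := Real.rpow_le_rpow (by positivity) hcase (by positivity)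
            _ ≤ (M : ℝ) ^ (A' : ℝ) := by
                apply Real.rpow_le_rpow_of_exponent_le hM1R
                refine (Nat.le_ceil _).trans ?_
                exact_mod_cast le_max_right 1 ⌈(A : ℝ) / δ⌉₊
            _ = _ := Real.rpow_natCast _ _
        exact_mod_cast h1
      have h1 := l1_inX 𝒜 C hC0 M (M ^ A') hM1 δ (fun S' hS' hSA' W' hW' hT' => by
        refine (hC₀ M hM1 S' hS' hSA' W' hW' hT').trans ?_
        exact mul_le_mul_of_nonneg_right (mul_le_mul_of_nonneg_right (le_max_left _ _)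
          (Real.rpow_nonneg hM0.le _)) (Real.sqrt_nonneg _)) b hbn hbA W
          (fun t ht => (hWT t ht).trans hTM)
      have h2 : (M : ℝ) * Real.sqrt W.card + W.card * Real.sqrt M ≤ 4 * (N * R * rs d) := by
        rw [← hR, hRR]
        have e1 : (M : ℝ) * R ≤ 2 * (N * rs d) * R := mul_le_mul_of_nonneg_right hMrs hR0'
        have e2 : R * R * Real.sqrt M ≤ Real.sqrt N * R * (2 * (Real.sqrt N * rs d)) := by
          apply mul_le_mul _ hsqM hsM0 (mul_nonneg hsN0 hR0')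
          exact mul_le_mul_of_nonneg_right hRle hR0'
        have e3 : Real.sqrt N * R * (2 * (Real.sqrt N * rs d)) = 2 * (N * rs d) * R := by
          calc Real.sqrt N * R * (2 * (Real.sqrt N * rs d)) =
                2 * ((Real.sqrt N * Real.sqrt N) * rs d) * R := by ring
            _ = _ := by rw [hsN]
        calc (M : ℝ) * R + R * R * Real.sqrt M ≤ 2 * (N * rs d) * R + 2 * (N * rs d) * R := by
              linarith
          _ = _ := by ring
      have h3 : (M : ℝ) ^ δ ≤ (N : ℝ) ^ δ := Real.rpow_le_rpow hM0.le hMNR hδ0.le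
      calc _ ≤ _ := h1
        _ ≤ 32 * C * (N : ℝ) ^ δ * (4 * (N * R * rs d)) := by
            apply mul_le_mul _ h2 _ (mul_nonneg (mul_nonneg (by norm_num) hC0) hNδ)
            · exact mul_le_mul_of_nonneg_left h3 (mul_nonneg (by norm_num) hC0)
            · exact add_nonneg (mul_nonneg hM0.le (Real.sqrt_nonneg _)) (mul_nonneg hR0 hsM0)
        _ = 128 * C * ((N : ℝ) ^ (1 + δ) * R) * rs d := by rw [hNpow]; ring
        _ ≤ _ := by
            have h9 : 0 ≤ ((N : ℝ) ^ (1 + δ) * R) * rs d := mul_nonneg (mul_nonneg hNp hR0') hrs0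
            have h10 : 0 ≤ C * (((N : ℝ) ^ (1 + δ) * R) * rs d) := mul_nonneg hC0 h9
            linarith
    · -- short polynomials
      have h1 : ∀ t, ‖∑ a ∈ Icc 1 M, b a * phn a t‖ ≤ 2 * M := by
        intro t
        calc ‖∑ a ∈ Icc 1 M, b a * phn a t‖ ≤ ∑ a ∈ Icc 1 M, ‖b a * phn a t‖ :=
              norm_sum_le _ _
          _ ≤ ∑ a ∈ Icc 1 M, (1 : ℝ) := by
              apply Finset.sum_le_sum
              intro a _
              rw [norm_mul, norm_phn, mul_one]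
              exact hbn a
          _ = M := by simp
          _ ≤ 2 * M := by linarith
      have h2 : Real.sqrt M ≤ (N : ℝ) ^ δ := by
        have h3 : Real.sqrt M ≤ M := by
          rw [Real.sqrt_le_left hM0.le]
          nlinarith
        exact h3.trans hcase
      calc ∑ t ∈ W, ‖∑ a ∈ Icc 1 M, b a * phn a t‖ ≤ ∑ t ∈ W, (2 * (M : ℝ)) :=
            Finset.sum_le_sum fun t _ => h1 t
        _ = 2 * (R * R) * (Real.sqrt M * Real.sqrt M) := by
            rw [Finset.sum_const, nsmul_eq_mul, hsM, hRR]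
            ring
        _ ≤ 2 * (Real.sqrt N * R) * ((N : ℝ) ^ δ * (2 * (Real.sqrt N * rs d))) := by
            apply mul_le_mul
            · apply mul_le_mul_of_nonneg_left _ (by norm_num)
              exact mul_le_mul_of_nonneg_right hRle hR0'
            · exact mul_le_mul h2 hsqM hsM0 hNδ
            · exact mul_nonneg hsM0 hsM0
            · exact mul_nonneg (by norm_num) (mul_nonneg hsN0 hR0')
        _ = 4 * ((Real.sqrt N * Real.sqrt N) * (N : ℝ) ^ δ * R) * rs d := by ring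
        _ = 4 * ((N : ℝ) ^ (1 + δ) * R) * rs d := by rw [hsN, hNpow]
        _ ≤ _ := by
            have h9 : 0 ≤ ((N : ℝ) ^ (1 + δ) * R) * rs d := mul_nonneg (mul_nonneg hNp hR0') hrs0
            have h10 : 0 ≤ C * (((N : ℝ) ^ (1 + δ) * R) * rs d) := mul_nonneg hC0 h9
            linarith
  have hfin : ‖∑ n ∈ S, ∑ t ∈ W, phn n t‖ ≤
      ∑ d ∈ D N, (128 * C + 4) * ((N : ℝ) ^ (1 + δ) * R) * rs d := by
    rw [Finset.sum_comm]
    calc ‖∑ t ∈ W, ∑ n ∈ S, phn n t‖ ≤ ∑ t ∈ W, ‖∑ n ∈ S, phn n t‖ := norm_sum_le _ _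
      _ ≤ ∑ t ∈ W, ∑ d ∈ D N, ‖∑ n ∈ S.filter (fun n => g n = d), phn n t‖ := by
          apply Finset.sum_le_sum
          intro t _
          rw [hsplit t]
          exact norm_sum_le _ _
      _ = ∑ d ∈ D N, ∑ t ∈ W, ‖∑ n ∈ S.filter (fun n => g n = d), phn n t‖ := Finset.sum_comm
      _ ≤ _ := Finset.sum_le_sum hpiece
  rw [← Finset.mul_sum] at hfin
  have h1 : ∑ d ∈ D N, rs d ≤ max C₁ 0 * (N : ℝ) ^ δ :=
    (hC₁ N hN).trans (mul_le_mul_of_nonneg_right (le_max_left _ _) (by positivity))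
  calc ‖∑ n ∈ S, ∑ t ∈ W, phn n t‖ ≤ _ := hfin
    _ ≤ (128 * C + 4) * ((N : ℝ) ^ (1 + δ) * R) * (max C₁ 0 * (N : ℝ) ^ δ) :=
        mul_le_mul_of_nonneg_left h1 (mul_nonneg hK0 (mul_nonneg hNp hR0'))
    _ = (128 * C + 4) * max C₁ 0 * ((N : ℝ) ^ (1 + δ) * (N : ℝ) ^ δ) * R := by ring
    _ ≤ (128 * C + 4) * max C₁ 0 * (N : ℝ) ^ (1 + ε) * R := by
        apply mul_le_mul_of_nonneg_right _ hR0'
        apply mul_le_mul_of_nonneg_left _ (mul_nonneg hK0 (le_max_right _ _))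
        rw [← Real.rpow_add hN0]
        apply Real.rpow_le_rpow_of_exponent_le hN1
        rw [hδ]
        linarith

theorem ws_in (𝒜 : ℕ → Set ℕ) (hcov : CoversBelow 𝒜) :
    (WellSpaced ↔ BilinearAllRangesIn 𝒜) ∧ (WellSpaced ↔ MeanValueAllRangesIn 𝒜) := by
  have h1 : WellSpaced ↔ BilinearAllRangesIn 𝒜 := by
    constructor
    · intro h A hA ε hε
      obtain ⟨C, hC⟩ := wellSpaced_imp h A hA ε hε
      exact ⟨C, fun N hN S hS _ W hW hT => hC N hN S hS W hW hT⟩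
    · intro h
      exact bilinearAll_imp (bilinearAll_of_in 𝒜 hcov h)
  exact ⟨h1, h1.trans (bilinearAllIn_iff 𝒜)⟩

end Pool.Agent.X159.MB
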